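import Pool.Agent.H11.FR.Comp
import Pool.Agent.H4.OG.Defs

/-!
# Module Ordx (MP_187c26_nt, whole fields): the order `𝓞 K [θ]` and its index

`K` a number field, `θ ^ μ = b ∈ 𝓞 K`, `μ ≥ 1`, `b ≠ 0`. `ordOf K θ = 𝓞 K [θ]`, `ordIdx K θ` is its index in the ring
of integers of `K(θ)`. The index is finite, `μ b` kills the quotient, and the index is `1` if `b`, `μ` are good.
-/

set_option autoImplicit false

open IntermediateField NumberField

namespace Pool.Agent.H11.FR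

open Pool.Agent.H4.OG (intOf mem_intOf)

section

variable (K : Type) {Ω : Type} [Field K] [NumberField K] [Field Ω] [CharZero Ω] [Algebra K Ω]

/-- The order `𝓞 K [θ]`. -/
noncomputable def ordOf (θ : Ω) : Subring Ω := (Algebra.adjoin (𝓞 K) ({θ} : Set Ω)).toSubring

/-- The index of `𝓞 K [θ]` in the ring of integers of `K(θ)`. -/
noncomputable def ordIdx (θ : Ω) : ℕ :=
  (ordOf K θ).toAddSubgroup.relIndex (intOf K⟮θ⟯).toAddSubgroup

variable {K}

omit [NumberField K] [CharZero Ω] in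
theorem algebraMap_mem_ordOf (θ : Ω) (z : 𝓞 K) : algebraMap (𝓞 K) Ω z ∈ ordOf K θ :=
  (Algebra.adjoin (𝓞 K) ({θ} : Set Ω)).algebraMap_mem z

omit [NumberField K] [CharZero Ω] in
theorem self_mem_ordOf (θ : Ω) : θ ∈ ordOf K θ := Algebra.self_mem_adjoin_singleton _ θ

omit [NumberField K] [CharZero Ω] in
theorem ordOf_le (θ : Ω) (R : Subring Ω) (hK : ∀ z : 𝓞 K, algebraMap (𝓞 K) Ω z ∈ R)
    (hθ : θ ∈ R) : ordOf K θ ≤ R := by
  intro z hz
  change z ∈ Algebra.adjoin (𝓞 K) ({θ} : Set Ω) at hz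
  induction hz using Algebra.adjoin_induction with
  | mem w hw =>
    rw [Set.mem_singleton_iff] at hw
    rw [hw]
    exact hθ
  | algebraMap s => exact hK s
  | add u v _ _ h2 h3 => exact R.add_mem h2 h3
  | mul u v _ _ h2 h3 => exact R.mul_mem h2 h3

omit [NumberField K] [CharZero Ω] in
theorem isIntegral_algebraMap_int (z : 𝓞 K) : IsIntegral ℤ (algebraMap (𝓞 K) Ω z) :=
  (RingOfIntegers.isIntegral z).map (IsScalarTower.toAlgHom ℤ (𝓞 K) Ω)

omit [NumberField K] [CharZero Ω] in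
theorem isIntegral_root {θ : Ω} {μ : ℕ} (hμ : 1 ≤ μ) {b : 𝓞 K}
    (hθ : θ ^ μ = algebraMap (𝓞 K) Ω b) : IsIntegral ℤ θ := by
  refine IsIntegral.of_pow (by omega : 0 < μ) ?_
  rw [hθ]
  exact isIntegral_algebraMap_int b

omit [NumberField K] [CharZero Ω] in
theorem ordOf_le_intOf {θ : Ω} {μ : ℕ} (hμ : 1 ≤ μ) {b : 𝓞 K}
    (hθ : θ ^ μ = algebraMap (𝓞 K) Ω b) : ordOf K θ ≤ intOf K⟮θ⟯ := by
  refine ordOf_le θ _ (fun z => ?_) ?_
  · refine (mem_intOf _ _).2 ⟨?_, isIntegral_algebraMap_int z⟩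
    rw [IsScalarTower.algebraMap_apply (𝓞 K) K Ω]
    exact IntermediateField.algebraMap_mem _ _
  · exact (mem_intOf _ _).2 ⟨IntermediateField.mem_adjoin_simple_self K θ, isIntegral_root hμ hθ⟩

theorem ordOf_kill [Algebra.IsAlgebraic K Ω] {θ : Ω} {μ : ℕ} (hμ : 1 ≤ μ) {b : 𝓞 K}
    (hθ : θ ^ μ = algebraMap (𝓞 K) Ω b) (z : Ω) (hz : z ∈ intOf K⟮θ⟯) :
    algebraMap (𝓞 K) Ω ((μ : 𝓞 K) * b) * z ∈ ordOf K θ := by
  rw [mem_intOf] at hz
  refine step (K := K) (ordOf K θ) ⊥ ?_ θ (self_mem_ordOf θ) μ hμ b hθ z ?_ hz.2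
  · intro w hw hwi
    rw [IntermediateField.mem_bot] at hw
    obtain ⟨y, rfl⟩ := hw
    have hy : IsIntegral ℤ y := (isIntegral_algHom_iff (IsScalarTower.toAlgHom ℤ K Ω)
      (algebraMap K Ω).injective).1 hwi
    exact algebraMap_mem_ordOf θ ⟨y, hy⟩
  · rw [bot_sup_eq]
    exact hz.1

/-- A subgroup of a finitely generated group which contains a nonzero multiple of it has finite index. -/
theorem relIndex_ne_zero_of_mul {Ω : Type} [Field Ω] (B O : Subring Ω)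
    [Module.Finite ℤ O] (n : ℤ) (hn : n ≠ 0) (h : ∀ z ∈ O, (n : Ω) * z ∈ B) :
    B.toAddSubgroup.relIndex O.toAddSubgroup ≠ 0 := by
  set P : AddSubgroup O := B.toAddSubgroup.addSubgroupOf O.toAddSubgroup with hP
  set P' : Submodule ℤ O := AddSubgroup.toIntSubmodule P with hP'
  have htor : Module.IsTorsion ℤ (O ⧸ P') := by
    intro x
    obtain ⟨x, rfl⟩ := Submodule.Quotient.mk_surjective P' x
    refine ⟨⟨n, mem_nonZeroDivisors_of_ne_zero hn⟩, ?_⟩
    change n • (Submodule.Quotient.mk x : O ⧸ P') = 0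
    rw [← Submodule.Quotient.mk_smul, Submodule.Quotient.mk_eq_zero]
    change ((n • x : O) : Ω) ∈ B
    have h1 : ((n • x : O) : Ω) = (n : Ω) * (x : Ω) := by
      rw [← zsmul_eq_mul]
      rfl
    rw [h1]
    exact h _ x.2
  have hfin : Finite (O ⧸ P') := Module.finite_of_fg_torsion _ htor
  have : Finite (O ⧸ P) := hfin
  exact AddSubgroup.index_ne_zero_of_finite (H := P)

omit [NumberField K] [CharZero Ω] in
/-- A nonzero multiple in `ℤ` of an element of `𝓞 K`. -/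
theorem exists_int_mul (d : 𝓞 K) (hd : d ≠ 0) : ∃ n : ℤ, n ≠ 0 ∧ ∃ c : 𝓞 K, (n : 𝓞 K) = d * c := by
  have hint : IsIntegral ℤ d := RingOfIntegers.isIntegral d
  have halg : IsAlgebraic ℤ d := hint.isAlgebraic
  obtain ⟨r, hr, c, hc⟩ := halg.exists_nonzero_dvd (mem_nonZeroDivisors_of_ne_zero hd)
  exact ⟨r, hr, c, by simpa using hc⟩

/-- The algebraic integers of a number field inside `Ω` form a finitely generated group. -/
theorem finite_intOf (E : IntermediateField K Ω) [FiniteDimensional K E] :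
    Module.Finite ℤ (intOf E) := by
  haveI : FiniteDimensional ℚ E := FiniteDimensional.trans ℚ K E
  haveI : NumberField E := NumberField.mk
  let f : intOf E →+ 𝓞 E :=
    { toFun := fun z => ⟨⟨(z : Ω), ((mem_intOf _ _).1 z.2).1⟩,
        (isIntegral_algHom_iff (IsScalarTower.toAlgHom ℤ E Ω) (algebraMap E Ω).injective).1
          ((mem_intOf _ _).1 z.2).2⟩
      map_zero' := by apply RingOfIntegers.ext; rfl
      map_add' := fun u v => by apply RingOfIntegers.ext; rfl }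
  refine Module.Finite.of_injective f.toIntLinearMap (fun u v huv => ?_)
  apply Subtype.ext
  have h1 : f u = f v := huv
  have h2 := congrArg (fun y : 𝓞 E => ((y : E) : Ω)) h1
  exact h2

theorem ordIdx_ne_zero [Algebra.IsAlgebraic K Ω] {θ : Ω} {μ : ℕ} (hμ : 1 ≤ μ) {b : 𝓞 K}
    (hb : b ≠ 0) (hθ : θ ^ μ = algebraMap (𝓞 K) Ω b) : ordIdx K θ ≠ 0 := by
  haveI : FiniteDimensional K K⟮θ⟯ :=
    IntermediateField.adjoin.finiteDimensional (isIntegral_root hμ hθ).tower_top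
  haveI := finite_intOf (K := K) K⟮θ⟯
  have hd : (μ : 𝓞 K) * b ≠ 0 := mul_ne_zero (by exact_mod_cast (by omega : μ ≠ 0)) hb
  obtain ⟨n, hn, c, hc⟩ := exists_int_mul _ hd
  refine relIndex_ne_zero_of_mul _ _ n hn (fun z hz => ?_)
  have h1 := ordOf_kill hμ hθ z hz
  have h2 : (n : Ω) * z = algebraMap (𝓞 K) Ω c * (algebraMap (𝓞 K) Ω ((μ : 𝓞 K) * b) * z) := by
    rw [← mul_assoc, ← map_mul, mul_comm c, ← hc, map_intCast]
  rw [h2]
  exact (ordOf K θ).mul_mem (algebraMap_mem_ordOf θ c) h1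

/-- The index is `1` for good `b`, `μ`. -/
theorem ordIdx_good {θ : Ω} {μ : ℕ} (hμ : 1 ≤ μ) {b : 𝓞 K} (hgood : Good b μ)
    (hθ : θ ^ μ = algebraMap (𝓞 K) Ω b) : ordIdx K θ = 1 := by
  unfold ordIdx
  rw [AddSubgroup.relIndex_eq_one]
  intro z hz
  obtain ⟨h1, h2⟩ := (mem_intOf _ _).1 hz
  exact mem_adjoin_of_good b μ hμ hgood θ hθ z h1 h2

end

end Pool.Agent.H11.FR
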