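import Pool.Agent.H11.FR.Wl
import Pool.Agent.H11.FR.Ordx
import Pool.Agent.H4.OH.Regular

/-!
# Module Wg (MP_187c26_nt, whole fields): the index for a prime exponent

`K` a number field, `p` a prime unramified in `K`, `b ∈ 𝓞 K` a nonunit with `b ∉ P ^ 2` for all maximal ideals `P`,
`θ ^ p = b`. Then `[𝓞_{K(θ)} : 𝓞 K [θ]] ≤ p ^ [K : ℚ]`: the algebraic integers of `K(θ)` lie in
`𝓞 K [θ] + 𝓞 K ρ`, `ρ = (θ - c) ^ (p - 1) / p`, where `c ^ p ≡ b` modulo all maximal ideals above `p`.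
-/

set_option autoImplicit false

open IntermediateField NumberField Polynomial

namespace Pool.Agent.H11.FR

open Pool.Agent.H4.OG (intOf mem_intOf)
open Pool.Agent.H4.OH (relIndex_le_of_surj)

section

variable {K Ω : Type} [Field K] [NumberField K] [Field Ω] [CharZero Ω] [Algebra K Ω]
  [Algebra.IsAlgebraic K Ω]

omit [CharZero Ω] [Algebra.IsAlgebraic K Ω] in
/-- The degree of a `p`-th root. -/
theorem finrank_root (b : 𝓞 K) (hbu : ¬ IsUnit b)
    (hb : ∀ P : Ideal (𝓞 K), P.IsMaximal → b ∉ P ^ 2) (p : ℕ) (hp : 1 ≤ p) (θ : Ω)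
    (hθ : θ ^ p = algebraMap (𝓞 K) Ω b) : Module.finrank K K⟮θ⟯ = p := by
  obtain ⟨P, hP, hbP⟩ := Ideal.exists_le_maximal (Ideal.span {b}) (by
    rw [Ne, Ideal.span_singleton_eq_top]
    exact hbu)
  have hbP' : b ∈ P := hbP (Ideal.mem_span_singleton_self b)
  set f : (𝓞 K)[X] := X ^ p - C b with hf
  have hmon : f.Monic := monic_X_pow_sub_C b (by omega)
  have hdeg : f.natDegree = p := natDegree_X_pow_sub_C
  have hei : f.IsEisensteinAt P := by
    refine hmon.isEisensteinAt_of_mem_of_notMem hP.ne_top ?_ ?_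
    · intro n hn
      rw [hdeg] at hn
      rw [hf, coeff_sub, coeff_X_pow, coeff_C, if_neg (by omega)]
      split_ifs with h0
      · rw [zero_sub]
        exact neg_mem hbP'
      · rw [sub_zero]
        exact zero_mem _
    · rw [hf, coeff_sub, coeff_X_pow, coeff_C, if_neg (by omega), if_pos rfl, zero_sub]
      intro h
      have h1 := neg_mem h
      rw [neg_neg] at h1
      exact hb P hP h1
  have hirr : Irreducible f := hei.irreducible hP.isPrime hmon.isPrimitive (by rw [hdeg]; omega)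
  have hirrK : Irreducible (f.map (algebraMap (𝓞 K) K)) :=
    (hmon.irreducible_iff_irreducible_map_fraction_map (K := K)).1 hirr
  have hroot : aeval θ (f.map (algebraMap (𝓞 K) K)) = 0 := by
    rw [aeval_map_algebraMap, hf, map_sub, map_pow, aeval_X, aeval_C, hθ, sub_self]
  have hmin : f.map (algebraMap (𝓞 K) K) = minpoly K θ :=
    minpoly.eq_of_irreducible_of_monic hirrK hroot (hmon.map _)
  have hint : IsIntegral K θ := ⟨_, hmon.map (algebraMap (𝓞 K) K), hroot⟩
  rw [IntermediateField.adjoin.finrank hint, ← hmin, hmon.natDegree_map, hdeg]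

omit [NumberField K] in
/-- A `p`-th root of `b` modulo all maximal ideals above `p`. -/
theorem exists_root_mod [NumberField K] (p : ℕ) (hp : p.Prime) (b : 𝓞 K) :
    ∃ c : 𝓞 K, ∀ P : Ideal (𝓞 K), P.IsMaximal → (p : 𝓞 K) ∈ P → c ^ p - b ∈ P := by
  have hpne : (p : 𝓞 K) ≠ 0 := by exact_mod_cast hp.ne_zero
  have hne : Ideal.span {(p : 𝓞 K)} ≠ ⊥ := by
    rw [Ne, Ideal.span_singleton_eq_bot]
    exact hpne
  haveI hfin : Finite (𝓞 K ⧸ Ideal.span {(p : 𝓞 K)}) :=
    (Ideal.span {(p : 𝓞 K)}).finiteQuotientOfFreeOfNeBot hne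
  obtain ⟨k, k', hkk, h⟩ := Finite.exists_ne_map_eq_of_infinite
    (fun n : ℕ => (Ideal.Quotient.mk (Ideal.span {(p : 𝓞 K)}) b) ^ (p ^ n))
  -- wlog `k < k'`
  have key : ∀ k k' : ℕ, k < k' →
      (Ideal.Quotient.mk (Ideal.span {(p : 𝓞 K)}) b) ^ (p ^ k) =
      (Ideal.Quotient.mk (Ideal.span {(p : 𝓞 K)}) b) ^ (p ^ k') →
      ∃ c : 𝓞 K, ∀ P : Ideal (𝓞 K), P.IsMaximal → (p : 𝓞 K) ∈ P → c ^ p - b ∈ P := by
    intro k k' hlt h
    obtain ⟨l, hl⟩ : ∃ l, k' = k + (l + 1) := ⟨k' - k - 1, by omega⟩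
    refine ⟨b ^ (p ^ l), fun P hP hpP => ?_⟩
    rw [← map_pow, ← map_pow, Ideal.Quotient.eq] at h
    have hle : Ideal.span {(p : 𝓞 K)} ≤ P := by
      rw [Ideal.span_le, Set.singleton_subset_iff]
      exact hpP
    have h1 : b ^ p ^ k - b ^ p ^ k' ∈ P := hle h
    haveI := hP
    haveI : Fact p.Prime := ⟨hp⟩
    letI : Field (𝓞 K ⧸ P) := Ideal.Quotient.field P
    haveI : CharP (𝓞 K ⧸ P) p := by
      have h2 : ((p : ℕ) : 𝓞 K ⧸ P) = 0 := by
        rw [← map_natCast (Ideal.Quotient.mk P), Ideal.Quotient.eq_zero_iff_mem]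
        exact hpP
      obtain ⟨q, hq⟩ := CharP.exists (𝓞 K ⧸ P)
      have h6 : q ∣ p := (CharP.cast_eq_zero_iff (𝓞 K ⧸ P) q p).1 h2
      rcases (Nat.dvd_prime hp).1 h6 with h7 | h7
      · exact absurd h7 (CharP.char_ne_one (𝓞 K ⧸ P) q)
      · rw [← h7]
        exact hq
    rw [← Ideal.Quotient.eq_zero_iff_mem, map_sub, map_pow, map_pow] at h1 ⊢
    set β := Ideal.Quotient.mk P b with hβ
    have h3 : (β - (β ^ p ^ l) ^ p) ^ (p ^ k) = 0 := by
      have h4 : p ^ l * (p * p ^ k) = p ^ k' := by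
        rw [← mul_assoc, ← pow_succ, ← pow_add, hl]
        congr 1
        omega
      rw [sub_pow_char_pow, ← pow_mul, ← pow_mul, h4]
      exact h1
    have h5 : β - (β ^ p ^ l) ^ p = 0 := eq_zero_of_pow_eq_zero h3
    rw [← neg_eq_zero, neg_sub]
    exact h5
  rcases lt_or_gt_of_ne hkk with h' | h'
  · exact key k k' h' h
  · exact key k' k h' h.symm

/-- The index for a prime exponent, unramified in `K`. -/
theorem ordIdx_prime (b : 𝓞 K) (hbu : ¬ IsUnit b)
    (hb : ∀ P : Ideal (𝓞 K), P.IsMaximal → b ∉ P ^ 2) (p : ℕ) (hp : p.Prime)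
    (hunr : ∀ P : Ideal (𝓞 K), P.IsMaximal → (p : 𝓞 K) ∉ P ^ 2) (θ : Ω)
    (hθ : θ ^ p = algebraMap (𝓞 K) Ω b) : ordIdx K θ ≤ p ^ Module.finrank ℚ K := by
  classical
  have hp1 : 1 ≤ p := hp.one_lt.le
  have hpΩ : (p : Ω) ≠ 0 := by exact_mod_cast hp.ne_zero
  obtain ⟨c, hc⟩ := exists_root_mod p hp b
  have hdeg := finrank_root b hbu hb p hp1 θ hθ
  set ρ : Ω := (θ - algebraMap (𝓞 K) Ω c) ^ (p - 1) / (p : Ω) with hρ
  let φ : 𝓞 K →+ Ω :=
    { toFun := fun r => algebraMap (𝓞 K) Ω r * ρ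
      map_zero' := by rw [map_zero, zero_mul]
      map_add' := fun u v => by rw [map_add, add_mul] }
  set S : AddSubgroup Ω := (ordOf K θ).toAddSubgroup ⊔ φ.range with hS
  have hAS : (ordOf K θ).toAddSubgroup ≤ S := le_sup_left
  have hφS : φ.range ≤ S := le_sup_right
  have hmod : ∀ (r : 𝓞 K), ∀ s ∈ S, algebraMap (𝓞 K) Ω r * s ∈ S := by
    intro r
    have h1 : S ≤ S.comap (AddMonoidHom.mulLeft (algebraMap (𝓞 K) Ω r)) := by
      refine sup_le ?_ ?_
      · intro s hs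
        exact hAS ((ordOf K θ).mul_mem (algebraMap_mem_ordOf θ r) hs)
      · rintro _ ⟨s, rfl⟩
        refine hφS ⟨r * s, ?_⟩
        change algebraMap (𝓞 K) Ω (r * s) * ρ = algebraMap (𝓞 K) Ω r * (algebraMap (𝓞 K) Ω s * ρ)
        rw [map_mul, mul_assoc]
    exact fun s hs => h1 hs
  have hOS : (intOf K⟮θ⟯).toAddSubgroup ≤ S := by
    intro z hz
    obtain ⟨hz1, hz2⟩ := (mem_intOf _ _).1 hz
    refine mem_of_local (K := K) S hmod z (fun P hP => ?_)
    by_cases hex : (p : 𝓞 K) ∈ P ∧ b ∉ P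
    · obtain ⟨hpP, hbP⟩ := hex
      haveI := hP
      have hP0 : P ≠ ⊥ := Ring.ne_bot_of_isMaximal_of_not_isField inferInstance
        (RingOfIntegers.not_isField K)
      let A := Localization.subalgebra.ofField K P.primeCompl P.primeCompl_le_nonZeroDivisors
      haveI : IsLocalization.AtPrime A P :=
        Localization.subalgebra.isLocalization_ofField K P.primeCompl
          P.primeCompl_le_nonZeroDivisors
      haveI : IsDiscreteValuationRing A :=
        IsLocalization.AtPrime.isDiscreteValuationRing_of_dedekind_domain (𝓞 K) hP0 A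
      haveI : IsScalarTower (𝓞 K) A Ω := by
        refine IsScalarTower.of_algebraMap_eq fun r => ?_
        rw [IsScalarTower.algebraMap_apply (𝓞 K) K Ω]
        rfl
      obtain ⟨π, hπ⟩ := IsDiscreteValuationRing.exists_irreducible A
      have hpd : π ∣ (p : A) := by
        have h1 := dvd_of_mem (A := A) P hπ hpP
        rwa [map_natCast] at h1
      have hpd2 : ¬ π ^ 2 ∣ (p : A) := by
        have h1 := not_sq_dvd (A := A) P hπ (hunr P hP)
        rwa [map_natCast] at h1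
      obtain ⟨u, hu⟩ := hpd
      have huu : IsUnit u := by
        by_contra hnu
        have h1 : π ∣ u := by
          have h2 : u ∈ IsLocalRing.maximalIdeal A := (IsLocalRing.mem_maximalIdeal u).2 hnu
          rw [(IsDiscreteValuationRing.irreducible_iff_uniformizer π).1 hπ,
            Ideal.mem_span_singleton] at h2
          exact h2
        apply hpd2
        rw [hu, pow_two]
        exact mul_dvd_mul_left π h1
      have hass : Associated π (p : A) := ⟨huu.unit, by rw [hu]; rfl⟩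
      have hpirr : Irreducible (p : A) := hass.irreducible hπ
      have hbA : IsUnit (algebraMap (𝓞 K) A b) := unit_of_notMem P hbP
      have hcA : (p : A) ∣ algebraMap (𝓞 K) A c ^ p - algebraMap (𝓞 K) A b := by
        rw [← map_pow, ← map_sub]
        exact hass.symm.dvd.trans (dvd_of_mem P hπ (hc P hP hpP))
      have hθA : θ ^ p = algebraMap A Ω (algebraMap (𝓞 K) A b) := by
        rw [hθ, ← IsScalarTower.algebraMap_apply]
      obtain ⟨w, hw, a, hzwa⟩ := wild_local (A := A) (K := K) p hp hpirr _ _ hbA hcA θ hθA hdeg z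
        hz1 hz2.tower_top
      rw [← IsScalarTower.algebraMap_apply, ← hρ] at hzwa
      obtain ⟨r₁, hr₁, hw1⟩ := clearDen (A := A) P θ w hw
      obtain ⟨⟨n, s⟩, h1⟩ := IsLocalization.surj P.primeCompl a
      have h2 : algebraMap (𝓞 K) Ω s * algebraMap A Ω a = algebraMap (𝓞 K) Ω n := by
        rw [IsScalarTower.algebraMap_apply (𝓞 K) A Ω, ← map_mul, mul_comm, h1,
          ← IsScalarTower.algebraMap_apply]
      refine ⟨r₁ * s, ?_, ?_⟩
      · intro h
        rcases hP.isPrime.mem_or_mem h with h3 | h3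
        · exact hr₁ h3
        · exact s.2 h3
      · have h3 : algebraMap (𝓞 K) Ω (r₁ * s) * z =
            algebraMap (𝓞 K) Ω s * (algebraMap (𝓞 K) Ω r₁ * w) +
              algebraMap (𝓞 K) Ω (r₁ * n) * ρ := by
          rw [hzwa, map_mul, map_mul, ← h2]
          ring
        rw [h3]
        exact S.add_mem (hAS ((ordOf K θ).mul_mem (algebraMap_mem_ordOf θ _) hw1))
          (hφS ⟨r₁ * n, rfl⟩)
    · obtain ⟨r, hr, hrz⟩ := exists_mul_mem P hP b p hp1 ⟨hb P hP, fun hbP q hq hqp hqP c' => by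
        rw [(Nat.prime_dvd_prime_iff_eq hq hp).1 hqp] at hqP
        exact absurd ⟨hqP, hbP⟩ hex⟩ θ hθ z hz1 hz2
      exact ⟨r, hr, hAS hrz⟩
  -- the index of `S`
  set I : AddSubgroup (𝓞 K) := Submodule.toAddSubgroup (Ideal.span {(p : 𝓞 K)}) with hI
  have hIidx : I.index = p ^ Module.finrank ℚ K := by
    have h1 : I.index = Ideal.absNorm (Ideal.span {(p : 𝓞 K)}) := rfl
    rw [h1, Ideal.absNorm_span_singleton]
    have h2 : (p : 𝓞 K) = algebraMap ℤ (𝓞 K) (p : ℤ) := by simp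
    rw [h2, Algebra.norm_algebraMap, RingOfIntegers.rank K, Int.natAbs_pow, Int.natAbs_natCast]
  have hmain := relIndex_le_of_surj φ I (ordOf K θ).toAddSubgroup S (by
    intro y hy
    obtain ⟨y', hy'⟩ := Ideal.mem_span_singleton'.1 hy
    change algebraMap (𝓞 K) Ω y * ρ ∈ ordOf K θ
    have h1 : algebraMap (𝓞 K) Ω y * ρ =
        algebraMap (𝓞 K) Ω y' * (θ - algebraMap (𝓞 K) Ω c) ^ (p - 1) := by
      rw [← hy', map_mul, map_natCast, hρ]
      field_simp
    rw [h1]
    exact (ordOf K θ).mul_mem (algebraMap_mem_ordOf θ _) ((ordOf K θ).pow_mem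
      ((ordOf K θ).sub_mem (self_mem_ordOf θ) (algebraMap_mem_ordOf θ _)) _)) (by
    intro z hz
    obtain ⟨w, hw, t, ⟨y, rfl⟩, rfl⟩ := AddSubgroup.mem_sup.1 hz
    exact ⟨y, w, hw, add_comm _ _⟩) (by
    rw [hIidx]
    exact pow_ne_zero _ hp.ne_zero)
  rw [hIidx] at hmain
  exact (AddSubgroup.relIndex_le_of_le_right hOS hmain.1).trans hmain.2

end

end Pool.Agent.H11.FR
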