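import Pool.Agent.H11.FR.Red
import Pool.Agent.H11.FR.Wg

/-!
# Module IdxB (MP_187c26_nt, whole fields): the index bound

`K` a number field, `b ∈ 𝓞 K` a nonunit, `b ∉ P ^ 2` for all maximal ideals, `θ ^ m = b`, `W` a finite set of primes
`p` unramified in `K` with `p ∣ m`, not `p ^ 2 ∣ m`, such that `b` is not a `p`-th power modulo `P ^ 2` for the other
primes `p` dividing `m` and `P` above `p`, `b ∉ P`. Then
`log ordIdx K θ / m ≤ [K : ℚ] ∑ p ∈ W, log p / p`.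
-/

set_option autoImplicit false

open IntermediateField NumberField

namespace Pool.Agent.H11.FR

theorem ordIdx_bound {K Ω : Type} [Field K] [NumberField K] [Field Ω] [CharZero Ω] [Algebra K Ω]
    [Algebra.IsAlgebraic K Ω] (b : 𝓞 K) (hbu : ¬ IsUnit b) (m : ℕ) (hm : 1 ≤ m) (W : Finset ℕ)
    (hW : ∀ p ∈ W, p.Prime ∧ p ∣ m ∧ ¬ p ^ 2 ∣ m ∧
      ∀ P : Ideal (𝓞 K), P.IsMaximal → (p : 𝓞 K) ∉ P ^ 2)
    (hgood : ∀ P : Ideal (𝓞 K), P.IsMaximal → b ∉ P ^ 2 ∧ (b ∉ P → ∀ p : ℕ, p.Prime → p ∣ m →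
      p ∉ W → (p : 𝓞 K) ∈ P → ∀ c : 𝓞 K, b - c ^ p ∉ P ^ 2))
    (θ : Ω) (hθ : θ ^ m = algebraMap (𝓞 K) Ω b) :
    Real.log (ordIdx K θ : ℕ) / m ≤
      Module.finrank ℚ K * ∑ p ∈ W, Real.log (p : ℕ) / p := by
  have hb : ∀ P : Ideal (𝓞 K), P.IsMaximal → b ∉ P ^ 2 := fun P hP => (hgood P hP).1
  have hb0 : b ≠ 0 := by
    rintro rfl
    obtain ⟨P, hP⟩ := Ideal.exists_maximal (𝓞 K)
    exact hb P hP (Ideal.zero_mem _)
  refine (ordIdx_red b hb0 m hm W (fun p hp => ⟨(hW p hp).1, (hW p hp).2.1, (hW p hp).2.2.1⟩)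
    hgood θ hθ).trans ?_
  rw [Finset.mul_sum]
  refine Finset.sum_le_sum fun p hp => ?_
  obtain ⟨hpp, hpm, -, hunr⟩ := hW p hp
  have hpR : (0 : ℝ) < p := by exact_mod_cast hpp.pos
  have hx : (θ ^ (m / p)) ^ p = algebraMap (𝓞 K) Ω b := by
    rw [← pow_mul, mul_comm, Nat.mul_div_cancel' hpm, hθ]
  have h1 := ordIdx_prime b hbu hb p hpp hunr (θ ^ (m / p)) hx
  have h2 : (0 : ℝ) < (ordIdx K (θ ^ (m / p)) : ℕ) := by
    exact_mod_cast Nat.pos_of_ne_zero (ordIdx_ne_zero hpp.one_lt.le hb0 hx)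
  have h3 : Real.log (ordIdx K (θ ^ (m / p)) : ℕ) ≤ Module.finrank ℚ K * Real.log (p : ℕ) := by
    rw [← Real.log_pow]
    apply Real.log_le_log h2
    exact_mod_cast h1
  rw [mul_div_assoc']
  exact div_le_div_of_nonneg_right h3 hpR.le

end Pool.Agent.H11.FR
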