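import Pool.Agent.H11.FR.Gen

/-!
# Module Multi (MP_187c26_nt, whole fields): the index of a compositum of several orders

`A`, `O i` subrings, `d i ∈ A` pairwise coprime, `d i O i ⊆ A`. Then
`[A ∏ O i : A] ≤ ∏ [A O i : A]`.
-/

set_option autoImplicit false

namespace Pool.Agent.H11.FR

theorem multi {Ω ι : Type} [Field Ω] [DecidableEq ι] (A : Subring Ω) (O : ι → Subring Ω)
    (d : ι → A) (hcop : ∀ i j, i ≠ j → IsCoprime (d i) (d j))
    (hd : ∀ i, ∀ w ∈ O i, (d i : Ω) * w ∈ A)
    (hidx : ∀ i, A.toAddSubgroup.relIndex (A ⊔ O i).toAddSubgroup ≠ 0) (T : Finset ι) :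
    A.toAddSubgroup.relIndex (A ⊔ T.sup O).toAddSubgroup ≠ 0 ∧
    (∀ z ∈ A ⊔ T.sup O, ((∏ i ∈ T, d i : A) : Ω) * z ∈ A) ∧
    Real.log (A.toAddSubgroup.relIndex (A ⊔ T.sup O).toAddSubgroup : ℕ) ≤
      ∑ i ∈ T, Real.log (A.toAddSubgroup.relIndex (A ⊔ O i).toAddSubgroup : ℕ) := by
  induction T using Finset.induction_on with
  | empty =>
    have h1 : A ⊔ (∅ : Finset ι).sup O = A := by rw [Finset.sup_empty, sup_bot_eq]
    rw [h1, AddSubgroup.relIndex_self]
    refine ⟨one_ne_zero, ?_, by simp⟩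
    intro z hz
    rw [Finset.prod_empty]
    exact A.mul_mem A.one_mem hz
  | insert j T hj ih =>
    obtain ⟨ih1, ih2, ih3⟩ := ih
    set R : Subring Ω := A ⊔ T.sup O with hR
    have hRj : A ⊔ (insert j T).sup O = R ⊔ O j := by
      rw [Finset.sup_insert, hR, sup_assoc, sup_comm (T.sup O)]
    rw [hRj]
    set D : A := ∏ i ∈ T, d i with hD
    have hcopD : IsCoprime D (d j) := by
      refine IsCoprime.prod_left fun i hi => hcop i j ?_
      rintro rfl
      exact hj hi
    have hAR : A ≤ R := le_sup_left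
    have hRR : R ≤ R ⊔ O j := le_sup_left
    -- `d j` and `D`
    have hdz : ∀ z ∈ R ⊔ O j, (d j : Ω) * z ∈ R ∧ (D : Ω) * z ∈ A ⊔ O j := by
      intro z hz
      have h1 := mem_sup_closure R (O j) z hz
      clear hz
      induction h1 using AddSubgroup.closure_induction with
      | mem t ht =>
        obtain ⟨a, ha, w, hw, rfl⟩ := ht
        constructor
        · have h2 : (d j : Ω) * (a * w) = a * ((d j : Ω) * w) := by ring
          rw [h2]
          exact R.mul_mem ha (hAR (hd j w hw))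
        · have h2 : (D : Ω) * (a * w) = ((D : Ω) * a) * w := by ring
          rw [h2]
          exact (A ⊔ O j).mul_mem ((le_sup_left : A ≤ A ⊔ O j) (ih2 a ha))
            ((le_sup_right : O j ≤ A ⊔ O j) hw)
      | zero => rw [mul_zero, mul_zero]; exact ⟨R.zero_mem, (A ⊔ O j).zero_mem⟩
      | add u v _ _ hu hv =>
        rw [mul_add, mul_add]
        exact ⟨R.add_mem hu.1 hv.1, (A ⊔ O j).add_mem hu.2 hv.2⟩
      | neg u _ hu =>
        rw [mul_neg, mul_neg]
        exact ⟨R.neg_mem hu.1, (A ⊔ O j).neg_mem hu.2⟩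
    have hstep := Pool.Agent.H4.OH.relIndex_le_of_surj (A ⊔ O j).toAddSubgroup.subtype
      (A.toAddSubgroup.addSubgroupOf (A ⊔ O j).toAddSubgroup) R.toAddSubgroup
      (R ⊔ O j).toAddSubgroup (by
        intro y hy
        exact hAR hy) (by
        intro z hz
        obtain ⟨h1, h2⟩ := hdz z hz
        obtain ⟨u, v, huv⟩ := hcopD
        have huvΩ : (u : Ω) * (D : Ω) + (v : Ω) * (d j : Ω) = 1 := by
          have h3 := congrArg (fun y : A => (y : Ω)) huv
          simpa using h3
        refine ⟨⟨(u : Ω) * ((D : Ω) * z), (A ⊔ O j).mul_mem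
          ((le_sup_left : A ≤ A ⊔ O j) u.2) h2⟩, (v : Ω) * ((d j : Ω) * z),
          R.mul_mem (hAR v.2) h1, ?_⟩
        change z = (u : Ω) * ((D : Ω) * z) + (v : Ω) * ((d j : Ω) * z)
        calc z = ((u : Ω) * (D : Ω) + (v : Ω) * (d j : Ω)) * z := by rw [huvΩ, one_mul]
          _ = _ := by ring) (hidx j)
    have hmul : A.toAddSubgroup.relIndex R.toAddSubgroup *
        R.toAddSubgroup.relIndex (R ⊔ O j).toAddSubgroup =
        A.toAddSubgroup.relIndex (R ⊔ O j).toAddSubgroup :=
      AddSubgroup.relIndex_mul_relIndex _ _ _ hAR hRR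
    have hle : R.toAddSubgroup.relIndex (R ⊔ O j).toAddSubgroup ≤
        A.toAddSubgroup.relIndex (A ⊔ O j).toAddSubgroup := hstep.2
    refine ⟨?_, ?_, ?_⟩
    · rw [← hmul]
      exact Nat.mul_ne_zero ih1 hstep.1
    · intro z hz
      rw [Finset.prod_insert hj, Subring.coe_mul, mul_comm (d j : Ω), mul_assoc]
      exact ih2 _ (hdz z hz).1
    · rw [Finset.sum_insert hj, ← hmul, Nat.cast_mul, Real.log_mul (by exact_mod_cast ih1)
        (by exact_mod_cast hstep.1), add_comm]
      refine add_le_add ?_ ih3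
      apply Real.log_le_log
      · exact_mod_cast Nat.pos_of_ne_zero hstep.1
      · exact_mod_cast hle

end Pool.Agent.H11.FR
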