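import Pool.Agent.H4.OH.Regular

/-!
# Module Oht (MP_187c26_nt, whole fields): the order height and the index

`A ≤ R` subrings of a field of characteristic `0`, finite over `ℤ`, `A` of finite index `n` in `R`. Then `A` and
`R` have the same number of embeddings and `log OHt A u v ≤ log OHt R u v + log n`.
-/

set_option autoImplicit false

namespace Pool.Agent.H11.FR

open Pool.Agent.H4.OH

theorem log_OHt_le {Ω : Type} [Field Ω] [CharZero Ω] (A R : Subring Ω) (hAR : A ≤ R)
    [Module.Finite ℤ A] [Module.Finite ℤ R]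
    (hidx : A.toAddSubgroup.relIndex R.toAddSubgroup ≠ 0) (u v : A) (hu : u ≠ 0) :
    Fintype.card (A →+* ℂ) = Fintype.card (R →+* ℂ) ∧
    Real.log (OHt A u v) ≤ Real.log (OHt R ⟨u, hAR u.2⟩ ⟨v, hAR v.2⟩) +
      Real.log (A.toAddSubgroup.relIndex R.toAddSubgroup : ℕ) := by
  classical
  set ι : A →+* R := Subring.inclusion hAR with hι
  have hιinj : Function.Injective ι := Subring.inclusion_injective hAR
  set P : AddSubgroup R := ι.toAddMonoidHom.range with hP
  have hPidx : P.index = A.toAddSubgroup.relIndex R.toAddSubgroup := by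
    have h1 : P = A.toAddSubgroup.addSubgroupOf R.toAddSubgroup := by
      ext z
      constructor
      · rintro ⟨a, rfl⟩
        exact a.2
      · intro hz
        exact ⟨⟨(z : Ω), hz⟩, Subtype.ext rfl⟩
    rw [h1]
    rfl
  rw [← hPidx]
  rw [← hPidx] at hidx
  set n := P.index with hn
  have hn0 : (n : ℂ) ≠ 0 := Nat.cast_ne_zero.2 hidx
  have hex : ∀ z : R, ∃ a : A, ι a = (n : R) * z := by
    intro z
    have h1 : n • z ∈ P := AddSubgroup.nsmul_index_mem _ z
    obtain ⟨a, ha⟩ := h1
    exact ⟨a, by rw [← nsmul_eq_mul]; exact ha⟩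
  choose g hg using hex
  have hbij : Function.Bijective (fun τ : R →+* ℂ => τ.comp ι) := by
    constructor
    · intro τ σ h
      ext z
      have h1 : τ (ι (g z)) = σ (ι (g z)) := congrArg (fun f : A →+* ℂ => f (g z)) h
      rw [hg, map_mul, map_mul, map_natCast, map_natCast] at h1
      exact mul_left_cancel₀ hn0 h1
    · intro τ
      have hadd : ∀ z w, g (z + w) = g z + g w := fun z w => hιinj (by
        rw [map_add, hg, hg, hg]; ring)
      have hmul : ∀ z w, (n : A) * g (z * w) = g z * g w := fun z w => hιinj (by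
        rw [map_mul, map_mul, map_natCast, hg, hg, hg]; ring)
      have hone : g 1 = (n : A) := hιinj (by rw [hg, map_natCast, mul_one])
      have hzero : g 0 = 0 := hιinj (by rw [hg, map_zero, mul_zero])
      refine ⟨{ toFun := fun z => τ (g z) / n
                map_one' := by rw [hone, map_natCast, div_self hn0]
                map_zero' := by rw [hzero, map_zero, zero_div]
                map_add' := fun z w => by rw [hadd, map_add, add_div]
                map_mul' := fun z w => by
                  have h1 := congrArg τ (hmul z w)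
                  rw [map_mul, map_mul, map_natCast] at h1
                  field_simp
                  rw [mul_comm, h1] }, ?_⟩
      ext a
      change τ (g (ι a)) / n = τ a
      have h1 : g (ι a) = (n : A) * a := hιinj (by rw [hg, map_mul, map_natCast])
      rw [h1, map_mul, map_natCast, mul_div_assoc, mul_comm, div_mul_cancel₀ _ hn0]
  let E : (R →+* ℂ) ≃ (A →+* ℂ) := Equiv.ofBijective _ hbij
  refine ⟨(Fintype.card_congr E).symm, ?_⟩
  have hprod : ∏ τ : R →+* ℂ, max ‖τ ⟨u, hAR u.2⟩‖ ‖τ ⟨v, hAR v.2⟩‖ =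
      ∏ τ : A →+* ℂ, max ‖τ u‖ ‖τ v‖ := Fintype.prod_equiv E _ _ (fun τ => rfl)
  set I : AddSubgroup A := Submodule.toAddSubgroup (Ideal.span {u, v}) with hI
  set u' : R := ⟨u, hAR u.2⟩ with hu'
  set v' : R := ⟨v, hAR v.2⟩ with hv'
  set L : AddSubgroup R := Submodule.toAddSubgroup (Ideal.span {u', v'}) with hL
  have hHL : I.map ι.toAddMonoidHom ≤ L := by
    rintro _ ⟨z, hz, rfl⟩
    obtain ⟨x1, x2, hx⟩ := Ideal.mem_span_pair.1 hz
    refine Ideal.mem_span_pair.2 ⟨ι x1, ι x2, ?_⟩
    rw [← hx]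
    change _ = ι (x1 * u + x2 * v)
    rw [map_add, map_mul, map_mul]
    rfl
  have h4 : (I.map ι.toAddMonoidHom).index = I.index * n :=
    AddSubgroup.index_map_of_injective (H := I) (f := ι.toAddMonoidHom) hιinj
  have hIne : I.index ≠ 0 := idx_ne_zero A u v (Or.inl hu)
  have hu'0 : u' ≠ 0 := by
    intro h
    apply hu
    have h1 : ((u' : R) : Ω) = 0 := by rw [h]; rfl
    exact Subtype.ext h1
  have hLne : L.index ≠ 0 := idx_ne_zero R u' v' (Or.inl hu'0)
  have hLle : L.index ≤ I.index * n := by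
    rw [← h4]
    exact Nat.le_of_dvd (Nat.pos_of_ne_zero (by rw [h4]; exact Nat.mul_ne_zero hIne hidx))
      (AddSubgroup.index_dvd_of_le hHL)
  have hA : OHt A u v = (∏ τ : A →+* ℂ, max ‖τ u‖ ‖τ v‖) / (I.index : ℝ) := rfl
  have hR : OHt R u' v' = (∏ τ : A →+* ℂ, max ‖τ u‖ ‖τ v‖) / (L.index : ℝ) := by
    rw [← hprod]
    rfl
  have hApos : 0 < OHt A u v := OHt_pos A u v (Or.inl hu)
  have hRpos : 0 < OHt R u' v' := OHt_pos R u' v' (Or.inl hu'0)
  have hIR : (0 : ℝ) < I.index := by exact_mod_cast Nat.pos_of_ne_zero hIne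
  have hLR : (0 : ℝ) < L.index := by exact_mod_cast Nat.pos_of_ne_zero hLne
  have hnR : (0 : ℝ) < n := by exact_mod_cast Nat.pos_of_ne_zero hidx
  have hPpos : 0 ≤ ∏ τ : A →+* ℂ, max ‖τ u‖ ‖τ v‖ :=
    Finset.prod_nonneg fun τ _ => le_max_of_le_left (norm_nonneg _)
  have hLleR : (L.index : ℝ) ≤ I.index * n := by exact_mod_cast hLle
  rw [← Real.log_mul hRpos.ne' hnR.ne']
  apply Real.log_le_log hApos
  rw [hA, hR, div_mul_eq_mul_div, div_le_div_iff₀ hIR hLR]
  nlinarith [mul_le_mul_of_nonneg_left hLleR hPpos]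

end Pool.Agent.H11.FR
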