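import Pool.Agent.H11.FR.Ordx
import Pool.Agent.H11.FR.Multi
import Pool.Agent.H11.FR.Oht
import Pool.Agent.H4.OG.Final

/-!
# Module Index (MP_187c26_nt, whole fields): fields with orders of small index

`K` a number field, `b_1, …, b_r ∈ 𝓞 K` pairwise coprime nonunits, nonzero. There is `κ > 0` such that
`h(α) ≥ κ` for all `α ∈ K(ξ, θ_1, …, θ_r)`, `α ∉ satG β`, if `ξ ^ n = 1`, `θ_i ^ μ_i = b_i`, `n`, the `μ_i b_i` are pairwise
coprime and `∑ i, log [𝓞_{K(θ_i)} : 𝓞 K [θ_i]] / μ_i ≤ κ`.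
-/

set_option autoImplicit false

open IntermediateField NumberField

namespace Pool.Agent.H11.FR

open Pool.Agent.H4.OH Pool.Agent.H4.OG

section

variable {K Ω : Type} [Field K] [NumberField K] [Field Ω] [CharZero Ω] [IsAlgClosed Ω]
    [Algebra K Ω] [Algebra.IsAlgebraic K Ω]

omit [NumberField K] [CharZero Ω] [IsAlgClosed Ω] [Algebra.IsAlgebraic K Ω] in
private lemma finite_sub (A' A : Subring Ω) (h : A' ≤ A) [Module.Finite ℤ A] :
    Module.Finite ℤ A' := by
  refine Module.Finite.of_injective (Subring.inclusion h).toAddMonoidHom.toIntLinearMap ?_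
  exact Subring.inclusion_injective h

omit [NumberField K] [CharZero Ω] [IsAlgClosed Ω] [Algebra K Ω] [Algebra.IsAlgebraic K Ω] in
private lemma finite_of_index [CharZero Ω] (A R : Subring Ω) [Module.Finite ℤ A]
    (hidx : A.toAddSubgroup.relIndex R.toAddSubgroup ≠ 0) :
    Module.Finite ℤ R ∧ ∀ z ∈ R,
      ((A.toAddSubgroup.relIndex R.toAddSubgroup : ℕ) : Ω) * z ∈ A := by
  set D := A.toAddSubgroup.relIndex R.toAddSubgroup with hD
  have hmul : ∀ z ∈ R, (D : Ω) * z ∈ A := by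
    intro z hz
    have h1 : D • (⟨z, hz⟩ : R.toAddSubgroup) ∈ A.toAddSubgroup.addSubgroupOf R.toAddSubgroup :=
      AddSubgroup.nsmul_index_mem _ _
    have h2 : D • z ∈ A := h1
    rwa [nsmul_eq_mul] at h2
  refine ⟨?_, hmul⟩
  let f : R →+ A :=
    { toFun := fun z => ⟨(D : Ω) * z, hmul z z.2⟩
      map_zero' := by apply Subtype.ext; simp
      map_add' := fun u v => by apply Subtype.ext; simp [mul_add] }
  refine Module.Finite.of_injective f.toIntLinearMap (fun u v huv => ?_)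
  apply Subtype.ext
  have h1 : (D : Ω) * (u : Ω) = (D : Ω) * (v : Ω) := congrArg (fun y : A => (y : Ω)) huv
  exact mul_left_cancel₀ (by exact_mod_cast hidx) h1

end

theorem main_index (K Ω : Type) [Field K] [NumberField K] [Field Ω] [CharZero Ω] [IsAlgClosed Ω]
    [Algebra K Ω] [Algebra.IsAlgebraic K Ω] (r : ℕ) (b : Fin r → 𝓞 K)
    (hbu : ∀ i, ¬ IsUnit (b i)) (hcop : ∀ i j, i ≠ j → IsCoprime (b i) (b j))
    (β : Fin r → Ωˣ) (hβ : ∀ i, (β i : Ω) = algebraMap K Ω (b i : K)) :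
    ∃ κ : ℝ, 0 < κ ∧ ∀ (n : ℕ) (μ : Fin r → ℕ) (ξ : Ω) (θ : Fin r → Ω), 1 ≤ n →
      (∀ i, 1 ≤ μ i) → (∀ i, IsCoprime (n : 𝓞 K) ((μ i : 𝓞 K) * b i)) →
      (∀ i j, i ≠ j → IsCoprime ((μ i : 𝓞 K) * b i) ((μ j : 𝓞 K) * b j)) → ξ ^ n = 1 →
      (∀ i, θ i ^ μ i = algebraMap (𝓞 K) Ω (b i)) →
      ∑ i, Real.log (ordIdx K (θ i) : ℕ) / μ i ≤ κ →
      ∀ α : Ωˣ, (α : Ω) ∈ IntermediateField.adjoin K ({ξ} ∪ Set.range θ) → α ∉ satG β →
        κ ≤ absLogHeight₁ (α : Ω) := by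
  classical
  have hβK : ∀ i, (β i : Ω) ∈ Set.range (algebraMap K Ω) := fun i => ⟨_, (hβ i).symm⟩
  have hb0 : ∀ i, b i ≠ 0 := by
    intro i h
    have h1 := hβ i
    rw [h] at h1
    simp at h1
  obtain ⟨k₀, hk₀, hidx⟩ := kidx K Ω β hβK
  obtain ⟨κ₀, hκ₀, hht⟩ := baseHt K Ω β hβK k₀ hk₀ hidx
  obtain ⟨C, c', hC, hc', hbd⟩ := boundsB K Ω b hb0 hbu
  have hη : 0 < Real.log (5 / 4) / (2 + 2 * (C / c')) := by
    have := Pool.Agent.H4.OH.log_five_four_pos
    positivity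
  obtain ⟨k, κs, hκ0, hκ⟩ := constSeq κ₀ _ C c' hκ₀ hη hc' k₀ hk₀
  have hk1 : ∀ j, 1 ≤ k j := by
    intro j
    obtain ⟨e, he⟩ := (hκ j).2.1
    rw [he]
    exact Nat.mul_pos hk₀ (pow_pos (by norm_num) e)
  set Kmax : ℕ := (∑ i : Fin r, k i) + 1 with hKmax
  have hkK : ∀ i : Fin r, k i ≤ Kmax := by
    intro i
    have := Finset.single_le_sum (f := fun i : Fin r => k i) (fun i _ => Nat.zero_le _)
      (Finset.mem_univ i)
    omega
  have hKpos : (0 : ℝ) < Kmax := by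
    rw [hKmax]
    push_cast
    positivity
  have hK1 : (1 : ℝ) ≤ Kmax := by
    rw [hKmax]
    push_cast
    have : (0 : ℝ) ≤ ∑ i : Fin r, (k i : ℝ) := Finset.sum_nonneg fun i _ => Nat.cast_nonneg _
    linarith
  have hκr : 0 < κs r := (hκ r).1
  refine ⟨κs r / (2 * Kmax), by positivity, ?_⟩
  intro n μ ξ θ hn hμ hnb hcopμ hξ hθ hsum α hα hαS
  -- the level
  set m : ℕ := ∏ i, μ i with hm
  have hm1 : 1 ≤ m := Nat.succ_le_of_lt (Finset.prod_pos fun i _ => by have := hμ i; omega)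
  have hdvd : ∀ i, μ i ∣ m := fun i => Finset.dvd_prod_of_mem μ (Finset.mem_univ i)
  have hsex : ∀ i : Fin r, ∃ s : ℕ, 1 ≤ s ∧ s * μ i = k i * m := by
    intro i
    obtain ⟨q, hq⟩ := hdvd i
    refine ⟨k i * q, Nat.mul_pos (hk1 i) (Nat.pos_of_ne_zero ?_), by rw [hq]; ring⟩
    rintro rfl
    rw [mul_zero] at hq
    omega
  choose s hs1 hsk using hsex
  have hθ0 : ∀ i, θ i ≠ 0 := by
    intro i h
    have h1 := hθ i
    rw [h, zero_pow (by have := hμ i; omega)] at h1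
    apply hb0 i
    have h2 : algebraMap (𝓞 K) Ω (b i) = algebraMap (𝓞 K) Ω 0 := by rw [← h1, map_zero]
    have hinj : Function.Injective (algebraMap (𝓞 K) Ω) := by
      rw [IsScalarTower.algebraMap_eq (𝓞 K) K Ω]
      exact (algebraMap K Ω).injective.comp RingOfIntegers.coe_injective
    exact hinj h2
  have hxex : ∀ i : Fin r, ∃ x : Ωˣ, (x : Ω) ^ s i = θ i := by
    intro i
    obtain ⟨z, hz⟩ := IsAlgClosed.exists_pow_nat_eq (θ i) (hs1 i)
    have hz0 : z ≠ 0 := by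
      rintro rfl
      rw [zero_pow (by have := hs1 i; omega)] at hz
      exact hθ0 i hz.symm
    exact ⟨Units.mk0 z hz0, hz⟩
  choose x hx using hxex
  set y : Fin r → Ωˣ := fun i => x i ^ m with hy
  have hxy : ∀ i, x i ^ m = y i := fun i => rfl
  have hyk : ∀ i : Fin r, y i ^ k i = β i := by
    intro i
    apply Units.ext
    rw [hy]
    simp only
    rw [← pow_mul, mul_comm m, ← hsk i, pow_mul, Units.val_pow_eq_pow_val,
      Units.val_pow_eq_pow_val, hx, hθ, hβ]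
    rfl
  have hfin : IsOfFinOrder ξ := isOfFinOrder_iff_pow_eq_one.2 ⟨n, by omega, hξ⟩
  set N := orderOf ξ with hN
  have hN1 : 1 ≤ N := hfin.orderOf_pos
  have hprim : IsPrimitiveRoot ξ N := IsPrimitiveRoot.orderOf ξ
  have hBT := towerB K Ω r b hbu hcop β hβ k₀ hk₀ hidx C c' hC hc' hbd κ₀ hht k κs hκ0 hκ y hyk
    N m hN1 hm1 ξ hprim x hxy r le_rfl
  have hT : (Finset.univ.filter fun i : Fin r => (i : ℕ) < r) = Finset.univ := by
    ext i
    simp
  rw [hT] at hBT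
  obtain ⟨hfinA, hB⟩ := hBT
  set A := ordB K ξ y x Finset.univ with hA
  -- elements of `A`
  have hbaseA : intOf (baseF K ξ y) ≤ A := by
    rw [hA]
    exact le_sup_left
  have hKA : ∀ z : 𝓞 K, algebraMap (𝓞 K) Ω z ∈ A := by
    intro z
    refine hbaseA ((mem_intOf _ _).2 ⟨?_, isIntegral_algebraMap_int z⟩)
    rw [IsScalarTower.algebraMap_apply (𝓞 K) K Ω]
    exact IntermediateField.algebraMap_mem _ _
  have hxA : ∀ i, (x i : Ω) ∈ A := by
    intro i
    rw [hA]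
    unfold ordB
    exact (le_sup_right : _ ≤ intOf (baseF K ξ y) ⊔ _)
      (Subring.subset_closure ⟨i, Finset.mem_univ i, rfl⟩)
  have hθA : ∀ i, θ i ∈ A := by
    intro i
    rw [← hx i]
    exact A.pow_mem (hxA i) _
  have hyint : ∀ i, IsIntegral ℤ (y i : Ω) := by
    intro i
    refine IsIntegral.of_pow (n := k i) (hk1 i) ?_
    rw [← Units.val_pow_eq_pow_val, hyk i, hβ]
    exact (RingOfIntegers.isIntegral_coe (b i)).map (algebraMap K Ω).toIntAlgHom
  let B : Fin r → Subring Ω := fun i => ordOf K (θ i)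
  let O : Fin r → Subring Ω := fun i => intOf K⟮θ i⟯
  have hBO : ∀ i, B i ≤ O i := fun i => ordOf_le_intOf (hμ i) (hθ i)
  have hBA : ∀ i, B i ≤ A := fun i => ordOf_le (θ i) A hKA (hθA i)
  have hBidx : ∀ i, (B i).toAddSubgroup.relIndex (O i).toAddSubgroup ≠ 0 := fun i =>
    ordIdx_ne_zero (hμ i) (hb0 i) (hθ i)
  -- the single indices
  have hind0 := indepB K Ω b hbu hcop β hβ
  have hsingle : ∀ i, A.toAddSubgroup.relIndex (A ⊔ O i).toAddSubgroup ≠ 0 ∧
      Real.log (A.toAddSubgroup.relIndex (A ⊔ O i).toAddSubgroup : ℕ) ≤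
        (k i : ℝ) * Fintype.card (A →+* ℂ) * (Real.log (ordIdx K (θ i) : ℕ) / μ i) := by
    intro j
    set T : Finset (Fin r) := Finset.univ.erase j with hTdef
    have hjT : j ∉ T := Finset.notMem_erase j _
    have hins : insert j T = Finset.univ := Finset.insert_erase (Finset.mem_univ j)
    set A' := ordB K ξ y x T with hA'
    have hAA' : A = A' ⊔ Subring.closure {(x j : Ω)} := by
      rw [hA, ← hins, ordB_insert]
    have hA'A : A' ≤ A := by rw [hAA']; exact le_sup_left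
    haveI : Module.Finite ℤ A' := finite_sub A' A hA'A
    set kT : Fin r → ℕ := fun i => if i ∈ T then k i * m else k i with hkT
    have hkT1 : ∀ i, 1 ≤ kT i := by
      intro i
      simp only [hkT]
      split_ifs
      · exact Nat.mul_pos (hk1 i) hm1
      · exact hk1 i
    have hkTd : ∀ i, k₀ ∣ kT i := by
      intro i
      obtain ⟨e, he⟩ := (hκ i).2.1
      have h1 : k₀ ∣ k i := ⟨2 ^ e, he⟩
      simp only [hkT]
      split_ifs
      · exact Dvd.dvd.mul_right h1 m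
      · exact h1
    have hzT : ∀ i, zT y x T i ^ kT i = β i := by
      intro i
      simp only [hkT, zT]
      split_ifs with h
      · rw [mul_comm, pow_mul, hxy, hyk]
      · exact hyk i
    have hzTj : zT y x T j = y j := by
      unfold zT
      rw [if_neg hjT]
    have hyA' : (y j : Ω) ∈ A' := by
      rw [← hzTj]
      exact zT_mem_ordB ξ y x T hyint j
    have hlin : ∀ cc : Fin m → A', ∑ i, (cc i : Ω) * (x j : Ω) ^ (i : ℕ) = 0 → ∀ i, cc i = 0 := by
      intro cc h0 i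
      have h1 := indB K Ω β hβK hind0 k₀ hk₀ hidx kT hkT1 hkTd (zT y x T) hzT m hm1 j (x j)
        (by rw [hzTj]) (fun i => (cc i : Ω))
        (fun i => ordB_le_cycZ ξ N hN1 hprim.pow_eq_one y x T m hxy (cc i : Ω) (cc i).2) h0 i
      exact Subtype.ext h1
    exact log_relIndex_sup_le A' A (x j) m hm1 hAA' ⟨(y j : Ω), hyA'⟩
      (by rw [← Units.val_pow_eq_pow_val, hxy]) hlin (s j) (k j) (μ j) (hs1 j) (hμ j) (hsk j)
      (B j) (O j) (hBO j) (hBA j) (by rw [hx]; exact self_mem_ordOf (θ j)) (hBidx j)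
  -- the total index
  let fA : 𝓞 K →+* A := (algebraMap (𝓞 K) Ω).codRestrict A hKA
  let d : Fin r → A := fun i => fA ((μ i : 𝓞 K) * b i)
  have hdcop : ∀ i j, i ≠ j → IsCoprime (d i) (d j) := fun i j hij => (hcopμ i j hij).map fA
  have hdO : ∀ i, ∀ w ∈ O i, (d i : Ω) * w ∈ A := fun i w hw =>
    hBA i (ordOf_kill (hμ i) (hθ i) w hw)
  obtain ⟨hR0, -, hRlog⟩ := multi A O d hdcop hdO (fun i => (hsingle i).1) Finset.univ
  set R : Subring Ω := A ⊔ Finset.univ.sup O with hR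
  have hAR : A ≤ R := le_sup_left
  obtain ⟨hfinR, hDR⟩ := finite_of_index A R hR0
  set D := A.toAddSubgroup.relIndex R.toAddSubgroup with hD
  have hD0 : (D : Ω) ≠ 0 := by exact_mod_cast hR0
  -- the integers of `F` lie in `R`
  set F : IntermediateField K Ω := IntermediateField.adjoin K ({ξ} ∪ Set.range θ) with hF
  have hξint : IsIntegral ℤ ξ := by
    refine IsIntegral.of_pow (by omega : 0 < n) ?_
    rw [hξ]
    exact isIntegral_one
  have hξbase : ξ ∈ baseF K ξ y := zeta_mem_baseF ξ y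
  have hξR : ∀ z ∈ K⟮ξ⟯, IsIntegral ℤ z → z ∈ R := by
    intro z hz hzi
    refine hAR (hbaseA ((mem_intOf _ _).2 ⟨?_, hzi⟩))
    exact (IntermediateField.adjoin_simple_le_iff.2 hξbase) hz
  let Y : Option (Fin r) → Ω := fun o => o.elim ξ θ
  let e : Option (Fin r) → ℕ := fun o => o.elim n μ
  let a : Option (Fin r) → 𝓞 K := fun o => o.elim 1 b
  have hall := comp (K := K) R (fun z => hAR (hKA z)) Y (by
    rintro (_ | i)
    · exact hξR ξ (IntermediateField.mem_adjoin_simple_self K ξ) hξint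
    · exact hAR (hθA i)) e (by
    rintro (_ | i)
    · exact hn
    · exact hμ i) a (by
    rintro (_ | i)
    · change ξ ^ n = algebraMap (𝓞 K) Ω 1
      rw [hξ, map_one]
    · exact hθ i) (by
    rintro (_ | i) (_ | j) hij
    · exact absurd rfl hij
    · change IsCoprime ((n : 𝓞 K) * 1) ((μ j : 𝓞 K) * b j)
      rw [mul_one]
      exact hnb j
    · change IsCoprime ((μ i : 𝓞 K) * b i) ((n : 𝓞 K) * 1)
      rw [mul_one]
      exact (hnb i).symm
    · exact hcopμ i j (fun h => hij (by rw [h]))) (by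
    rintro (_ | i) z hz hzi
    · exact hξR z hz hzi
    · have h1 : O i ≤ R := (Finset.le_sup (f := O) (Finset.mem_univ i)).trans le_sup_right
      exact h1 ((mem_intOf _ _).2 ⟨hz, hzi⟩))
  have hset : ({ξ} ∪ Set.range θ : Set Ω) =
      {w | ∃ o ∈ (Finset.univ : Finset (Option (Fin r))), w = Y o} := by
    ext w
    constructor
    · rintro (hw | ⟨i, rfl⟩)
      · rw [Set.mem_singleton_iff] at hw
        exact ⟨none, Finset.mem_univ _, hw⟩
      · exact ⟨some i, Finset.mem_univ _, rfl⟩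
    · rintro ⟨(_ | i), -, rfl⟩
      · exact Or.inl rfl
      · exact Or.inr ⟨i, rfl⟩
  have hFR : ∀ z ∈ F, IsIntegral ℤ z → z ∈ R := by
    intro z hz hzi
    rw [hF, hset] at hz
    exact hall _ Finset.univ rfl z hz hzi
  haveI : Finite ({ξ} ∪ Set.range θ : Set Ω) :=
    ((Set.finite_singleton ξ).union (Set.finite_range θ)).to_subtype
  haveI : FiniteDimensional K F := IntermediateField.finiteDimensional_adjoin
    fun w _ => Algebra.IsIntegral.isIntegral w
  have hα0 : (α : Ω) ≠ 0 := α.ne_zero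
  obtain ⟨t, htR, htα, htα'⟩ := regular R F hFR α hα hα0
  -- the pair
  obtain ⟨u, v, cR, aR, bR, hu0, hv0, hvu, e1, e2⟩ : ∃ (u v : A) (cR aR bR : R), u ≠ 0 ∧ v ≠ 0 ∧
      (v : Ω) = (α : Ω) * (u : Ω) ∧ (cR : Ω) * (v : Ω) = (aR : Ω) * (u : Ω) ∧
      (1 - (cR : Ω)) * (u : Ω) = (bR : Ω) * (v : Ω) := by
    by_cases ht0 : t = 0
    · rw [ht0, sub_zero, one_mul] at htα'
      refine ⟨⟨(D : Ω) * (α : Ω)⁻¹, hDR _ htα'⟩, ⟨(D : Ω), natCast_mem A D⟩, 0, 0,
        ⟨(α : Ω)⁻¹, htα'⟩, ?_, ?_, ?_, ?_, ?_⟩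
      · intro h
        have h1 : (D : Ω) * (α : Ω)⁻¹ = 0 := congrArg (fun y : A => (y : Ω)) h
        exact (mul_ne_zero hD0 (inv_ne_zero hα0)) h1
      · intro h
        have h1 : (D : Ω) = 0 := congrArg (fun y : A => (y : Ω)) h
        exact hD0 h1
      · change (D : Ω) = (α : Ω) * ((D : Ω) * (α : Ω)⁻¹)
        field_simp
      · simp
      · change (1 - ((0 : R) : Ω)) * ((D : Ω) * (α : Ω)⁻¹) = (α : Ω)⁻¹ * (D : Ω)
        rw [Subring.coe_zero, sub_zero, one_mul, mul_comm]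
    · refine ⟨⟨(D : Ω) * t, hDR _ htR⟩, ⟨(D : Ω) * (t * α), hDR _ htα⟩, ⟨t, htR⟩, ⟨t * α, htα⟩,
        ⟨(1 - t) * (α : Ω)⁻¹, htα'⟩, ?_, ?_, ?_, ?_, ?_⟩
      · intro h
        have h1 : (D : Ω) * t = 0 := congrArg (fun y : A => (y : Ω)) h
        exact (mul_ne_zero hD0 ht0) h1
      · intro h
        have h1 : (D : Ω) * (t * α) = 0 := congrArg (fun y : A => (y : Ω)) h
        exact (mul_ne_zero hD0 (mul_ne_zero ht0 hα0)) h1
      · change (D : Ω) * (t * α) = (α : Ω) * ((D : Ω) * t)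
        ring
      · change t * ((D : Ω) * (t * α)) = (t * α) * ((D : Ω) * t)
        ring
      · change (1 - t) * ((D : Ω) * t) = ((1 - t) * (α : Ω)⁻¹) * ((D : Ω) * (t * α))
        field_simp
  -- the lower bound in `A`
  have hβS : ∀ i, β i ∈ satG β := by
    intro i
    refine ⟨1, le_rfl, Pi.single i 1, ?_⟩
    rw [pow_one, Finset.prod_eq_single i]
    · simp
    · intro j _ hj
      rw [Pi.single_eq_of_ne hj, zpow_zero]
    · intro h
      exact absurd (Finset.mem_univ i) h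
  have hroot : ∀ (z : Ωˣ) (n : ℕ), 1 ≤ n → z ^ n ∈ satG β → z ∈ satG β := by
    rintro z n hn ⟨n', hn', e, he⟩
    exact ⟨n * n', Nat.mul_pos hn hn', e, by rw [pow_mul, he]⟩
  have hGle : grpT K ξ y x Finset.univ ≤ satG β := by
    unfold grpT
    refine sup_le ?_ (iSup_le fun i => ?_)
    · rintro ξ ⟨-, n, hn, hξ⟩
      exact hroot ξ n hn (by rw [hξ]; exact Subgroup.one_mem _)
    · rw [Subgroup.zpowers_le]
      have h3 : zT y x (Finset.univ : Finset (Fin r)) i = x i := by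
        unfold zT
        rw [if_pos (Finset.mem_univ i)]
      rw [h3]
      apply hroot _ (m * k i) (Nat.mul_pos hm1 (hk1 i))
      rw [pow_mul, hxy, hyk]
      exact hβS i
  have hu0Ω : (u : Ω) ≠ 0 := fun h => hu0 (Subtype.ext h)
  have h3 := hB u v hu0 hv0 (by
    intro g hg hug
    have hg' := hGle hg
    apply hαS
    have h5 : (α : Ω) = ((g⁻¹ : Ωˣ) : Ω) := by
      rw [Units.val_inv_eq_inv_val]
      rw [hvu] at hug
      have h6 : (1 : Ω) = (g : Ω) * (α : Ω) := by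
        have h7 : (u : Ω) * 1 = (u : Ω) * ((g : Ω) * (α : Ω)) := by
          rw [mul_one]
          linear_combination hug
        exact mul_left_cancel₀ hu0Ω h7
      have h7 : (g : Ω) ≠ 0 := g.ne_zero
      field_simp
      rw [mul_comm]
      exact h6.symm
    have h8 : α = g⁻¹ := Units.ext h5
    rw [h8]
    exact Subgroup.inv_mem _ hg')
  obtain ⟨hcard, h4⟩ := log_OHt_le A R hAR hR0 u v hu0
  have hu'0 : (⟨(u : Ω), hAR u.2⟩ : R) ≠ 0 := fun h =>
    hu0Ω (congrArg (fun y : R => (y : Ω)) h)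
  have hv'0 : (⟨(v : Ω), hAR v.2⟩ : R) ≠ 0 := fun h =>
    hv0 (Subtype.ext (congrArg (fun y : R => (y : Ω)) h))
  have h5 := log_OHt_regular R hfinR ⟨(u : Ω), hAR u.2⟩ ⟨(v : Ω), hAR v.2⟩ cR aR bR hu'0 hv'0
    (Subtype.ext e1) (Subtype.ext (by
      change (1 - (cR : Ω)) * (u : Ω) = (bR : Ω) * (v : Ω)
      exact e2))
  have h6 : (v : Ω) / (u : Ω) = (α : Ω) := by
    rw [hvu, mul_div_assoc, div_self hu0Ω, mul_one]
  rw [h5] at h4
  change _ ≤ _ * absLogHeight₁ ((v : Ω) / (u : Ω)) + _ at h4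
  rw [h6, ← hcard] at h4
  set M : ℝ := (Fintype.card (A →+* ℂ) : ℝ) with hM
  have hMpos : 0 < M := by
    rw [hM]
    exact_mod_cast card_hom_pos A
  have h7 : Real.log (D : ℕ) ≤ M * (κs r / 2) := by
    have h8 : ∀ i, 0 ≤ Real.log (ordIdx K (θ i) : ℕ) / μ i := fun i =>
      div_nonneg (Real.log_natCast_nonneg _) (Nat.cast_nonneg _)
    calc Real.log (D : ℕ) ≤ ∑ i, Real.log (A.toAddSubgroup.relIndex (A ⊔ O i).toAddSubgroup : ℕ) :=
          hRlog
      _ ≤ ∑ i : Fin r, M * Kmax * (Real.log (ordIdx K (θ i) : ℕ) / μ i) := by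
          refine Finset.sum_le_sum fun i _ => (hsingle i).2.trans ?_
          refine mul_le_mul_of_nonneg_right ?_ (h8 i)
          rw [mul_comm]
          refine mul_le_mul_of_nonneg_left ?_ hMpos.le
          exact_mod_cast hkK i
      _ = M * Kmax * ∑ i : Fin r, (Real.log (ordIdx K (θ i) : ℕ) / μ i) := by
          rw [Finset.mul_sum]
      _ ≤ M * Kmax * (κs r / (2 * Kmax)) :=
          mul_le_mul_of_nonneg_left hsum (by positivity)
      _ = M * (κs r / 2) := by field_simp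
  have h9 : κs r / 2 ≤ absLogHeight₁ (α : Ω) := by
    have h10 : M * (κs r / 2) ≤ M * absLogHeight₁ (α : Ω) := by
      have h11 : κs r * M ≤ M * absLogHeight₁ (α : Ω) + Real.log (D : ℕ) := h3.trans h4
      linarith
    exact le_of_mul_le_mul_left h10 hMpos
  refine le_trans ?_ h9
  rw [div_le_div_iff₀ (by positivity) (by norm_num)]
  nlinarith

end Pool.Agent.H11.FR
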