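import Mathlib

/-!
# Module Deriv (MP_187c26_nt, whole fields): `g'(x) z ∈ A[x]` for integral `z`

Let `A` be integrally closed with fraction field `K`, `L = K(x)` finite separable, `x` a root of the monic
polynomial `g` over `A`. Then `g'(x) z ∈ A[x]` for every `z ∈ L` integral over `A`: `z` lies in the dual of
`A[x]` for the trace form, which is `f'(x)⁻¹ A[x]`, `f` the minimal polynomial, and `g = f h`.
For `x ^ m = a` this gives `m a z ∈ A[x]`.
-/

set_option autoImplicit false

open Polynomial Algebra

namespace Pool.Agent.H11.FR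

section

variable {A K L : Type} [CommRing A] [IsDomain A] [IsIntegrallyClosed A] [Field K] [Algebra A K]
  [IsFractionRing A K] [Field L] [Algebra K L] [Algebra A L] [IsScalarTower A K L]
  [FiniteDimensional K L] [Algebra.IsSeparable K L]

theorem deriv_mul_mem {x : L} (hx : Algebra.adjoin K {x} = ⊤) (g : A[X]) (hg : g.Monic)
    (hgx : aeval x g = 0) (z : L) (hz : IsIntegral A z) :
    aeval x (derivative g) * z ∈ Algebra.adjoin A ({x} : Set L) := by
  have hAx : IsIntegral A x := ⟨g, hg, hgx⟩
  have hmin : minpoly K x = (minpoly A x).map (algebraMap A K) :=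
    minpoly.isIntegrallyClosed_eq_field_fractions' K hAx
  -- `z` lies in the dual
  have hdual : z ∈ (Algebra.traceForm K L).dualSubmodule
      (Subalgebra.toSubmodule (Algebra.adjoin A {x})) := by
    rw [LinearMap.BilinForm.mem_dualSubmodule]
    intro y hy
    have hy' : IsIntegral A y := by
      have := adjoin_le_integralClosure hAx hy
      exact this
    rw [Algebra.traceForm_apply, Submodule.mem_one]
    have htr : IsIntegral A (Algebra.trace K L (z * y)) := Algebra.isIntegral_trace (hz.mul hy')
    exact IsIntegrallyClosed.isIntegral_iff.1 htr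
  rw [traceForm_dualSubmodule_adjoin A K hx hAx] at hdual
  have hne : (aeval x (derivative (minpoly K x)) : L) ≠ 0 :=
    (Algebra.IsSeparable.isSeparable K x).aeval_derivative_ne_zero (minpoly.aeval _ _)
  rw [Submodule.mem_smul_iff_inv_mul_mem (inv_ne_zero hne), inv_inv] at hdual
  have hdual' : aeval x (derivative (minpoly A x)) * z ∈ Algebra.adjoin A ({x} : Set L) := by
    have h1 : (aeval x (derivative (minpoly K x)) : L) = aeval x (derivative (minpoly A x)) := by
      rw [hmin, derivative_map, aeval_map_algebraMap]
    rw [h1] at hdual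
    exact hdual
  have htf : Module.IsTorsionFree A L := by
    have h1 : Function.Injective (algebraMap A L) := by
      rw [IsScalarTower.algebraMap_eq A K L]
      exact (algebraMap K L).injective.comp (IsFractionRing.injective A K)
    have : FaithfulSMul A L := (faithfulSMul_iff_algebraMap_injective A L).2 h1
    infer_instance
  obtain ⟨h, hh⟩ := minpoly.isIntegrallyClosed_dvd hAx hgx
  have h2 : aeval x (derivative g) = aeval x (derivative (minpoly A x)) * aeval x h := by
    rw [hh, derivative_mul, map_add, map_mul, map_mul, minpoly.aeval, zero_mul, add_zero]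
  rw [h2, mul_assoc, mul_comm (aeval x h), ← mul_assoc]
  exact Subalgebra.mul_mem _ hdual' (aeval_mem_adjoin_singleton A x)

/-- For `x ^ m = a`, `m ≥ 1`: `m a z ∈ A[x]` for every integral `z` of `K(x)`. -/
theorem rad_mul_mem {x : L} (hx : Algebra.adjoin K {x} = ⊤) (m : ℕ) (hm : 1 ≤ m) (a : A)
    (hxa : x ^ m = algebraMap A L a) (z : L) (hz : IsIntegral A z) :
    (m : L) * algebraMap A L a * z ∈ Algebra.adjoin A ({x} : Set L) := by
  have h := deriv_mul_mem hx (X ^ m - C a) (monic_X_pow_sub_C a (by omega)) (by
    simp [hxa]) z hz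
  have h1 : aeval x (derivative (X ^ m - C a : A[X])) = (m : L) * x ^ (m - 1) := by
    rw [derivative_sub, derivative_C, sub_zero, derivative_X_pow, map_mul, aeval_C, map_natCast,
      map_pow, aeval_X]
  rw [h1] at h
  have h2 := Subalgebra.mul_mem _ (Algebra.self_mem_adjoin_singleton A x) h
  have h3 : x * ((m : L) * x ^ (m - 1) * z) = (m : L) * algebraMap A L a * z := by
    rw [← hxa]
    conv_rhs => rw [← Nat.sub_add_cancel hm, pow_succ]
    push_cast [Nat.sub_add_cancel hm]
    ring
  rwa [h3] at h2

end

end Pool.Agent.H11.FR
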