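import Pool.Agent.H4.OH.Regular
import Pool.Agent.H4.OH.SubStep

/-!
# Module Gen (MP_187c26_nt, whole fields): the index of a compositum of orders

Let `A = A'[x]` be an order, `x ^ m ∈ A'`, `1, x, …, x ^ (m - 1)` independent over `A'`, and let `B ≤ A`, `B ≤ O` be
subrings, `x ^ s ∈ B`, `s μ = k m`. `A` is generated as a `B`-module by `s · rank A'` elements, hence
`[A O : A] ≤ [O : B] ^ (s · rank A')` and `log [A O : A] ≤ (k / μ) rank A · log [O : B]`.
-/

set_option autoImplicit false

namespace Pool.Agent.H11.FR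

open Pool.Agent.H4.OH

/-- Elements of a compositum are sums of products. -/
theorem mem_sup_closure {Ω : Type} [Field Ω] (A O : Subring Ω) (z : Ω) (hz : z ∈ A ⊔ O) :
    z ∈ AddSubgroup.closure {t : Ω | ∃ a ∈ A, ∃ w ∈ O, t = a * w} := by
  set G : Set Ω := {t : Ω | ∃ a ∈ A, ∃ w ∈ O, t = a * w} with hG
  let T : Subring Ω :=
    { AddSubgroup.closure G with
      mul_mem' := by
        intro p q hp hq
        change p * q ∈ AddSubgroup.closure G
        change p ∈ AddSubgroup.closure G at hp
        change q ∈ AddSubgroup.closure G at hq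
        induction hp using AddSubgroup.closure_induction with
        | mem p hp =>
          induction hq using AddSubgroup.closure_induction with
          | mem q hq =>
            obtain ⟨a, ha, w, hw, rfl⟩ := hp
            obtain ⟨a', ha', w', hw', rfl⟩ := hq
            exact AddSubgroup.subset_closure ⟨a * a', A.mul_mem ha ha', w * w', O.mul_mem hw hw',
              by ring⟩
          | zero => rw [mul_zero]; exact AddSubgroup.zero_mem _
          | add u v _ _ hu hv => rw [mul_add]; exact AddSubgroup.add_mem _ hu hv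
          | neg u _ hu => rw [mul_neg]; exact AddSubgroup.neg_mem _ hu
        | zero => rw [zero_mul]; exact AddSubgroup.zero_mem _
        | add u v _ _ hu hv => rw [add_mul]; exact AddSubgroup.add_mem _ hu hv
        | neg u _ hu => rw [neg_mul]; exact AddSubgroup.neg_mem _ hu
      one_mem' := AddSubgroup.subset_closure ⟨1, A.one_mem, 1, O.one_mem, by ring⟩ }
  have hle : A ⊔ O ≤ T := by
    refine sup_le (fun a ha => ?_) (fun w hw => ?_)
    · exact AddSubgroup.subset_closure ⟨a, ha, 1, O.one_mem, by ring⟩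
    · exact AddSubgroup.subset_closure ⟨1, A.one_mem, w, hw, by ring⟩
  exact hle hz

/-- Elements of `A[x]` are sums of products `a * x ^ n`. -/
theorem mem_adjoin_closure {Ω : Type} [Field Ω] (A : Subring Ω) (x : Ω) (z : Ω)
    (hz : z ∈ A ⊔ Subring.closure {x}) :
    z ∈ AddSubgroup.closure {t : Ω | ∃ a ∈ A, ∃ n : ℕ, t = a * x ^ n} := by
  set G : Set Ω := {t : Ω | ∃ a ∈ A, ∃ n : ℕ, t = a * x ^ n} with hG
  let T : Subring Ω :=
    { AddSubgroup.closure G with
      mul_mem' := by
        intro p q hp hq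
        change p * q ∈ AddSubgroup.closure G
        change p ∈ AddSubgroup.closure G at hp
        change q ∈ AddSubgroup.closure G at hq
        induction hp using AddSubgroup.closure_induction with
        | mem p hp =>
          induction hq using AddSubgroup.closure_induction with
          | mem q hq =>
            obtain ⟨a, ha, w, rfl⟩ := hp
            obtain ⟨a', ha', w', rfl⟩ := hq
            exact AddSubgroup.subset_closure ⟨a * a', A.mul_mem ha ha', w + w', by ring⟩
          | zero => rw [mul_zero]; exact AddSubgroup.zero_mem _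
          | add u v _ _ hu hv => rw [mul_add]; exact AddSubgroup.add_mem _ hu hv
          | neg u _ hu => rw [mul_neg]; exact AddSubgroup.neg_mem _ hu
        | zero => rw [zero_mul]; exact AddSubgroup.zero_mem _
        | add u v _ _ hu hv => rw [add_mul]; exact AddSubgroup.add_mem _ hu hv
        | neg u _ hu => rw [neg_mul]; exact AddSubgroup.neg_mem _ hu
      one_mem' := AddSubgroup.subset_closure ⟨1, A.one_mem, 0, by ring⟩ }
  have hle : A ⊔ Subring.closure {x} ≤ T := by
    refine sup_le (fun a ha => ?_) ?_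
    · exact AddSubgroup.subset_closure ⟨a, ha, 0, by ring⟩
    · rw [Subring.closure_le, Set.singleton_subset_iff]
      exact AddSubgroup.subset_closure ⟨1, A.one_mem, 1, by ring⟩
  exact hle hz

/-- `[A O : A] ≤ [O : B] ^ (s · rank A')`. -/
theorem relIndex_sup_le {Ω : Type} [Field Ω] [CharZero Ω] (A' A : Subring Ω) (x : Ω) (s : ℕ)
    (hs : 1 ≤ s) (hA : A = A' ⊔ Subring.closure {x}) [Module.Finite ℤ A'] (B O : Subring Ω)
    (hBO : B ≤ O) (hBA : B ≤ A) (hθ : x ^ s ∈ B)
    (hidx : B.toAddSubgroup.relIndex O.toAddSubgroup ≠ 0) :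
    A.toAddSubgroup.relIndex (A ⊔ O).toAddSubgroup ≠ 0 ∧
    A.toAddSubgroup.relIndex (A ⊔ O).toAddSubgroup ≤
      B.toAddSubgroup.relIndex O.toAddSubgroup ^ (s * Module.finrank ℤ A') := by
  classical
  have hfree : Module.Free ℤ A' := inferInstance
  set I := Module.Free.ChooseBasisIndex ℤ A' with hI
  let ω : Module.Basis I ℤ A' := Module.Free.chooseBasis ℤ A'
  have hcard : Fintype.card (Fin s × I) = s * Module.finrank ℤ A' := by
    rw [Fintype.card_prod, Fintype.card_fin, Module.finrank_eq_card_chooseBasisIndex]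
  have hxA : x ∈ A := by
    rw [hA]
    exact (le_sup_right : Subring.closure {x} ≤ A' ⊔ Subring.closure {x})
      (Subring.subset_closure rfl)
  have hωA : ∀ l, ((ω l : A') : Ω) ∈ A := by
    intro l
    rw [hA]
    exact (le_sup_left : A' ≤ A' ⊔ Subring.closure {x}) (ω l).2
  let φ : (Fin s × I → O.toAddSubgroup) →+ Ω :=
    { toFun := fun w => ∑ t : Fin s × I, (w t : Ω) * ((ω t.2 : A') : Ω) * x ^ (t.1 : ℕ)
      map_zero' := by simp
      map_add' := fun v w => by
        rw [← Finset.sum_add_distrib]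
        refine Finset.sum_congr rfl fun t _ => ?_
        simp only [Pi.add_apply, AddSubgroup.coe_add]
        ring }
  let P : AddSubgroup (Fin s × I → O.toAddSubgroup) :=
    AddSubgroup.pi Set.univ (fun _ => B.toAddSubgroup.addSubgroupOf O.toAddSubgroup)
  have hPidx : P.index = B.toAddSubgroup.relIndex O.toAddSubgroup ^ (s * Module.finrank ℤ A') := by
    rw [AddSubgroup.index_pi, Finset.prod_const, Finset.card_univ, hcard]
    rfl
  -- products `a' * x ^ n * w`
  have hbase : ∀ a' ∈ A', ∀ (n : ℕ), ∀ w ∈ O, a' * x ^ n * w ∈ φ.range := by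
    intro a' ha' n w hw
    set c := ω.repr ⟨a', ha'⟩ with hc
    have hsum : (⟨a', ha'⟩ : A') = ∑ l, c l • ω l := (ω.sum_repr ⟨a', ha'⟩).symm
    have hsumΩ : a' = ∑ l, (c l : Ω) * ((ω l : A') : Ω) := by
      have h1 := congrArg (fun y : A' => (y : Ω)) hsum
      simp only [AddSubmonoidClass.coe_finsetSum] at h1
      rw [h1]
      refine Finset.sum_congr rfl fun l _ => ?_
      rw [← zsmul_eq_mul]
      rfl
    have hsO : x ^ s ∈ O := hBO hθ
    have hmem : ∀ l, (c l : Ω) * ((x ^ s) ^ (n / s) * w) ∈ O.toAddSubgroup := fun l =>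
      O.mul_mem (intCast_mem O _) (O.mul_mem (O.pow_mem hsO _) hw)
    let i₀ : Fin s := ⟨n % s, Nat.mod_lt _ (by omega)⟩
    refine ⟨fun t => if t.1 = i₀ then ⟨_, hmem t.2⟩ else 0, ?_⟩
    change ∑ t : Fin s × I, (((if t.1 = i₀ then (⟨_, hmem t.2⟩ : O.toAddSubgroup) else 0 :
      O.toAddSubgroup) : Ω)) * ((ω t.2 : A') : Ω) * x ^ (t.1 : ℕ) = a' * x ^ n * w
    rw [Fintype.sum_prod_type, Finset.sum_eq_single i₀]
    · simp only [if_true]
      have hxn : x ^ n = x ^ (n % s) * (x ^ s) ^ (n / s) := by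
        rw [← pow_mul, ← pow_add, Nat.mod_add_div]
      rw [hsumΩ, Finset.sum_mul, Finset.sum_mul]
      refine Finset.sum_congr rfl fun l _ => ?_
      rw [hxn]
      change (c l : Ω) * ((x ^ s) ^ (n / s) * w) * ((ω l : A') : Ω) * x ^ (n % s) = _
      ring
    · intro i _ hi
      refine Finset.sum_eq_zero fun l _ => ?_
      simp only [if_neg hi, AddSubgroup.coe_zero, zero_mul]
    · intro h
      exact absurd (Finset.mem_univ i₀) h
  have hprod : ∀ a ∈ A, ∀ w ∈ O, a * w ∈ φ.range := by
    intro a ha w hw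
    have h1 : a ∈ A' ⊔ Subring.closure {x} := by rw [← hA]; exact ha
    have h2 := mem_adjoin_closure A' x a h1
    induction h2 using AddSubgroup.closure_induction with
    | mem t ht =>
      obtain ⟨a', ha', n, rfl⟩ := ht
      exact hbase a' ha' n w hw
    | zero => rw [zero_mul]; exact AddSubgroup.zero_mem _
    | add u v hu hv h3 h4 =>
      have hle : ∀ t ∈ AddSubgroup.closure {t : Ω | ∃ a ∈ A', ∃ n : ℕ, t = a * x ^ n}, t ∈ A := by
        intro t ht
        rw [hA]
        refine (AddSubgroup.closure_le (K := (A' ⊔ Subring.closure {x}).toAddSubgroup)).2 ?_ ht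
        rintro _ ⟨a', ha', n, rfl⟩
        exact (A' ⊔ Subring.closure {x}).mul_mem
          ((le_sup_left : A' ≤ A' ⊔ Subring.closure {x}) ha')
          ((A' ⊔ Subring.closure {x}).pow_mem
            ((le_sup_right : Subring.closure {x} ≤ A' ⊔ Subring.closure {x})
              (Subring.subset_closure rfl)) n)
      rw [add_mul]
      have hu' := hle u hu
      have hv' := hle v hv
      exact AddSubgroup.add_mem _ (h3 hu' (by rw [← hA]; exact hu')) (h4 hv' (by
        rw [← hA]; exact hv'))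
    | neg u hu h3 =>
      rw [neg_mul]
      have hu' : u ∈ A := by
        have := A.neg_mem ha
        rwa [neg_neg] at this
      exact AddSubgroup.neg_mem _ (h3 hu' (by rw [← hA]; exact hu'))
  have hmain := relIndex_le_of_surj φ P A.toAddSubgroup (A ⊔ O).toAddSubgroup (by
    intro w hw
    change (∑ t : Fin s × I, (w t : Ω) * ((ω t.2 : A') : Ω) * x ^ (t.1 : ℕ)) ∈ A
    refine A.sum_mem fun t _ => A.mul_mem (A.mul_mem (hBA ?_) (hωA _)) (A.pow_mem hxA _)
    exact hw t (Set.mem_univ _)) (by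
    intro z hz
    have h1 := mem_sup_closure A O z hz
    have h2 : z ∈ φ.range := by
      refine (AddSubgroup.closure_le (K := φ.range)).2 ?_ h1
      rintro _ ⟨a, ha, w, hw, rfl⟩
      exact hprod a ha w hw
    obtain ⟨y, hy⟩ := h2
    exact ⟨y, 0, A.toAddSubgroup.zero_mem, by rw [add_zero, hy]⟩)
    (by rw [hPidx]; exact pow_ne_zero _ hidx)
  rw [hPidx] at hmain
  exact hmain

/-- `log [A O : A] ≤ (k / μ) rank A · log [O : B]`. -/
theorem log_relIndex_sup_le {Ω : Type} [Field Ω] [CharZero Ω] (A' A : Subring Ω) (x : Ωˣ)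
    (m : ℕ) (hm : 1 ≤ m) (hA : A = A' ⊔ Subring.closure {(x : Ω)}) [Module.Finite ℤ A']
    [Module.Finite ℤ A] (b : A') (hx : (x : Ω) ^ m = (b : Ω))
    (hind : ∀ c : Fin m → A', ∑ i, (c i : Ω) * (x : Ω) ^ (i : ℕ) = 0 → ∀ i, c i = 0)
    (s k μ : ℕ) (hs : 1 ≤ s) (hμ : 1 ≤ μ) (hsk : s * μ = k * m) (B O : Subring Ω) (hBO : B ≤ O)
    (hBA : B ≤ A) (hθ : (x : Ω) ^ s ∈ B) (hidx : B.toAddSubgroup.relIndex O.toAddSubgroup ≠ 0) :
    A.toAddSubgroup.relIndex (A ⊔ O).toAddSubgroup ≠ 0 ∧
    Real.log (A.toAddSubgroup.relIndex (A ⊔ O).toAddSubgroup : ℕ) ≤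
      (k : ℝ) * Fintype.card (A →+* ℂ) *
        (Real.log (B.toAddSubgroup.relIndex O.toAddSubgroup : ℕ) / μ) := by
  obtain ⟨h1, h2⟩ := relIndex_sup_le A' A x s hs hA B O hBO hBA hθ hidx
  refine ⟨h1, ?_⟩
  have hAA : A' ≤ A := by rw [hA]; exact le_sup_left
  have hxA : (x : Ω) ∈ A := by
    rw [hA]
    exact (le_sup_right : Subring.closure {(x : Ω)} ≤ A' ⊔ Subring.closure {(x : Ω)})
      (Subring.subset_closure rfl)
  letI : Algebra A' A := (Subring.inclusion hAA).toAlgebra
  obtain ⟨bas, -⟩ := substep_basis A' A hAA x m hm hA b hx hind ⟨(x : Ω), hxA⟩ rfl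
  haveI hfinAR : Module.Finite A' A := Module.Finite.of_basis bas
  haveI hfreeAR : Module.Free A' A := Module.Free.of_basis bas
  have hrank : Fintype.card (A →+* ℂ) = Module.finrank ℤ A' * m := by
    rw [card_hom, ← Module.finrank_mul_finrank ℤ A' A, Module.finrank_eq_card_basis bas,
      Fintype.card_fin]
  have hpos : (0 : ℝ) < (A.toAddSubgroup.relIndex (A ⊔ O).toAddSubgroup : ℕ) := by
    exact_mod_cast Nat.pos_of_ne_zero h1
  have h3 : Real.log (A.toAddSubgroup.relIndex (A ⊔ O).toAddSubgroup : ℕ) ≤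
      (s * Module.finrank ℤ A' : ℕ) *
        Real.log (B.toAddSubgroup.relIndex O.toAddSubgroup : ℕ) := by
    rw [← Real.log_pow]
    apply Real.log_le_log hpos
    exact_mod_cast h2
  refine h3.trans (le_of_eq ?_)
  have hμR : (μ : ℝ) ≠ 0 := by exact_mod_cast (by omega : μ ≠ 0)
  have hskR : (s : ℝ) * μ = k * m := by exact_mod_cast hsk
  rw [hrank]
  push_cast
  field_simp
  linear_combination (Module.finrank ℤ A' : ℝ) *
    Real.log (B.toAddSubgroup.relIndex O.toAddSubgroup : ℕ) * hskR

end Pool.Agent.H11.FR
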