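import Pool.Agent.H11.FR.Ordx
import Pool.Agent.H11.FR.Gen

/-!
# Module Red (MP_187c26_nt, whole fields): reduction of the index to prime exponents

`K` a number field, `θ ^ m = b ∈ 𝓞 K`. Let `W` be a finite set of primes `p` with `p ∣ m`, not `p ^ 2 ∣ m`, such that
`b`, `m` are good outside `W`. Then `log ordIdx K θ / m ≤ ∑ p ∈ W, log ordIdx K (θ ^ (m / p)) / p`.
-/

set_option autoImplicit false

open IntermediateField NumberField

namespace Pool.Agent.H11.FR

open Pool.Agent.H4.OG (intOf mem_intOf)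
open Pool.Agent.H4.OH (relIndex_le_of_surj)

/-- `A = B[x]`, `x ^ s ∈ B`, `B ≤ O`: `[A O : A] ≤ [O : B] ^ s`. -/
theorem relIndex_sup_le_pow {Ω : Type} [Field Ω] (B A O : Subring Ω) (x : Ω) (s : ℕ)
    (hs : 1 ≤ s) (hA : A = B ⊔ Subring.closure {x}) (hBO : B ≤ O) (hθ : x ^ s ∈ B)
    (hidx : B.toAddSubgroup.relIndex O.toAddSubgroup ≠ 0) :
    A.toAddSubgroup.relIndex (A ⊔ O).toAddSubgroup ≠ 0 ∧
    A.toAddSubgroup.relIndex (A ⊔ O).toAddSubgroup ≤
      B.toAddSubgroup.relIndex O.toAddSubgroup ^ s := by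
  classical
  have hBA : B ≤ A := by rw [hA]; exact le_sup_left
  have hxA : x ∈ A := by
    rw [hA]
    exact (le_sup_right : Subring.closure {x} ≤ B ⊔ Subring.closure {x})
      (Subring.subset_closure rfl)
  let φ : (Fin s → O.toAddSubgroup) →+ Ω :=
    { toFun := fun w => ∑ t : Fin s, (w t : Ω) * x ^ (t : ℕ)
      map_zero' := by simp
      map_add' := fun v w => by
        rw [← Finset.sum_add_distrib]
        refine Finset.sum_congr rfl fun t _ => ?_
        simp only [Pi.add_apply, AddSubgroup.coe_add]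
        ring }
  let P : AddSubgroup (Fin s → O.toAddSubgroup) :=
    AddSubgroup.pi Set.univ (fun _ => B.toAddSubgroup.addSubgroupOf O.toAddSubgroup)
  have hPidx : P.index = B.toAddSubgroup.relIndex O.toAddSubgroup ^ s := by
    rw [AddSubgroup.index_pi, Finset.prod_const, Finset.card_univ, Fintype.card_fin]
    rfl
  have hbase : ∀ b ∈ B, ∀ (n : ℕ), ∀ w ∈ O, b * x ^ n * w ∈ φ.range := by
    intro b hb n w hw
    have hmem : b * ((x ^ s) ^ (n / s) * w) ∈ O.toAddSubgroup :=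
      O.mul_mem (hBO hb) (O.mul_mem (O.pow_mem (hBO hθ) _) hw)
    let i₀ : Fin s := ⟨n % s, Nat.mod_lt _ (by omega)⟩
    refine ⟨fun t => if t = i₀ then ⟨_, hmem⟩ else 0, ?_⟩
    change ∑ t : Fin s, (((if t = i₀ then (⟨_, hmem⟩ : O.toAddSubgroup) else 0 :
      O.toAddSubgroup) : Ω)) * x ^ (t : ℕ) = b * x ^ n * w
    rw [Finset.sum_eq_single i₀]
    · simp only [if_true]
      have hxn : x ^ n = x ^ (n % s) * (x ^ s) ^ (n / s) := by
        rw [← pow_mul, ← pow_add, Nat.mod_add_div]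
      rw [hxn]
      change b * ((x ^ s) ^ (n / s) * w) * x ^ (n % s) = _
      ring
    · intro i _ hi
      simp only [if_neg hi, AddSubgroup.coe_zero, zero_mul]
    · intro h
      exact absurd (Finset.mem_univ i₀) h
  have hprod : ∀ t ∈ AddSubgroup.closure {t : Ω | ∃ a ∈ B, ∃ n : ℕ, t = a * x ^ n}, ∀ w ∈ O,
      t * w ∈ φ.range := by
    intro t ht w hw
    induction ht using AddSubgroup.closure_induction with
    | mem t ht =>
      obtain ⟨a', ha', n, rfl⟩ := ht
      exact hbase a' ha' n w hw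
    | zero => rw [zero_mul]; exact AddSubgroup.zero_mem _
    | add u v _ _ h3 h4 => rw [add_mul]; exact AddSubgroup.add_mem _ h3 h4
    | neg u _ h3 => rw [neg_mul]; exact AddSubgroup.neg_mem _ h3
  have hmain := relIndex_le_of_surj φ P A.toAddSubgroup (A ⊔ O).toAddSubgroup (by
    intro w hw
    change (∑ t : Fin s, (w t : Ω) * x ^ (t : ℕ)) ∈ A
    refine A.sum_mem fun t _ => A.mul_mem (hBA ?_) (A.pow_mem hxA _)
    exact hw t (Set.mem_univ _)) (by
    intro z hz
    have h1 := mem_sup_closure A O z hz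
    have h2 : z ∈ φ.range := by
      refine (AddSubgroup.closure_le (K := φ.range)).2 ?_ h1
      rintro _ ⟨a, ha, w, hw, rfl⟩
      refine hprod a (mem_adjoin_closure B x a ?_) w hw
      rw [← hA]
      exact ha
    obtain ⟨y, hy⟩ := h2
    exact ⟨y, 0, A.toAddSubgroup.zero_mem, by rw [add_zero, hy]⟩)
    (by rw [hPidx]; exact pow_ne_zero _ hidx)
  rw [hPidx] at hmain
  exact hmain

section

variable {K Ω : Type} [Field K] [NumberField K] [Field Ω] [CharZero Ω] [Algebra K Ω]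
  [Algebra.IsAlgebraic K Ω]

/-- If the algebraic integers of `F` lie in `R`, then `e a z ∈ R` for those `z` of `F(x)`, `x ^ e = a`,
`a ∈ F` an algebraic integer. -/
theorem step' (R : Subring Ω) (F : IntermediateField K Ω)
    (hF : ∀ z ∈ F, IsIntegral ℤ z → z ∈ R) (x : Ω) (hxR : x ∈ R) (e : ℕ) (he : 1 ≤ e) (a : Ω)
    (haF : a ∈ F) (haint : IsIntegral ℤ a) (hx : x ^ e = a) (z : Ω) (hz : z ∈ F ⊔ K⟮x⟯)
    (hzi : IsIntegral ℤ z) : (e : Ω) * a * z ∈ R := by
  set B : Subring Ω := F.toSubalgebra.toSubring ⊓ (integralClosure ℤ Ω).toSubring with hB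
  have hmemB : ∀ w, w ∈ B ↔ w ∈ F ∧ IsIntegral ℤ w := fun w => Iff.rfl
  have key := rad_sub F.toSubfield B (fun s hs => ((hmemB s).1 hs).1) (by
    intro w hw
    obtain ⟨n, hn, h1⟩ := int_mult K w
    refine ⟨(n : Ω), (hmemB _).2 ⟨intCast_mem F n, isIntegral_algebraMap⟩, ?_, (hmemB _).2
      ⟨mul_mem (intCast_mem F n) hw, h1⟩⟩
    exact_mod_cast hn) (by
    intro w hw hwi
    refine (hmemB _).2 ⟨hw, ?_⟩
    haveI : Algebra.IsIntegral ℤ B := ⟨fun s => by
      have h4 := ((hmemB (s : Ω)).1 s.2).2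
      exact (isIntegral_algHom_iff (B.subtype.toIntAlgHom) Subtype.val_injective).1 h4⟩
    exact isIntegral_trans (R := ℤ) (A := B) w hwi) x a e he hx
    ((hmemB _).2 ⟨haF, haint⟩) z (by
      have h5 : F ⊔ K⟮x⟯ = (IntermediateField.adjoin F ({x} : Set Ω)).restrictScalars K :=
        (IntermediateField.restrictScalars_adjoin_eq_sup K F ({x} : Set Ω)).symm
      rw [h5] at hz
      exact hz) hzi.tower_top
  have hle : B ⊔ Subring.closure {x} ≤ R := by
    refine sup_le (fun w hw => hF w ((hmemB w).1 hw).1 ((hmemB w).1 hw).2) ?_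
    rw [Subring.closure_le, Set.singleton_subset_iff]
    exact hxR
  exact hle key

/-- The index of a sum of subgroups. -/
theorem relIndex_sum_le {M ι : Type} [AddCommGroup M] [DecidableEq ι] (A : AddSubgroup M)
    (C : ι → AddSubgroup M) (hidx : ∀ i, A.relIndex (C i) ≠ 0) (T : Finset ι) :
    A.relIndex (A ⊔ T.sup C) ≠ 0 ∧ A.relIndex (A ⊔ T.sup C) ≤ ∏ i ∈ T, A.relIndex (C i) := by
  induction T using Finset.induction_on with
  | empty =>
    rw [Finset.sup_empty, sup_bot_eq, AddSubgroup.relIndex_self, Finset.prod_empty]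
    exact ⟨one_ne_zero, le_rfl⟩
  | insert j T hj ih =>
    obtain ⟨h1, h2⟩ := ih
    set S := A ⊔ T.sup C with hS
    have hSj : A ⊔ (insert j T).sup C = C j ⊔ S := by
      rw [Finset.sup_insert, hS, sup_left_comm]
    have hAS : A ≤ S := le_sup_left
    have h3 : S.relIndex (C j ⊔ S) = S.relIndex (C j) := AddSubgroup.relIndex_sup_right _ _
    have h4 : S.relIndex (C j) ≤ A.relIndex (C j) :=
      AddSubgroup.relIndex_le_of_le_left hAS (hidx j)
    have h5 : S.relIndex (C j) ≠ 0 := by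
      intro h
      exact hidx j (AddSubgroup.relIndex_eq_zero_of_le_left hAS h)
    have h6 : A.relIndex S * S.relIndex (C j ⊔ S) = A.relIndex (C j ⊔ S) :=
      AddSubgroup.relIndex_mul_relIndex _ _ _ hAS le_sup_right
    rw [hSj, ← h6, h3]
    refine ⟨Nat.mul_ne_zero h1 h5, ?_⟩
    rw [Finset.prod_insert hj, mul_comm]
    exact Nat.mul_le_mul h4 h2

/-- Reduction to prime exponents. -/
theorem ordIdx_red (b : 𝓞 K) (hb0 : b ≠ 0) (m : ℕ) (hm : 1 ≤ m) (W : Finset ℕ)
    (hW : ∀ p ∈ W, p.Prime ∧ p ∣ m ∧ ¬ p ^ 2 ∣ m)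
    (hgood : ∀ P : Ideal (𝓞 K), P.IsMaximal → b ∉ P ^ 2 ∧ (b ∉ P → ∀ p : ℕ, p.Prime → p ∣ m →
      p ∉ W → (p : 𝓞 K) ∈ P → ∀ c : 𝓞 K, b - c ^ p ∉ P ^ 2))
    (θ : Ω) (hθ : θ ^ m = algebraMap (𝓞 K) Ω b) :
    Real.log (ordIdx K θ : ℕ) / m ≤ ∑ p ∈ W, Real.log (ordIdx K (θ ^ (m / p)) : ℕ) / p := by
  classical
  have hmR : (0 : ℝ) < m := by exact_mod_cast hm
  set A := ordOf K θ with hA
  let O : ℕ → Subring Ω := fun p => intOf K⟮θ ^ (m / p)⟯
  let C : ℕ → Subring Ω := fun p => if p ∈ W then A ⊔ O p else A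
  have hdiv : ∀ p ∈ W, p * (m / p) = m := fun p hp => Nat.mul_div_cancel' (hW p hp).2.1
  have hq1 : ∀ p ∈ W, 1 ≤ m / p := fun p hp => by
    rcases Nat.eq_zero_or_pos (m / p) with h | h
    · have := hdiv p hp
      rw [h, mul_zero] at this
      omega
    · exact h
  have hxp : ∀ p ∈ W, (θ ^ (m / p)) ^ p = algebraMap (𝓞 K) Ω b := fun p hp => by
    rw [← pow_mul, mul_comm, hdiv p hp, hθ]
  have hCW : ∀ p ∈ W, C p = A ⊔ O p := fun p hp => if_pos hp
  -- the single indices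
  have hC : ∀ p ∈ W, A.toAddSubgroup.relIndex (C p).toAddSubgroup ≠ 0 ∧
      A.toAddSubgroup.relIndex (C p).toAddSubgroup ≤ ordIdx K (θ ^ (m / p)) ^ (m / p) := by
    intro p hp
    rw [hCW p hp]
    have hp1 : 1 ≤ p := (hW p hp).1.one_lt.le
    refine relIndex_sup_le_pow (ordOf K (θ ^ (m / p))) A (O p) θ (m / p) (hq1 p hp) ?_
      (ordOf_le_intOf hp1 (hxp p hp)) (self_mem_ordOf _) (ordIdx_ne_zero hp1 hb0 (hxp p hp))
    apply le_antisymm
    · refine ordOf_le θ _ (fun z => ?_) ?_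
      · exact (le_sup_left : ordOf K (θ ^ (m / p)) ≤ _) (algebraMap_mem_ordOf _ z)
      · exact (le_sup_right : Subring.closure {θ} ≤ ordOf K (θ ^ (m / p)) ⊔ Subring.closure {θ})
          (Subring.subset_closure rfl)
    · refine sup_le ?_ ?_
      · exact ordOf_le _ _ (fun z => algebraMap_mem_ordOf θ z)
          ((ordOf K θ).pow_mem (self_mem_ordOf θ) _)
      · rw [Subring.closure_le, Set.singleton_subset_iff]
        exact self_mem_ordOf θ
  have hCidx : ∀ p, A.toAddSubgroup.relIndex (C p).toAddSubgroup ≠ 0 := by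
    intro p
    by_cases hp : p ∈ W
    · exact (hC p hp).1
    · have : C p = A := if_neg hp
      rw [this, AddSubgroup.relIndex_self]
      exact one_ne_zero
  obtain ⟨hS0, hSle⟩ := relIndex_sum_le A.toAddSubgroup (fun p => (C p).toAddSubgroup) hCidx W
  set S : AddSubgroup Ω := A.toAddSubgroup ⊔ W.sup (fun p => (C p).toAddSubgroup) with hSdef
  have hAS : A.toAddSubgroup ≤ S := le_sup_left
  have hCS : ∀ p ∈ W, (C p).toAddSubgroup ≤ S := fun p hp =>
    (Finset.le_sup (f := fun p => (C p).toAddSubgroup) hp).trans le_sup_right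
  -- `S` is a module over `𝓞 K`
  have hmod : ∀ (r : 𝓞 K), ∀ s ∈ S, algebraMap (𝓞 K) Ω r * s ∈ S := by
    intro r
    have h1 : S ≤ S.comap (AddMonoidHom.mulLeft (algebraMap (𝓞 K) Ω r)) := by
      refine sup_le ?_ (Finset.sup_le fun p hp => ?_)
      · intro s hs
        exact hAS (A.mul_mem (algebraMap_mem_ordOf θ r) hs)
      · intro s hs
        refine hCS p hp ?_
        have hAC : A ≤ C p := by rw [hCW p hp]; exact le_sup_left
        exact (C p).mul_mem (hAC (algebraMap_mem_ordOf θ r)) hs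
    exact fun s hs => h1 hs
  -- the integers lie in `S`
  have hOS : (intOf K⟮θ⟯).toAddSubgroup ≤ S := by
    intro z hz
    obtain ⟨hz1, hz2⟩ := (mem_intOf _ _).1 hz
    refine mem_of_local (K := K) S hmod z (fun P hP => ?_)
    by_cases hex : ∃ p ∈ W, (p : 𝓞 K) ∈ P ∧ b ∉ P
    · obtain ⟨p, hp, hpP, hbP⟩ := hex
      obtain ⟨hpp, hpm, hp2⟩ := hW p hp
      have hq : ¬ p ∣ m / p := by
        intro h
        apply hp2
        rw [← hdiv p hp, pow_two]
        exact Nat.mul_dvd_mul_left p h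
      refine ⟨((m / p : ℕ) : 𝓞 K) * b, ?_, ?_⟩
      · intro h
        rcases hP.isPrime.mem_or_mem h with h1 | h1
        · have hcop : Nat.Coprime p (m / p) := (Nat.Prime.coprime_iff_not_dvd hpp).2 hq
          have h2 : IsCoprime (p : 𝓞 K) ((m / p : ℕ) : 𝓞 K) := by
            have h3 := (Nat.isCoprime_iff_coprime.2 hcop).map (Int.castRingHom (𝓞 K))
            simpa only [eq_intCast, Int.cast_natCast] using h3
          obtain ⟨u, v, huv⟩ := h2
          have h3 : (1 : 𝓞 K) ∈ P := by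
            rw [← huv]
            exact add_mem (Ideal.mul_mem_left _ _ hpP) (Ideal.mul_mem_left _ _ h1)
          exact (Ideal.ne_top_iff_one P).1 hP.ne_top h3
        · exact hbP h1
      · refine hCS p hp ?_
        rw [hCW p hp]
        have hint : IsIntegral ℤ (θ ^ (m / p)) := isIntegral_root hpp.one_lt.le (hxp p hp)
        have h4 := step' (K := K) (A ⊔ O p) K⟮θ ^ (m / p)⟯
          (fun w hw hwi => (le_sup_right : O p ≤ A ⊔ O p) ((mem_intOf _ _).2 ⟨hw, hwi⟩)) θ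
          ((le_sup_left : A ≤ A ⊔ O p) (self_mem_ordOf θ)) (m / p) (hq1 p hp) (θ ^ (m / p))
          (IntermediateField.mem_adjoin_simple_self K _) hint rfl z
          ((le_sup_right : K⟮θ⟯ ≤ K⟮θ ^ (m / p)⟯ ⊔ K⟮θ⟯) hz1) hz2
        have h5 : θ ^ (m / p) ∈ A ⊔ O p := (le_sup_left : A ≤ A ⊔ O p)
          (A.pow_mem (self_mem_ordOf θ) _)
        have h6 := (A ⊔ O p).mul_mem ((A ⊔ O p).pow_mem h5 (p - 1)) h4
        have h7 : algebraMap (𝓞 K) Ω (((m / p : ℕ) : 𝓞 K) * b) * z =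
            (θ ^ (m / p)) ^ (p - 1) * (((m / p : ℕ) : Ω) * θ ^ (m / p) * z) := by
          rw [map_mul, map_natCast, ← hxp p hp]
          have h8 : (θ ^ (m / p)) ^ p = (θ ^ (m / p)) ^ (p - 1) * θ ^ (m / p) := by
            rw [← pow_succ, Nat.sub_add_cancel hpp.one_lt.le]
          rw [h8]
          ring
        rw [h7]
        exact h6
    · obtain ⟨r, hr, hrz⟩ := exists_mul_mem P hP b m hm ⟨(hgood P hP).1, fun hbP p hp hpm hpP c =>
        (hgood P hP).2 hbP p hp hpm (fun hpW => hex ⟨p, hpW, hpP, hbP⟩) hpP c⟩ θ hθ z hz1 hz2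
      exact ⟨r, hr, hAS hrz⟩
  have hle : ordIdx K θ ≤ ∏ p ∈ W, A.toAddSubgroup.relIndex (C p).toAddSubgroup :=
    (AddSubgroup.relIndex_le_of_le_right hOS hS0).trans hSle
  have hlog : Real.log (ordIdx K θ : ℕ) ≤
      ∑ p ∈ W, ((m / p : ℕ) : ℝ) * Real.log (ordIdx K (θ ^ (m / p)) : ℕ) := by
    have h1 : ordIdx K θ ≤ ∏ p ∈ W, ordIdx K (θ ^ (m / p)) ^ (m / p) :=
      hle.trans (Finset.prod_le_prod' fun p hp => (hC p hp).2)
    have h2 : (0 : ℝ) < (ordIdx K θ : ℕ) := by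
      exact_mod_cast Nat.pos_of_ne_zero (ordIdx_ne_zero hm hb0 hθ)
    have h3 : Real.log (ordIdx K θ : ℕ) ≤
        Real.log ((∏ p ∈ W, ordIdx K (θ ^ (m / p)) ^ (m / p) : ℕ) : ℝ) := by
      apply Real.log_le_log h2
      exact_mod_cast h1
    refine h3.trans (le_of_eq ?_)
    rw [Nat.cast_prod, Real.log_prod]
    · refine Finset.sum_congr rfl fun p _ => ?_
      rw [Nat.cast_pow, Real.log_pow]
    · intro p hp
      have := ordIdx_ne_zero (hW p hp).1.one_lt.le hb0 (hxp p hp)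
      exact_mod_cast pow_ne_zero _ this
  rw [div_le_iff₀ hmR, Finset.sum_mul]
  refine hlog.trans (le_of_eq (Finset.sum_congr rfl fun p hp => ?_))
  have hpR : (p : ℝ) ≠ 0 := by exact_mod_cast (hW p hp).1.ne_zero
  have h1 : ((m / p : ℕ) : ℝ) = (m : ℝ) / p := by
    rw [eq_div_iff hpR]
    have := hdiv p hp
    rw [mul_comm]
    exact_mod_cast this
  rw [h1]
  field_simp

end

end Pool.Agent.H11.FR
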