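import Pool.Agent.H11.FR.Glob

/-!
# Module Comp (MP_187c26_nt, whole fields): composita and regularity

`K` a number field, `Ω` an extension, algebraic over `K`, `R` a subring of `Ω` which contains `𝓞 K` and the
elements `x i`, `x i ^ e i = a i ∈ 𝓞 K`, `e i ≥ 1`, the `e i * a i` pairwise coprime. `comp`: if the algebraic
integers of each `K(x i)` lie in `R`, then so do those of `K(x i : i ∈ S)`. `regular`: if the algebraic integers
of the number field `F` lie in `R`, then for every `α ∈ F`, `α ≠ 0`, there is `t ∈ R` with `t α ∈ R` and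
`(1 - t) α⁻¹ ∈ R`.
-/

set_option autoImplicit false

open Polynomial Algebra IntermediateField NumberField

namespace Pool.Agent.H11.FR

section

variable {K Ω : Type} [Field K] [NumberField K] [Field Ω] [CharZero Ω] [Algebra K Ω]
  [Algebra.IsAlgebraic K Ω]

/-- A nonzero integer multiple of an algebraic element is integral. -/
theorem int_mult (K : Type) {Ω : Type} [Field K] [NumberField K] [Field Ω] [CharZero Ω]
    [Algebra K Ω] [Algebra.IsAlgebraic K Ω] (w : Ω) : ∃ n : ℤ, n ≠ 0 ∧ IsIntegral ℤ ((n : Ω) * w) := by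
  haveI : Algebra.IsAlgebraic ℚ Ω := Algebra.IsAlgebraic.trans ℚ K Ω
  have h1 : IsAlgebraic ℤ w := (IsFractionRing.isAlgebraic_iff ℤ ℚ Ω).2
    (Algebra.IsAlgebraic.isAlgebraic w)
  obtain ⟨n, hn, h2⟩ := h1.exists_integral_multiple
  refine ⟨n, hn, ?_⟩
  rwa [zsmul_eq_mul] at h2

/-- If the algebraic integers of `F` lie in `R`, then `e a z ∈ R` for those `z` of `F(x)`, `x ^ e = a`. -/
theorem step (R : Subring Ω) (F : IntermediateField K Ω)
    (hF : ∀ z ∈ F, IsIntegral ℤ z → z ∈ R) (x : Ω) (hxR : x ∈ R) (e : ℕ) (he : 1 ≤ e) (a : 𝓞 K)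
    (hx : x ^ e = algebraMap (𝓞 K) Ω a) (z : Ω) (hz : z ∈ F ⊔ K⟮x⟯) (hzi : IsIntegral ℤ z) :
    algebraMap (𝓞 K) Ω ((e : 𝓞 K) * a) * z ∈ R := by
  set B : Subring Ω := F.toSubalgebra.toSubring ⊓ (integralClosure ℤ Ω).toSubring with hB
  have hmemB : ∀ w, w ∈ B ↔ w ∈ F ∧ IsIntegral ℤ w := fun w => Iff.rfl
  have haint : IsIntegral ℤ (algebraMap (𝓞 K) Ω a) := (RingOfIntegers.isIntegral a).map
    (IsScalarTower.toAlgHom ℤ (𝓞 K) Ω)
  have haF : algebraMap (𝓞 K) Ω a ∈ F := by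
    rw [IsScalarTower.algebraMap_apply (𝓞 K) K Ω]
    exact F.algebraMap_mem _
  have key := rad_sub F.toSubfield B (fun s hs => ((hmemB s).1 hs).1) (by
    intro w hw
    obtain ⟨n, hn, h1⟩ := int_mult K w
    refine ⟨(n : Ω), (hmemB _).2 ⟨intCast_mem F n, isIntegral_algebraMap⟩, ?_, (hmemB _).2
      ⟨mul_mem (intCast_mem F n) hw, h1⟩⟩
    exact_mod_cast hn) (by
    intro w hw hwi
    refine (hmemB _).2 ⟨hw, ?_⟩
    haveI : Algebra.IsIntegral ℤ B := ⟨fun s => by
      have h4 := ((hmemB (s : Ω)).1 s.2).2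
      exact (isIntegral_algHom_iff (B.subtype.toIntAlgHom) Subtype.val_injective).1 h4⟩
    exact isIntegral_trans (R := ℤ) (A := B) w hwi) x (algebraMap (𝓞 K) Ω a) e he hx
    ((hmemB _).2 ⟨haF, haint⟩) z (by
      have h5 : F ⊔ K⟮x⟯ = (IntermediateField.adjoin F ({x} : Set Ω)).restrictScalars K :=
        (IntermediateField.restrictScalars_adjoin_eq_sup K F ({x} : Set Ω)).symm
      rw [h5] at hz
      exact hz) hzi.tower_top
  have hle : B ⊔ Subring.closure {x} ≤ R := by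
    refine sup_le (fun w hw => hF w ((hmemB w).1 hw).1 ((hmemB w).1 hw).2) ?_
    rw [Subring.closure_le, Set.singleton_subset_iff]
    exact hxR
  have h6 := hle key
  rwa [map_mul, map_natCast]

/-- Compositum: the algebraic integers of `K(x i : i ∈ S)` lie in `R` if those of the `K(x i)` do. -/
theorem comp {ι : Type} [DecidableEq ι] (R : Subring Ω)
    (hK : ∀ r : 𝓞 K, algebraMap (𝓞 K) Ω r ∈ R) (x : ι → Ω) (hxR : ∀ i, x i ∈ R) (e : ι → ℕ)
    (he : ∀ i, 1 ≤ e i) (a : ι → 𝓞 K) (hx : ∀ i, x i ^ e i = algebraMap (𝓞 K) Ω (a i))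
    (hcop : ∀ i j, i ≠ j → IsCoprime ((e i : 𝓞 K) * a i) ((e j : 𝓞 K) * a j))
    (hone : ∀ i, ∀ z ∈ K⟮x i⟯, IsIntegral ℤ z → z ∈ R) :
    ∀ (n : ℕ) (S : Finset ι), S.card = n →
      ∀ z ∈ IntermediateField.adjoin K {w | ∃ i ∈ S, w = x i}, IsIntegral ℤ z → z ∈ R := by
  intro n
  induction n with
  | zero =>
    intro S hS z hz hzi
    rw [Finset.card_eq_zero] at hS
    subst hS
    have h1 : {w | ∃ i ∈ (∅ : Finset ι), w = x i} = (∅ : Set Ω) := by
      ext w; simp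
    rw [h1, IntermediateField.adjoin_empty, IntermediateField.mem_bot] at hz
    obtain ⟨y, rfl⟩ := hz
    have hy : IsIntegral ℤ y := (isIntegral_algHom_iff (IsScalarTower.toAlgHom ℤ K Ω)
      (algebraMap K Ω).injective).1 hzi
    have := hK ⟨y, hy⟩
    exact this
  | succ n ih =>
    intro S hS z hz hzi
    have hins : ∀ i ∈ S, IntermediateField.adjoin K {w | ∃ j ∈ S, w = x j} =
        IntermediateField.adjoin K {w | ∃ j ∈ S.erase i, w = x j} ⊔ K⟮x i⟯ := by
      intro i hi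
      rw [← IntermediateField.adjoin_union]
      congr 1
      ext w
      constructor
      · rintro ⟨j, hj, rfl⟩
        by_cases hji : j = i
        · subst hji; exact Or.inr rfl
        · exact Or.inl ⟨j, Finset.mem_erase.2 ⟨hji, hj⟩, rfl⟩
      · rintro (⟨j, hj, rfl⟩ | hw)
        · exact ⟨j, (Finset.mem_erase.1 hj).2, rfl⟩
        · rw [Set.mem_singleton_iff] at hw
          exact ⟨i, hi, hw⟩
    have hd : ∀ i ∈ S, algebraMap (𝓞 K) Ω ((e i : 𝓞 K) * a i) * z ∈ R := by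
      intro i hi
      refine step R _ (ih (S.erase i) (by rw [Finset.card_erase_of_mem hi, hS]; rfl)) (x i)
        (hxR i) (e i) (he i) (a i) (hx i) z ?_ hzi
      rw [← hins i hi]
      exact hz
    rcases Nat.eq_zero_or_pos n with hn | hn
    · subst hn
      obtain ⟨i, rfl⟩ := Finset.card_eq_one.1 hS
      refine hone i z ?_ hzi
      have h1 : {w | ∃ j ∈ ({i} : Finset ι), w = x j} = ({x i} : Set Ω) := by
        ext w; simp
      rwa [h1] at hz
    · obtain ⟨i, hi, j, hj, hij⟩ := Finset.one_lt_card.1 (by omega : 1 < S.card)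
      obtain ⟨u, v, huv⟩ := hcop i j hij
      have h1 : z = algebraMap (𝓞 K) Ω u * (algebraMap (𝓞 K) Ω ((e i : 𝓞 K) * a i) * z) +
          algebraMap (𝓞 K) Ω v * (algebraMap (𝓞 K) Ω ((e j : 𝓞 K) * a j) * z) := by
        rw [← mul_assoc, ← mul_assoc, ← map_mul, ← map_mul, ← add_mul, ← map_add, huv, map_one,
          one_mul]
      rw [h1]
      exact R.add_mem (R.mul_mem (hK u) (hd i hi)) (R.mul_mem (hK v) (hd j hj))

omit [CharZero Ω] [Algebra.IsAlgebraic K Ω] in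
/-- The algebraic integers of the number field `F` lie in `R`: every `α ∈ F`, `α ≠ 0`, is regular. -/
theorem regular (R : Subring Ω) (F : IntermediateField K Ω) [FiniteDimensional K F]
    (hF : ∀ z ∈ F, IsIntegral ℤ z → z ∈ R) (α : Ω) (hα : α ∈ F) (hα0 : α ≠ 0) :
    ∃ t ∈ R, t * α ∈ R ∧ (1 - t) * α⁻¹ ∈ R := by
  haveI : CharZero F := charZero_of_injective_algebraMap (algebraMap K F).injective
  haveI : FiniteDimensional ℚ F := FiniteDimensional.trans ℚ K F
  haveI : NumberField F := NumberField.mk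
  have hR : ∀ r : 𝓞 F, ((r : F) : Ω) ∈ R := fun r => hF _ (r : F).2
    ((RingOfIntegers.isIntegral_coe r).map (IsScalarTower.toAlgHom ℤ F Ω))
  obtain ⟨x, y, hy, hxy⟩ := IsFractionRing.div_surjective (A := 𝓞 F) (⟨α, hα⟩ : F)
  have hy0 : y ≠ 0 := nonZeroDivisors.ne_zero hy
  have hyF : ((y : F) : Ω) ≠ 0 := by
    intro h
    apply hy0
    apply RingOfIntegers.ext
    exact Subtype.ext h
  have hαxy : α = ((x : F) : Ω) / ((y : F) : Ω) := by
    have h1 : (((x : F) / (y : F) : F) : Ω) = α := congrArg (fun w : F => (w : Ω)) hxy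
    rw [← h1]
    rfl
  have hd : Ideal.span {x} ⊔ Ideal.span {y} ∣ Ideal.span {y} :=
    Ideal.dvd_iff_le.2 le_sup_right
  obtain ⟨J, hJ⟩ := hd
  rw [Ideal.sup_mul] at hJ
  have hy1 : y ∈ Ideal.span {x} * J ⊔ Ideal.span {y} * J := by
    rw [← hJ]
    exact Ideal.mem_span_singleton_self y
  obtain ⟨u, hu, v, hv, huv⟩ := Submodule.mem_sup.1 hy1
  obtain ⟨j₁, hj₁, rfl⟩ := Ideal.mem_span_singleton_mul.1 hu
  obtain ⟨j₂, hj₂, rfl⟩ := Ideal.mem_span_singleton_mul.1 hv
  -- `x * j₂` is divisible by `y`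
  have h2 : x * j₂ ∈ Ideal.span {y} := by
    rw [hJ]
    exact (le_sup_left : _ ≤ Ideal.span {x} * J ⊔ Ideal.span {y} * J)
      (Ideal.mul_mem_mul (Ideal.mem_span_singleton_self x) hj₂)
  obtain ⟨s, hs⟩ := Ideal.mem_span_singleton'.1 h2
  refine ⟨((j₂ : F) : Ω), hR j₂, ?_, ?_⟩
  · have h3 : ((j₂ : F) : Ω) * α = ((s : F) : Ω) := by
      rw [hαxy, mul_div_assoc', div_eq_iff hyF]
      have h4 : ((s * y : 𝓞 F) : F) = ((x * j₂ : 𝓞 F) : F) := by rw [hs]
      have h5 : ((((s * y : 𝓞 F) : F)) : Ω) = (((x * j₂ : 𝓞 F) : F) : Ω) := by rw [h4]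
      push_cast at h5
      rw [h5]
      ring
    rw [h3]
    exact hR s
  · have h3 : (1 - ((j₂ : F) : Ω)) * α⁻¹ = ((j₁ : F) : Ω) := by
      have h5 : ((((x * j₁ + y * j₂ : 𝓞 F) : F)) : Ω) = ((y : F) : Ω) := by rw [huv]
      push_cast at h5
      rw [mul_inv_eq_iff_eq_mul₀ hα0, hαxy]
      field_simp
      linear_combination -h5
    rw [h3]
    exact hR j₁

end

end Pool.Agent.H11.FR
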