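import Pool.Agent.H11.FR.Deriv

/-!
# Module Eis (MP_187c26_nt, whole fields): Eisenstein polynomials over a discrete valuation ring

`A` a discrete valuation ring with fraction field `K` of characteristic `0`, `π` its prime element,
`L = K(x)` finite over `K`. `eis_mem`: if `x` is a root of a monic polynomial, Eisenstein at `π`, then every
`z ∈ L` integral over `A` lies in `A[x]`. `rad_mem_of_dvd`: `x ^ m = a`, `π ∣ a`, not `π ^ 2 ∣ a`.
`rad_mem_of_shift`: `x ^ (p ^ k) = a`, `p ∈ (π)`, `c ^ (p ^ k) - a` divisible by `π` but not by `π ^ 2`.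
-/

set_option autoImplicit false

open Polynomial Algebra

namespace Pool.Agent.H11.FR

section

variable {A K L : Type} [CommRing A] [IsDomain A] [IsDiscreteValuationRing A] [Field K] [CharZero K]
  [Algebra A K] [IsFractionRing A K] [Field L] [Algebra K L] [Algebra A L] [IsScalarTower A K L]
  [FiniteDimensional K L]

theorem eis_mem {x : L} (hx : Algebra.adjoin K {x} = ⊤) {π : A} (hπ : Irreducible π) (f : A[X])
    (hf : f.Monic) (hei : f.IsEisensteinAt (Ideal.span {π})) (hdeg : 0 < f.natDegree)
    (hfx : aeval x f = 0) (z : L) (hz : IsIntegral A z) : z ∈ Algebra.adjoin A ({x} : Set L) := by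
  have hAx : IsIntegral A x := ⟨f, hf, hfx⟩
  have hKx : IsIntegral K x := Algebra.IsIntegral.isIntegral x
  have hpr : Prime π := hπ.prime
  have hirr : Irreducible f := by
    refine hei.irreducible ?_ hf.isPrimitive hdeg
    rw [Ideal.span_singleton_prime hpr.ne_zero]
    exact hpr
  have htf : Module.IsTorsionFree A L := by
    have h1 : Function.Injective (algebraMap A L) := by
      rw [IsScalarTower.algebraMap_eq A K L]
      exact (algebraMap K L).injective.comp (IsFractionRing.injective A K)
    have : FaithfulSMul A L := (faithfulSMul_iff_algebraMap_injective A L).2 h1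
    infer_instance
  have hmin : minpoly A x = f := by
    obtain ⟨h, hh⟩ := minpoly.isIntegrallyClosed_dvd hAx hfx
    have hu : IsUnit h := by
      rcases hirr.isUnit_or_isUnit hh with h1 | h1
      · exact absurd h1 (minpoly.not_isUnit A x)
      · exact h1
    have hmon : h.Monic := by
      have h2 : (minpoly A x * h).Monic := hh ▸ hf
      exact (minpoly.monic hAx).of_mul_monic_left h2
    rw [hmon.eq_one_of_isUnit hu, mul_one] at hh
    exact hh.symm
  set B : PowerBasis K L := PowerBasis.ofAdjoinEqTop' hKx hx with hB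
  have hgen : B.gen = x := PowerBasis.ofAdjoinEqTop'_gen hKx hx
  have hBint : IsIntegral A B.gen := by rw [hgen]; exact hAx
  have hd := Algebra.discr_mul_isIntegral_mem_adjoin K (B := B) hBint hz
  -- the discriminant is an element of `A`
  have hdne : Algebra.discr K B.basis ≠ 0 := Algebra.discr_not_zero_of_basis K B.basis
  have hdint : IsIntegral A (Algebra.discr K B.basis) := by
    refine Algebra.discr_isIntegral K (fun i => ?_)
    rw [B.basis_eq_pow]
    exact hBint.pow _
  obtain ⟨d, hdA⟩ := IsIntegrallyClosed.isIntegral_iff.1 hdint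
  have hd0 : d ≠ 0 := by
    rintro rfl
    rw [map_zero] at hdA
    exact hdne hdA.symm
  obtain ⟨n, u, hu⟩ := IsDiscreteValuationRing.eq_unit_mul_pow_irreducible hd0 hπ
  have hz2 : π ^ n • z ∈ Algebra.adjoin A ({B.gen} : Set L) := by
    have h1 : π ^ n • z = ((u⁻¹ : Aˣ) : A) • (Algebra.discr K B.basis • z) := by
      rw [← hdA, algebraMap_smul, hu, smul_smul, ← mul_assoc, Units.inv_mul, one_mul]
    rw [h1]
    exact Subalgebra.smul_mem _ hd _
  have := mem_adjoin_of_smul_prime_pow_smul_of_minpoly_isEisensteinAt (K := K) hpr hBint hz hz2 (by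
    rw [hgen, hmin]
    exact hei)
  rwa [hgen] at this

/-- `x ^ m = a`, `a` divisible by `π` but not by `π ^ 2`: the integral elements of `K(x)` lie in `A[x]`. -/
theorem rad_mem_of_dvd {x : L} (hx : Algebra.adjoin K {x} = ⊤) {π : A} (hπ : Irreducible π) (m : ℕ)
    (hm : 1 ≤ m) (a : A) (ha : π ∣ a) (ha2 : ¬ π ^ 2 ∣ a) (hxa : x ^ m = algebraMap A L a) (z : L)
    (hz : IsIntegral A z) : z ∈ Algebra.adjoin A ({x} : Set L) := by
  have hmon : (X ^ m - C a : A[X]).Monic := monic_X_pow_sub_C a (by omega)
  have hdeg : (X ^ m - C a : A[X]).natDegree = m := natDegree_X_pow_sub_C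
  refine eis_mem hx hπ (X ^ m - C a) hmon ?_ (by rw [hdeg]; omega) (by simp [hxa]) z hz
  refine hmon.isEisensteinAt_of_mem_of_notMem ?_ ?_ ?_
  · rw [Ne, Ideal.span_singleton_eq_top]
    exact hπ.not_isUnit
  · intro n hn
    rw [coeff_sub, coeff_X_pow, coeff_C]
    rw [hdeg] at hn
    rw [if_neg (by omega)]
    split_ifs with h0
    · rw [zero_sub]
      exact neg_mem (Ideal.mem_span_singleton.2 ha)
    · rw [sub_zero]
      exact zero_mem _
  · rw [coeff_sub, coeff_X_pow, coeff_C, if_neg (by omega), if_pos rfl, zero_sub,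
      Ideal.span_singleton_pow, Ideal.mem_span_singleton, dvd_neg]
    exact ha2

/-- `x ^ (p ^ k) = a`, `p` divisible by `π`, `c ^ (p ^ k) - a` divisible by `π` but not by `π ^ 2`: the
integral elements of `K(x)` lie in `A[x]`. -/
theorem rad_mem_of_shift {x : L} (hx : Algebra.adjoin K {x} = ⊤) {π : A} (hπ : Irreducible π)
    (p k : ℕ) (hp : p.Prime) (hpπ : π ∣ (p : A)) (a c : A) (hc : π ∣ c ^ (p ^ k) - a)
    (hc2 : ¬ π ^ 2 ∣ c ^ (p ^ k) - a) (hxa : x ^ (p ^ k) = algebraMap A L a) (z : L)
    (hz : IsIntegral A z) : z ∈ Algebra.adjoin A ({x} : Set L) := by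
  have hpk : 0 < p ^ k := pow_pos hp.pos k
  set y : L := x - algebraMap A L c with hy
  have hyx : Algebra.adjoin A ({y} : Set L) = Algebra.adjoin A ({x} : Set L) := by
    apply le_antisymm
    · rw [Algebra.adjoin_le_iff, Set.singleton_subset_iff]
      exact Subalgebra.sub_mem _ (Algebra.self_mem_adjoin_singleton A x)
        (Subalgebra.algebraMap_mem _ c)
    · rw [Algebra.adjoin_le_iff, Set.singleton_subset_iff]
      have : x = y + algebraMap A L c := by rw [hy]; ring
      rw [this]
      exact Subalgebra.add_mem _ (Algebra.self_mem_adjoin_singleton A y)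
        (Subalgebra.algebraMap_mem _ c)
  have hyK : Algebra.adjoin K ({y} : Set L) = ⊤ := by
    rw [← hx]
    apply le_antisymm
    · rw [Algebra.adjoin_le_iff, Set.singleton_subset_iff, hy,
        IsScalarTower.algebraMap_apply A K L]
      exact Subalgebra.sub_mem _ (Algebra.self_mem_adjoin_singleton K x)
        (Subalgebra.algebraMap_mem _ _)
    · rw [Algebra.adjoin_le_iff, Set.singleton_subset_iff]
      have : x = y + algebraMap K L (algebraMap A K c) := by
        rw [hy, ← IsScalarTower.algebraMap_apply A K L]; ring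
      rw [this]
      exact Subalgebra.add_mem _ (Algebra.self_mem_adjoin_singleton K y)
        (Subalgebra.algebraMap_mem _ _)
  set f : A[X] := (X + C c) ^ (p ^ k) - C a with hf
  have hmonX : (X + C c : A[X]).Monic := monic_X_add_C c
  have hdeg1 : ((X + C c : A[X]) ^ (p ^ k)).natDegree = p ^ k := by
    rw [hmonX.natDegree_pow, natDegree_X_add_C, mul_one]
  have hmon : f.Monic := by
    refine (hmonX.pow _).sub_of_left ?_
    rw [degree_eq_natDegree (hmonX.pow _).ne_zero, hdeg1]
    exact degree_C_le.trans_lt (by exact_mod_cast hpk)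
  have hdeg : f.natDegree = p ^ k := by
    rw [hf, natDegree_sub_C, hdeg1]
  rw [← hyx]
  refine eis_mem hyK hπ f hmon ?_ (by rw [hdeg]; exact hpk) (by simp [hf, hy, hxa]) z hz
  refine hmon.isEisensteinAt_of_mem_of_notMem ?_ ?_ ?_
  · rw [Ne, Ideal.span_singleton_eq_top]
    exact hπ.not_isUnit
  · intro n hn
    rw [hdeg] at hn
    rw [hf, coeff_sub, coeff_C, Ideal.mem_span_singleton]
    split_ifs with h0
    · subst h0
      rw [coeff_zero_eq_eval_zero]
      simpa using hc
    · rw [sub_zero, coeff_X_add_C_pow]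
      refine dvd_mul_of_dvd_right (hpπ.trans ?_) _
      exact_mod_cast (Nat.cast_dvd_cast (hp.dvd_choose_pow h0 (by omega)) : (p : A) ∣ _)
  · rw [hf, coeff_sub, coeff_C, if_pos rfl, coeff_zero_eq_eval_zero, Ideal.span_singleton_pow,
      Ideal.mem_span_singleton]
    simpa using hc2

end

end Pool.Agent.H11.FR
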