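import Pool.Agent.H11.FR.Loc

/-!
# Module Glob (MP_187c26_nt, whole fields): one radical over a number field

`K` a number field, `b ∈ 𝓞 K`, `m ≥ 1`, `Good b m`: `b ∉ 𝔭 ^ 2` for every maximal ideal `𝔭`, and if `b ∉ 𝔭` and
`𝔭` contains a prime `p` dividing `m`, then `b` is not a `p`-th power modulo `𝔭 ^ 2`. Then for `x ^ m = b` the
algebraic integers of `K(x)` lie in `𝓞 K [x]`.
-/

set_option autoImplicit false

open Polynomial Algebra IntermediateField NumberField

namespace Pool.Agent.H11.FR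

/-- `b ∉ P ^ 2`, and if `b ∉ P` and `p ∈ P` for a prime `p` dividing `m`, then `b` is not congruent to a
`p`-th power modulo `P ^ 2`. -/
def GoodAt {R : Type} [CommRing R] (b : R) (m : ℕ) (P : Ideal R) : Prop :=
  b ∉ P ^ 2 ∧
    (b ∉ P → ∀ p : ℕ, p.Prime → p ∣ m → (p : R) ∈ P → ∀ c : R, b - c ^ p ∉ P ^ 2)

/-- `b ∉ 𝔭 ^ 2` for every maximal ideal `𝔭` of `R`, and if `b ∉ 𝔭` and `p ∈ 𝔭` for a prime `p` dividing `m`,
then `b` is not congruent to a `p`-th power modulo `𝔭 ^ 2`. -/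
def Good {R : Type} [CommRing R] (b : R) (m : ℕ) : Prop :=
  ∀ P : Ideal R, P.IsMaximal → GoodAt b m P

section

variable {K Ω : Type} [Field K] [NumberField K] [Field Ω] [CharZero Ω] [Algebra K Ω]

section

variable (P : Ideal (𝓞 K)) [P.IsMaximal] {A : Type} [CommRing A] [IsDomain A]
  [IsDiscreteValuationRing A] [Algebra (𝓞 K) A] [IsLocalization.AtPrime A P]

omit [IsDomain A] [IsDiscreteValuationRing A] [NumberField K] in
theorem unit_of_notMem {r : 𝓞 K} (hr : r ∉ P) : IsUnit (algebraMap (𝓞 K) A r) :=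
  IsLocalization.map_units A (⟨r, hr⟩ : P.primeCompl)

omit [NumberField K] in
theorem dvd_of_mem {π : A} (hπ : Irreducible π) {r : 𝓞 K} (hr : r ∈ P) :
    π ∣ algebraMap (𝓞 K) A r := by
  have h1 : IsLocalRing.maximalIdeal A = Ideal.span {π} :=
    (IsDiscreteValuationRing.irreducible_iff_uniformizer π).1 hπ
  rw [← Ideal.mem_span_singleton, ← h1]
  exact (IsLocalization.AtPrime.to_map_mem_maximal_iff A P r).2 hr

theorem not_sq_dvd {π : A} (hπ : Irreducible π) {r : 𝓞 K} (hr : r ∉ P ^ 2) :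
    ¬ π ^ 2 ∣ algebraMap (𝓞 K) A r := by
  intro hd
  have h1 : IsLocalRing.maximalIdeal A = Ideal.span {π} :=
    (IsDiscreteValuationRing.irreducible_iff_uniformizer π).1 hπ
  have h2 : Ideal.map (algebraMap (𝓞 K) A) P = IsLocalRing.maximalIdeal A :=
    IsLocalization.AtPrime.map_eq_maximalIdeal P A
  have h3 : algebraMap (𝓞 K) A r ∈ Ideal.map (algebraMap (𝓞 K) A) (P ^ 2) := by
    rw [Ideal.map_pow, h2, h1, Ideal.span_singleton_pow, Ideal.mem_span_singleton]
    exact hd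
  rw [IsLocalization.mem_map_algebraMap_iff P.primeCompl A] at h3
  obtain ⟨⟨⟨q, hq⟩, ⟨s, hs⟩⟩, h4⟩ := h3
  have hinj : Function.Injective (algebraMap (𝓞 K) A) :=
    IsLocalization.injective A P.primeCompl_le_nonZeroDivisors
  have h5 : r * s = q := by
    apply hinj
    rw [map_mul]
    exact h4
  have h6 : Ideal.span {s} ⊔ P ^ 2 = ⊤ := by
    have h7 : IsCoprime (Ideal.span {s}) P := by
      rw [Ideal.isCoprime_iff_sup_eq]
      by_contra hne
      have h8 : P = Ideal.span {s} ⊔ P :=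
        Ideal.IsMaximal.eq_of_le inferInstance hne le_sup_right
      apply hs
      rw [h8]
      exact (le_sup_left : Ideal.span {s} ≤ Ideal.span {s} ⊔ P) (Ideal.mem_span_singleton_self s)
    exact Ideal.isCoprime_iff_sup_eq.1 (IsCoprime.pow_right h7)
  apply hr
  have h9 : (1 : 𝓞 K) ∈ Ideal.span {s} ⊔ P ^ 2 := by rw [h6]; trivial
  obtain ⟨u, hu, v, hv, huv⟩ := Submodule.mem_sup.1 h9
  obtain ⟨t, rfl⟩ := Ideal.mem_span_singleton'.1 hu
  have h10 : r = t * q + r * v := by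
    calc r = r * (t * s + v) := by rw [huv, mul_one]
      _ = t * (r * s) + r * v := by ring
      _ = _ := by rw [h5]
  rw [h10]
  exact add_mem (Ideal.mul_mem_left _ _ hq) (Ideal.mul_mem_left _ _ hv)

omit [NumberField K] [IsDomain A] [IsDiscreteValuationRing A] [CharZero Ω] in
theorem clearDen [Algebra A Ω] [IsScalarTower (𝓞 K) A Ω] (x z : Ω)
    (hz : z ∈ Algebra.adjoin A ({x} : Set Ω)) :
    ∃ r : 𝓞 K, r ∉ P ∧ algebraMap (𝓞 K) Ω r * z ∈ Algebra.adjoin (𝓞 K) ({x} : Set Ω) := by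
  have hone : (1 : 𝓞 K) ∉ P := (Ideal.ne_top_iff_one P).1 (Ideal.IsMaximal.ne_top inferInstance)
  have hmul : ∀ r s : 𝓞 K, r ∉ P → s ∉ P → r * s ∉ P := fun r s hr hs h =>
    (Ideal.IsPrime.mem_or_mem inferInstance h).elim hr hs
  induction hz using Algebra.adjoin_induction with
  | mem y hy =>
    rw [Set.mem_singleton_iff] at hy
    refine ⟨1, hone, ?_⟩
    rw [map_one, one_mul, hy]
    exact Algebra.self_mem_adjoin_singleton _ x
  | algebraMap a =>
    obtain ⟨⟨n, s⟩, h1⟩ := IsLocalization.surj P.primeCompl a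
    refine ⟨s, s.2, ?_⟩
    have h2 : algebraMap (𝓞 K) Ω s * algebraMap A Ω a = algebraMap (𝓞 K) Ω n := by
      rw [IsScalarTower.algebraMap_apply (𝓞 K) A Ω, ← map_mul, mul_comm, h1,
        ← IsScalarTower.algebraMap_apply]
    rw [h2]
    exact Subalgebra.algebraMap_mem _ _
  | add u v _ _ hu hv =>
    obtain ⟨r, hr, h1⟩ := hu
    obtain ⟨s, hs, h2⟩ := hv
    refine ⟨r * s, hmul r s hr hs, ?_⟩
    have h3 : algebraMap (𝓞 K) Ω (r * s) * (u + v) = algebraMap (𝓞 K) Ω s *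
        (algebraMap (𝓞 K) Ω r * u) + algebraMap (𝓞 K) Ω r * (algebraMap (𝓞 K) Ω s * v) := by
      rw [map_mul]; ring
    rw [h3]
    exact Subalgebra.add_mem _ (Subalgebra.mul_mem _ (Subalgebra.algebraMap_mem _ _) h1)
      (Subalgebra.mul_mem _ (Subalgebra.algebraMap_mem _ _) h2)
  | mul u v _ _ hu hv =>
    obtain ⟨r, hr, h1⟩ := hu
    obtain ⟨s, hs, h2⟩ := hv
    refine ⟨r * s, hmul r s hr hs, ?_⟩
    have h3 : algebraMap (𝓞 K) Ω (r * s) * (u * v) =
        (algebraMap (𝓞 K) Ω r * u) * (algebraMap (𝓞 K) Ω s * v) := by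
      rw [map_mul]; ring
    rw [h3]
    exact Subalgebra.mul_mem _ h1 h2

/-- A finite residue field: a prime in `P` and `p ^ k`-th roots modulo `P`. -/
private lemma residue : ∃ p : ℕ, p.Prime ∧ (p : 𝓞 K) ∈ P ∧
    ∀ (k : ℕ) (b : 𝓞 K), ∃ c : 𝓞 K, c ^ (p ^ k) - b ∈ P := by
  have hP0 : P ≠ ⊥ := Ring.ne_bot_of_isMaximal_of_not_isField inferInstance
    (RingOfIntegers.not_isField K)
  haveI hfin : Finite (𝓞 K ⧸ P) := P.finiteQuotientOfFreeOfNeBot hP0
  letI : Field (𝓞 K ⧸ P) := Ideal.Quotient.field P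
  obtain ⟨p, hp⟩ := CharP.exists (𝓞 K ⧸ P)
  have hpp : p.Prime := by
    rcases CharP.char_is_prime_or_zero (𝓞 K ⧸ P) p with h | h
    · exact h
    · exfalso
      subst h
      haveI : CharZero (𝓞 K ⧸ P) := CharP.charP_to_charZero _
      exact not_finite (𝓞 K ⧸ P)
  refine ⟨p, hpp, ?_, ?_⟩
  · rw [← Ideal.Quotient.eq_zero_iff_mem, map_natCast]
    exact CharP.cast_eq_zero _ _
  · intro k b
    haveI : Fact p.Prime := ⟨hpp⟩
    haveI : ExpChar (𝓞 K ⧸ P) p := ExpChar.prime hpp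
    have hinj : Function.Injective (fun y : 𝓞 K ⧸ P => y ^ (p ^ k)) := by
      intro u v huv
      exact iterateFrobenius_inj (𝓞 K ⧸ P) p k (by simpa [iterateFrobenius_def] using huv)
    have hsurj := Finite.injective_iff_surjective.1 hinj
    obtain ⟨y, hy⟩ := hsurj (Ideal.Quotient.mk P b)
    obtain ⟨c, rfl⟩ := Ideal.Quotient.mk_surjective y
    refine ⟨c, ?_⟩
    rw [← Ideal.Quotient.eq_zero_iff_mem, map_sub, map_pow, sub_eq_zero]
    exact hy

/-- Local statement at `P`. -/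
private lemma local_at [Algebra A K] [IsScalarTower (𝓞 K) A K] [IsFractionRing A K] [Algebra A Ω]
    [IsScalarTower A K Ω] [IsScalarTower (𝓞 K) A Ω] (b : 𝓞 K) (m : ℕ) (hm : 1 ≤ m)
    (hgood : GoodAt b m P) (x : Ω) (hx : x ^ m = algebraMap (𝓞 K) Ω b) (z : Ω) (hz : z ∈ K⟮x⟯)
    (hzi : IsIntegral ℤ z) :
    ∃ r : 𝓞 K, r ∉ P ∧ algebraMap (𝓞 K) Ω r * z ∈ Algebra.adjoin (𝓞 K) ({x} : Set Ω) := by
  apply clearDen (A := A) P x z
  obtain ⟨π, hπ⟩ := IsDiscreteValuationRing.exists_irreducible A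
  have hxA : x ^ m = algebraMap A Ω (algebraMap (𝓞 K) A b) := by
    rw [hx, ← IsScalarTower.algebraMap_apply]
  have hziA : IsIntegral A z := hzi.tower_top
  obtain ⟨hb2, hbW⟩ := hgood
  by_cases hbP : b ∈ P
  · exact mem_of_dvd (K := K) hπ x m hm _ (dvd_of_mem P hπ hbP) (not_sq_dvd P hπ hb2) hxA z hz hziA
  · obtain ⟨p, hp, hpP, hroot⟩ := residue P
    obtain ⟨k, m₁, hpm₁, hmk⟩ := Nat.exists_eq_pow_mul_and_not_dvd (by omega : m ≠ 0) p hp.ne_one
    have hm₁ : 1 ≤ m₁ := by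
      rcases Nat.eq_zero_or_pos m₁ with h | h
      · subst h; exact absurd (dvd_zero p) hpm₁
      · exact h
    have hm₁P : (m₁ : 𝓞 K) ∉ P := by
      intro h
      have hcop : Nat.Coprime p m₁ := (Nat.Prime.coprime_iff_not_dvd hp).2 hpm₁
      have h1 : IsCoprime (p : 𝓞 K) (m₁ : 𝓞 K) := by
        have h2 := (Nat.isCoprime_iff_coprime.2 hcop).map (Int.castRingHom (𝓞 K))
        simpa using h2
      obtain ⟨u, v, huv⟩ := h1
      have h3 : (1 : 𝓞 K) ∈ P := by
        rw [← huv]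
        exact add_mem (Ideal.mul_mem_left _ _ hpP) (Ideal.mul_mem_left _ _ h)
      exact (Ideal.ne_top_iff_one P).1 (Ideal.IsMaximal.ne_top inferInstance) h3
    have hmu : IsUnit (m₁ : A) := by
      have h1 := unit_of_notMem (A := A) P hm₁P
      rwa [map_natCast] at h1
    have hau : IsUnit (algebraMap (𝓞 K) A b) := unit_of_notMem P hbP
    have hpπ : π ∣ (p : A) := by
      have h1 := dvd_of_mem P hπ hpP
      rwa [map_natCast] at h1
    have hxA' : x ^ (p ^ k * m₁) = algebraMap A Ω (algebraMap (𝓞 K) A b) := by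
      rw [← hmk, hxA]
    rcases Nat.eq_zero_or_pos k with hk | hk
    · subst hk
      refine mem_of_unit (K := K) hπ x p 0 m₁ hp hpπ hm₁ hmu _ (algebraMap (𝓞 K) A b + π) hau ?_ ?_
        hxA' z hz hziA
      · rw [pow_zero, pow_one, add_sub_cancel_left]
      · rw [pow_zero, pow_one, add_sub_cancel_left]
        intro h
        rw [pow_two] at h
        have h1 : π * π ∣ π * 1 := by rwa [mul_one]
        exact hπ.not_isUnit (isUnit_of_dvd_one ((mul_dvd_mul_iff_left hπ.ne_zero).1 h1))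
    · obtain ⟨c, hc⟩ := hroot k b
      have hc2 : c ^ (p ^ k) - b ∉ P ^ 2 := by
        intro h
        have hpm : p ∣ m := by
          rw [hmk]
          exact dvd_mul_of_dvd_left (dvd_pow_self p (by omega)) _
        apply hbW hbP p hp hpm hpP (c ^ (p ^ (k - 1)))
        have h1 : b - (c ^ (p ^ (k - 1))) ^ p = - (c ^ (p ^ k) - b) := by
          rw [← pow_mul, ← pow_succ, Nat.sub_add_cancel hk]
          ring
        rw [h1]
        exact neg_mem h
      refine mem_of_unit (K := K) hπ x p k m₁ hp hpπ hm₁ hmu _ (algebraMap (𝓞 K) A c) hau ?_ ?_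
        hxA' z hz hziA
      · rw [← map_pow, ← map_sub]
        exact dvd_of_mem P hπ hc
      · rw [← map_pow, ← map_sub]
        exact not_sq_dvd P hπ hc2

end

/-- At a good maximal ideal `P` the algebraic integers of `K(x)` lie in `𝓞 K [x]` up to a factor outside `P`. -/
theorem exists_mul_mem (P : Ideal (𝓞 K)) (hP : P.IsMaximal) (b : 𝓞 K) (m : ℕ) (hm : 1 ≤ m)
    (hgood : GoodAt b m P) (x : Ω) (hx : x ^ m = algebraMap (𝓞 K) Ω b) (z : Ω) (hz : z ∈ K⟮x⟯)
    (hzi : IsIntegral ℤ z) :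
    ∃ r : 𝓞 K, r ∉ P ∧ algebraMap (𝓞 K) Ω r * z ∈ Algebra.adjoin (𝓞 K) ({x} : Set Ω) := by
  haveI := hP
  have hP0 : P ≠ ⊥ := Ring.ne_bot_of_isMaximal_of_not_isField inferInstance
    (RingOfIntegers.not_isField K)
  let A := Localization.subalgebra.ofField K P.primeCompl P.primeCompl_le_nonZeroDivisors
  haveI : IsLocalization.AtPrime A P :=
    Localization.subalgebra.isLocalization_ofField K P.primeCompl P.primeCompl_le_nonZeroDivisors
  haveI : IsDiscreteValuationRing A :=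
    IsLocalization.AtPrime.isDiscreteValuationRing_of_dedekind_domain (𝓞 K) hP0 A
  haveI : IsScalarTower (𝓞 K) A Ω := by
    refine IsScalarTower.of_algebraMap_eq fun r => ?_
    rw [IsScalarTower.algebraMap_apply (𝓞 K) K Ω]
    rfl
  exact local_at (A := A) P b m hm hgood x hx z hz hzi

omit [NumberField K] [CharZero Ω] in
/-- Local-global principle for submodules: `z ∈ S` if for every maximal ideal `P` there is `r ∉ P` with
`r z ∈ S`. -/
theorem mem_of_local (S : AddSubgroup Ω) (hS : ∀ (r : 𝓞 K), ∀ s ∈ S, algebraMap (𝓞 K) Ω r * s ∈ S)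
    (z : Ω) (h : ∀ P : Ideal (𝓞 K), P.IsMaximal → ∃ r : 𝓞 K, r ∉ P ∧
      algebraMap (𝓞 K) Ω r * z ∈ S) : z ∈ S := by
  let I : Ideal (𝓞 K) :=
    { carrier := {r | algebraMap (𝓞 K) Ω r * z ∈ S}
      add_mem' := by
        intro r s hr hs
        change algebraMap (𝓞 K) Ω (r + s) * z ∈ S
        rw [map_add, add_mul]
        exact S.add_mem hr hs
      zero_mem' := by
        change algebraMap (𝓞 K) Ω 0 * z ∈ S
        rw [map_zero, zero_mul]
        exact S.zero_mem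
      smul_mem' := by
        intro r s hs
        change algebraMap (𝓞 K) Ω (r * s) * z ∈ S
        rw [map_mul, mul_assoc]
        exact hS r _ hs }
  by_contra hne
  have hI : I ≠ ⊤ := by
    intro h
    apply hne
    have h1 : (1 : 𝓞 K) ∈ I := by rw [h]; trivial
    have h2 : algebraMap (𝓞 K) Ω 1 * z ∈ S := h1
    rwa [map_one, one_mul] at h2
  obtain ⟨P, hP, hIP⟩ := Ideal.exists_le_maximal I hI
  obtain ⟨r, hr, hrz⟩ := h P hP
  exact hr (hIP hrz)

/-- Let `b ∈ 𝓞 K`, `m ≥ 1` be good and `x ^ m = b`. The algebraic integers of `K(x)` lie in `𝓞 K [x]`. -/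
theorem mem_adjoin_of_good (b : 𝓞 K) (m : ℕ) (hm : 1 ≤ m) (hgood : Good b m) (x : Ω)
    (hx : x ^ m = algebraMap (𝓞 K) Ω b) (z : Ω) (hz : z ∈ K⟮x⟯) (hzi : IsIntegral ℤ z) :
    z ∈ Algebra.adjoin (𝓞 K) ({x} : Set Ω) :=
  mem_of_local (K := K) (Algebra.adjoin (𝓞 K) ({x} : Set Ω)).toSubring.toAddSubgroup
    (fun r s hs => (Algebra.adjoin (𝓞 K) ({x} : Set Ω)).mul_mem
      ((Algebra.adjoin (𝓞 K) ({x} : Set Ω)).algebraMap_mem r) hs) z
    (fun P hP => exists_mul_mem P hP b m hm (hgood P hP) x hx z hz hzi)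

end

end Pool.Agent.H11.FR
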