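import Pool.Agent.H11.FR.Sub
import Pool.Agent.H11.FR.Eis

/-!
# Module Loc (MP_187c26_nt, whole fields): one radical over a discrete valuation ring

`A` a discrete valuation ring with fraction field `K` of characteristic `0`, `π` its prime element,
`Ω` a field extension of `K`, `x ∈ Ω`, `x ^ m = a ∈ A`, `m ≥ 1`. `mem_of_dvd`: if `π ∣ a`, not `π ^ 2 ∣ a`, the
elements of `K(x)` integral over `A` lie in `A[x]`. `mem_of_unit`: the same if `a` is a unit, `m = p ^ k m₁`,
`p ∈ (π)`, `m₁` a unit and `c ^ (p ^ k) - a` is divisible by `π`, not by `π ^ 2`, for some `c ∈ A`.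
-/

set_option autoImplicit false

open Polynomial Algebra IntermediateField

namespace Pool.Agent.H11.FR

section

variable {A K Ω : Type} [CommRing A] [IsDomain A] [IsDiscreteValuationRing A] [Field K] [CharZero K]
  [Algebra A K] [IsFractionRing A K] [Field Ω] [Algebra K Ω] [Algebra A Ω] [IsScalarTower A K Ω]

omit [IsDomain A] [IsDiscreteValuationRing A] [CharZero K] [IsFractionRing A K] in
/-- Transport from `K(x)` to `Ω`. -/
private lemma transport (x : Ω) (hxint : IsIntegral K x) (P : ∀ (x' : K⟮x⟯) (_ : (x' : Ω) = x)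
    (_ : Algebra.adjoin K ({x'} : Set K⟮x⟯) = ⊤) (z : K⟮x⟯), IsIntegral A z →
      z ∈ Algebra.adjoin A ({x'} : Set K⟮x⟯)) (z : Ω) (hz : z ∈ K⟮x⟯) (hzi : IsIntegral A z) :
    z ∈ Algebra.adjoin A ({x} : Set Ω) := by
  have hxL : x ∈ K⟮x⟯ := IntermediateField.mem_adjoin_simple_self K x
  set x' : K⟮x⟯ := ⟨x, hxL⟩ with hx'
  have htop : Algebra.adjoin K ({x'} : Set K⟮x⟯) = ⊤ := by
    have h3 := IntermediateField.adjoin_simple_toSubalgebra_of_isAlgebraic
      (hxint.isAlgebraic)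
    rw [_root_.eq_top_iff]
    rintro ⟨w, hw⟩ -
    have hw' : w ∈ Algebra.adjoin K ({x} : Set Ω) := by
      rw [← h3]
      exact hw
    have h4 : Algebra.adjoin K ({x} : Set Ω) =
        (Algebra.adjoin K ({x'} : Set K⟮x⟯)).map K⟮x⟯.val := by
      rw [AlgHom.map_adjoin, Set.image_singleton]
      rfl
    rw [h4] at hw'
    obtain ⟨w', hw1, hw2⟩ := hw'
    have : w' = ⟨w, hw⟩ := Subtype.ext hw2
    rw [← this]
    exact hw1
  haveI tower3 : IsScalarTower A K⟮x⟯ Ω := by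
    refine IsScalarTower.of_algebraMap_eq fun r => ?_
    rw [IsScalarTower.algebraMap_apply A K Ω, IsScalarTower.algebraMap_apply A K K⟮x⟯]
    rfl
  have hinj : Function.Injective (IsScalarTower.toAlgHom A K⟮x⟯ Ω) :=
    fun u v huv => Subtype.ext huv
  have hzL : IsIntegral A (⟨z, hz⟩ : K⟮x⟯) :=
    (isIntegral_algHom_iff (IsScalarTower.toAlgHom A K⟮x⟯ Ω) hinj).1 hzi
  have key := P x' rfl htop ⟨z, hz⟩ hzL
  have h5 : (IsScalarTower.toAlgHom A K⟮x⟯ Ω) ⟨z, hz⟩ ∈
      (Algebra.adjoin A ({x'} : Set K⟮x⟯)).map (IsScalarTower.toAlgHom A K⟮x⟯ Ω) :=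
    Subalgebra.mem_map.2 ⟨_, key, rfl⟩
  rw [AlgHom.map_adjoin, Set.image_singleton] at h5
  exact h5

omit [IsDomain A] [IsDiscreteValuationRing A] [CharZero K] [IsFractionRing A K] in
private lemma int_of_pow {x : Ω} {m : ℕ} (hm : 1 ≤ m) {a : A} (hxa : x ^ m = algebraMap A Ω a) :
    IsIntegral K x := by
  refine ⟨X ^ m - C (algebraMap A K a), monic_X_pow_sub_C _ (by omega), ?_⟩
  rw [← aeval_def, map_sub, map_pow, aeval_X, aeval_C, hxa, ← IsScalarTower.algebraMap_apply]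
  exact sub_self _

theorem mem_of_dvd {π : A} (hπ : Irreducible π) (x : Ω) (m : ℕ) (hm : 1 ≤ m) (a : A)
    (ha : π ∣ a) (ha2 : ¬ π ^ 2 ∣ a) (hxa : x ^ m = algebraMap A Ω a) (z : Ω) (hz : z ∈ K⟮x⟯)
    (hzi : IsIntegral A z) : z ∈ Algebra.adjoin A ({x} : Set Ω) := by
  have hxint : IsIntegral K x := int_of_pow (A := A) hm hxa
  haveI : FiniteDimensional K K⟮x⟯ := IntermediateField.adjoin.finiteDimensional hxint
  refine transport x hxint (fun x' hx' htop z hz => ?_) z hz hzi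
  refine rad_mem_of_dvd htop hπ m hm a ha ha2 ?_ z hz
  apply Subtype.ext
  rw [SubmonoidClass.coe_pow, hx', hxa, IsScalarTower.algebraMap_apply A K Ω,
    IsScalarTower.algebraMap_apply A K K⟮x⟯]
  rfl

theorem mem_of_shift {π : A} (hπ : Irreducible π) (x : Ω) (p k : ℕ) (hp : p.Prime)
    (hpπ : π ∣ (p : A)) (a c : A) (hc : π ∣ c ^ (p ^ k) - a) (hc2 : ¬ π ^ 2 ∣ c ^ (p ^ k) - a)
    (hxa : x ^ (p ^ k) = algebraMap A Ω a) (z : Ω) (hz : z ∈ K⟮x⟯) (hzi : IsIntegral A z) :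
    z ∈ Algebra.adjoin A ({x} : Set Ω) := by
  have hxint : IsIntegral K x := int_of_pow (A := A) (Nat.succ_le_of_lt (pow_pos hp.pos k)) hxa
  haveI : FiniteDimensional K K⟮x⟯ := IntermediateField.adjoin.finiteDimensional hxint
  refine transport x hxint (fun x' hx' htop z hz => ?_) z hz hzi
  refine rad_mem_of_shift htop hπ p k hp hpπ a c hc hc2 ?_ z hz
  apply Subtype.ext
  rw [SubmonoidClass.coe_pow, hx', hxa, IsScalarTower.algebraMap_apply A K Ω,
    IsScalarTower.algebraMap_apply A K K⟮x⟯]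
  rfl

theorem mem_of_unit [CharZero Ω] {π : A} (hπ : Irreducible π) (x : Ω) (p k m₁ : ℕ) (hp : p.Prime)
    (hpπ : π ∣ (p : A)) (hm₁ : 1 ≤ m₁) (hmu : IsUnit (m₁ : A)) (a c : A) (hau : IsUnit a)
    (hc : π ∣ c ^ (p ^ k) - a) (hc2 : ¬ π ^ 2 ∣ c ^ (p ^ k) - a)
    (hxa : x ^ (p ^ k * m₁) = algebraMap A Ω a) (z : Ω) (hz : z ∈ K⟮x⟯) (hzi : IsIntegral A z) :
    z ∈ Algebra.adjoin A ({x} : Set Ω) := by
  have hpk : 1 ≤ p ^ k := Nat.succ_le_of_lt (pow_pos hp.pos k)
  set x₁ : Ω := x ^ m₁ with hx₁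
  have hx₁a : x₁ ^ (p ^ k) = algebraMap A Ω a := by
    rw [hx₁, ← pow_mul, mul_comm m₁, hxa]
  have hx₁int : IsIntegral K x₁ := int_of_pow (A := A) hpk hx₁a
  have hx₁A : IsIntegral A x₁ := by
    refine ⟨X ^ (p ^ k) - C a, monic_X_pow_sub_C _ (by omega), ?_⟩
    rw [← aeval_def, map_sub, map_pow, aeval_X, aeval_C, hx₁a]
    exact sub_self _
  set S : Subalgebra A Ω := Algebra.adjoin A ({x₁} : Set Ω) with hS
  have hSint : ∀ w ∈ S, IsIntegral A w := fun w hw => adjoin_le_integralClosure hx₁A hw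
  have hK : ∀ r : A, algebraMap A Ω r ∈ K⟮x₁⟯ := fun r => by
    rw [IsScalarTower.algebraMap_apply A K Ω]
    exact K⟮x₁⟯.algebraMap_mem _
  have hSF : ∀ w ∈ S, w ∈ K⟮x₁⟯ := by
    intro w hw
    induction hw using Algebra.adjoin_induction with
    | mem y hy =>
      rw [Set.mem_singleton_iff] at hy
      rw [hy]
      exact IntermediateField.mem_adjoin_simple_self K x₁
    | algebraMap r => exact hK r
    | add u v _ _ hu hv => exact add_mem hu hv
    | mul u v _ _ hu hv => exact mul_mem hu hv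
  have hclosed : ∀ w ∈ K⟮x₁⟯, IsIntegral A w → w ∈ S := fun w hw hwi =>
    mem_of_shift hπ x₁ p k hp hpπ a c hc hc2 hx₁a w hw hwi
  have hAinj : Function.Injective (algebraMap A Ω) := by
    rw [IsScalarTower.algebraMap_eq A K Ω]
    exact (algebraMap K Ω).injective.comp (IsFractionRing.injective A K)
  haveI : FiniteDimensional K K⟮x₁⟯ := IntermediateField.adjoin.finiteDimensional hx₁int
  have key := rad_sub K⟮x₁⟯.toSubfield S.toSubring (fun s hs => hSF s hs) (by
    intro w hw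
    have halg : IsAlgebraic K w := by
      have := (Algebra.IsAlgebraic.isAlgebraic (R := K) (⟨w, hw⟩ : K⟮x₁⟯))
      exact this.algHom K⟮x₁⟯.val
    have halgA : IsAlgebraic A w := (IsFractionRing.isAlgebraic_iff A K Ω).2 halg
    obtain ⟨s, hs0, hs⟩ := halgA.exists_integral_multiple
    refine ⟨algebraMap A Ω s, S.algebraMap_mem s, ?_, ?_⟩
    · intro h
      exact hs0 (hAinj (by rw [h, map_zero]))
    · rw [← Algebra.smul_def]
      refine hclosed _ ?_ hs
      rw [Algebra.smul_def]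
      exact mul_mem (hK s) hw) (by
    intro w hw hwi
    refine hclosed w hw ?_
    have h3 : IsIntegral S w := hwi
    haveI : Algebra.IsIntegral A S := ⟨fun s => by
      have h4 := hSint s s.2
      exact (isIntegral_algHom_iff S.val Subtype.val_injective).1 h4⟩
    exact isIntegral_trans (R := A) (A := S) w h3) x x₁ m₁ hm₁ rfl
    (Algebra.self_mem_adjoin_singleton A x₁) z (by
      have h5 : x ∈ IntermediateField.adjoin K⟮x₁⟯ ({x} : Set Ω) :=
        IntermediateField.mem_adjoin_simple_self _ x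
      have h6 : K⟮x⟯ ≤ (IntermediateField.adjoin K⟮x₁⟯ ({x} : Set Ω)).restrictScalars K := by
        rw [IntermediateField.adjoin_simple_le_iff]
        exact h5
      exact h6 hz) (by
    have : IsIntegral S z := hzi.tower_top
    exact this)
  -- descend to `A[x]`
  have hle : S.toSubring ⊔ Subring.closure {x} ≤ (Algebra.adjoin A ({x} : Set Ω)).toSubring := by
    refine sup_le ?_ ?_
    · intro w hw
      have h7 : S ≤ Algebra.adjoin A ({x} : Set Ω) := by
        rw [hS, Algebra.adjoin_le_iff, Set.singleton_subset_iff, hx₁]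
        exact Subalgebra.pow_mem _ (Algebra.self_mem_adjoin_singleton A x) _
      exact h7 hw
    · rw [Subring.closure_le, Set.singleton_subset_iff]
      exact Algebra.self_mem_adjoin_singleton A x
  have key2 : (m₁ : Ω) * x₁ * z ∈ Algebra.adjoin A ({x} : Set Ω) := hle key
  obtain ⟨u, hu⟩ := hmu
  obtain ⟨v, hv⟩ := hau
  have h8 : z = algebraMap A Ω ((u⁻¹ : Aˣ) : A) * algebraMap A Ω ((v⁻¹ : Aˣ) : A) *
      x₁ ^ (p ^ k - 1) * ((m₁ : Ω) * x₁ * z) := by
    have h9 : algebraMap A Ω ((u⁻¹ : Aˣ) : A) * (m₁ : Ω) = 1 := by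
      rw [← map_natCast (algebraMap A Ω), ← hu, ← map_mul, Units.inv_mul, map_one]
    have h10 : algebraMap A Ω ((v⁻¹ : Aˣ) : A) * (x₁ ^ (p ^ k - 1) * x₁) = 1 := by
      rw [← pow_succ, Nat.sub_add_cancel hpk, hx₁a, ← hv, ← map_mul, Units.inv_mul, map_one]
    calc z = (algebraMap A Ω ((u⁻¹ : Aˣ) : A) * (m₁ : Ω)) *
          (algebraMap A Ω ((v⁻¹ : Aˣ) : A) * (x₁ ^ (p ^ k - 1) * x₁)) * z := by
          rw [h9, h10, one_mul, one_mul]
      _ = _ := by ring
  rw [h8]
  have hx₁mem : x₁ ∈ Algebra.adjoin A ({x} : Set Ω) := by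
    rw [hx₁]
    exact Subalgebra.pow_mem _ (Algebra.self_mem_adjoin_singleton A x) _
  exact Subalgebra.mul_mem _ (Subalgebra.mul_mem _ (Subalgebra.mul_mem _
    (Subalgebra.algebraMap_mem _ _) (Subalgebra.algebraMap_mem _ _))
    (Subalgebra.pow_mem _ hx₁mem _)) key2

end

end Pool.Agent.H11.FR
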