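import Pool.Agent.H11.FR.Deriv

/-!
# Module Sub (MP_187c26_nt, whole fields): the derivative lemma for subrings of a field

Let `B` be a subring and `F` a subfield of a field `Ω` of characteristic `0`, `F` the fraction field of `B` and
`B` integrally closed in `F`. If `x ^ m = a ∈ B`, `m ≥ 1`, and `z ∈ F(x)` is integral over `B`, then
`m a z ∈ B[x]`.
-/

set_option autoImplicit false

open Polynomial Algebra IntermediateField

namespace Pool.Agent.H11.FR

theorem rad_sub {Ω : Type} [Field Ω] [CharZero Ω] (F : Subfield Ω) (B : Subring Ω)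
    (hBF : ∀ s ∈ B, s ∈ F) (h1 : ∀ z ∈ F, ∃ s ∈ B, s ≠ 0 ∧ s * z ∈ B)
    (h2 : ∀ z ∈ F, IsIntegral B z → z ∈ B) (x a : Ω) (m : ℕ) (hm : 1 ≤ m) (hxa : x ^ m = a)
    (ha : a ∈ B) (z : Ω) (hz : z ∈ IntermediateField.adjoin F ({x} : Set Ω))
    (hzi : IsIntegral B z) : (m : Ω) * a * z ∈ B ⊔ Subring.closure {x} := by
  classical
  letI algBF : Algebra B F := (Subring.inclusion (S := B) (T := F.toSubring)
    (fun s hs => hBF s hs)).toAlgebra
  have hmap : ∀ s : B, ((algebraMap B F s : F) : Ω) = (s : Ω) := fun s => rfl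
  haveI tower : IsScalarTower B F Ω := IsScalarTower.of_algebraMap_eq' rfl
  haveI faith : FaithfulSMul B F := (faithfulSMul_iff_algebraMap_injective B F).2 (by
    intro s t hst
    apply Subtype.ext
    rw [← hmap, ← hmap, hst])
  haveI fr : IsFractionRing B F := by
    refine IsFractionRing.of_field B F fun w => ?_
    obtain ⟨s, hs, hs0, hsw⟩ := h1 w w.2
    refine ⟨⟨s * w, hsw⟩, ⟨s, hs⟩, ?_⟩
    apply Subtype.ext
    change (w : Ω) = (s * w) / s
    field_simp
  haveI ic : IsIntegrallyClosed B := by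
    rw [isIntegrallyClosed_iff F]
    intro w hw
    have h3 : IsIntegral B (w : Ω) := by
      have := hw.map (IsScalarTower.toAlgHom B F Ω)
      exact this
    exact ⟨⟨w, h2 w w.2 h3⟩, Subtype.ext rfl⟩
  haveI cz : CharZero F := inferInstance
  set L : IntermediateField F Ω := IntermediateField.adjoin F ({x} : Set Ω) with hL
  have hxint : IsIntegral F x := by
    refine ⟨X ^ m - C (⟨a, hBF a ha⟩ : F), monic_X_pow_sub_C _ (by omega), ?_⟩
    rw [← aeval_def, map_sub, map_pow, aeval_X, aeval_C, hxa]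
    exact sub_self _
  haveI fd : FiniteDimensional F L := IntermediateField.adjoin.finiteDimensional hxint
  letI algBL : Algebra B L := ((algebraMap F L).comp (algebraMap B F)).toAlgebra
  haveI tower2 : IsScalarTower B F L := IsScalarTower.of_algebraMap_eq' rfl
  haveI tower3 : IsScalarTower B L Ω := IsScalarTower.of_algebraMap_eq' rfl
  have hxL : x ∈ L := IntermediateField.mem_adjoin_simple_self F x
  set x' : L := ⟨x, hxL⟩ with hx'
  have htop : Algebra.adjoin F ({x'} : Set L) = ⊤ := by
    have h3 := IntermediateField.adjoin_simple_toSubalgebra_of_isAlgebraic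
      (hxint.isAlgebraic)
    rw [_root_.eq_top_iff]
    rintro ⟨w, hw⟩ -
    have hw' : w ∈ Algebra.adjoin F ({x} : Set Ω) := by
      rw [← h3]
      exact hw
    have h4 : Algebra.adjoin F ({x} : Set Ω) =
        (Algebra.adjoin F ({x'} : Set L)).map L.val := by
      rw [AlgHom.map_adjoin, Set.image_singleton]
      rfl
    rw [h4] at hw'
    obtain ⟨w', hw1, hw2⟩ := hw'
    have : w' = ⟨w, hw⟩ := Subtype.ext hw2
    rw [← this]
    exact hw1
  have hzL : IsIntegral B (⟨z, hz⟩ : L) := by
    have hinj : Function.Injective (IsScalarTower.toAlgHom B L Ω) := fun u v huv => Subtype.ext huv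
    exact (isIntegral_algHom_iff (IsScalarTower.toAlgHom B L Ω) hinj).1 hzi
  have key := rad_mul_mem (A := B) (K := F) (L := L) htop m hm ⟨a, ha⟩
    (Subtype.ext (by change x ^ m = a; exact hxa)) ⟨z, hz⟩ hzL
  -- transport to `Ω`
  have h5 : (IsScalarTower.toAlgHom B L Ω) ((m : L) * algebraMap B L ⟨a, ha⟩ * ⟨z, hz⟩) ∈
      (Algebra.adjoin B ({x'} : Set L)).map (IsScalarTower.toAlgHom B L Ω) :=
    Subalgebra.mem_map.2 ⟨_, key, rfl⟩
  rw [AlgHom.map_adjoin, Set.image_singleton] at h5
  have h6 : (IsScalarTower.toAlgHom B L Ω) ((m : L) * algebraMap B L ⟨a, ha⟩ * ⟨z, hz⟩) =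
      (m : Ω) * a * z := by
    rw [map_mul, map_mul, map_natCast]
    rfl
  rw [h6] at h5
  have h7 : ∀ w ∈ Algebra.adjoin B ({x} : Set Ω), w ∈ B ⊔ Subring.closure {x} := by
    intro w hw
    induction hw using Algebra.adjoin_induction with
    | mem y hy => exact (le_sup_right : _ ≤ B ⊔ Subring.closure {x}) (Subring.subset_closure hy)
    | algebraMap r => exact (le_sup_left : _ ≤ B ⊔ Subring.closure {x}) r.2
    | add u v _ _ hu hv => exact Subring.add_mem _ hu hv
    | mul u v _ _ hu hv => exact Subring.mul_mem _ hu hv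
  exact h7 _ h5

end Pool.Agent.H11.FR
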