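import Pool.Agent.H11.FR.Comp

/-!
# Module Whole (MP_187c26_nt, whole fields): every element of `K(ξ, x_1, …, x_r)` is regular

`K` a number field, `Ω` an extension, algebraic over `K`, `R` a subring which contains the algebraic integers
of `K(μ_∞)` and the `x i`, `x i ^ m i = b i`, `b i`, `m i` good, `ξ ^ n = 1`, and `n`, the `m i * b i` pairwise
coprime. Then every `α ∈ K(ξ, x_1, …, x_r)`, `α ≠ 0`, is regular: `t α ∈ R`, `(1 - t) α⁻¹ ∈ R` for some
`t ∈ R`.
-/

set_option autoImplicit false

open IntermediateField NumberField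

namespace Pool.Agent.H11.FR

theorem whole (K Ω : Type) [Field K] [NumberField K] [Field Ω] [CharZero Ω] [Algebra K Ω]
    [Algebra.IsAlgebraic K Ω] (R : Subring Ω)
    (hcyc : ∀ z ∈ IntermediateField.adjoin K {ξ : Ω | ∃ n : ℕ, 1 ≤ n ∧ ξ ^ n = 1},
      IsIntegral ℤ z → z ∈ R) (r : ℕ) (b : Fin r → 𝓞 K) (n : ℕ) (hn : 1 ≤ n) (m : Fin r → ℕ)
    (hm : ∀ i, 1 ≤ m i) (hgood : ∀ i, Good (b i) (m i))
    (hnb : ∀ i, IsCoprime (n : 𝓞 K) ((m i : 𝓞 K) * b i))
    (hcop : ∀ i j, i ≠ j → IsCoprime ((m i : 𝓞 K) * b i) ((m j : 𝓞 K) * b j)) (ξ : Ω)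
    (hξ : ξ ^ n = 1) (x : Fin r → Ω) (hx : ∀ i, x i ^ m i = algebraMap (𝓞 K) Ω (b i))
    (hxR : ∀ i, x i ∈ R) (α : Ω)
    (hα : α ∈ IntermediateField.adjoin K ({ξ} ∪ Set.range x)) (hα0 : α ≠ 0) :
    ∃ t ∈ R, t * α ∈ R ∧ (1 - t) * α⁻¹ ∈ R := by
  classical
  have hint : ∀ s : 𝓞 K, IsIntegral ℤ (algebraMap (𝓞 K) Ω s) := fun s =>
    (RingOfIntegers.isIntegral s).map (IsScalarTower.toAlgHom ℤ (𝓞 K) Ω)
  have hK : ∀ s : 𝓞 K, algebraMap (𝓞 K) Ω s ∈ R := fun s => by
    refine hcyc _ ?_ (hint s)
    rw [IsScalarTower.algebraMap_apply (𝓞 K) K Ω]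
    exact IntermediateField.algebraMap_mem _ _
  have hξcyc : ξ ∈ IntermediateField.adjoin K {ξ : Ω | ∃ n : ℕ, 1 ≤ n ∧ ξ ^ n = 1} :=
    IntermediateField.subset_adjoin _ _ ⟨n, hn, hξ⟩
  have hξint : IsIntegral ℤ ξ := by
    refine IsIntegral.of_pow (by omega : 0 < n) ?_
    rw [hξ]
    exact isIntegral_one
  let y : Option (Fin r) → Ω := fun o => o.elim ξ x
  let e : Option (Fin r) → ℕ := fun o => o.elim n m
  let a : Option (Fin r) → 𝓞 K := fun o => o.elim 1 b
  have hxint : ∀ i, IsIntegral ℤ (x i) := fun i => by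
    refine IsIntegral.of_pow (by have := hm i; omega : 0 < m i) ?_
    rw [hx]
    exact hint _
  have hall := comp (K := K) R hK y (by
    rintro (_ | i)
    · exact hcyc _ hξcyc hξint
    · exact hxR i) e (by
    rintro (_ | i)
    · exact hn
    · exact hm i) a (by
    rintro (_ | i)
    · change ξ ^ n = algebraMap (𝓞 K) Ω 1
      rw [hξ, map_one]
    · exact hx i) (by
    rintro (_ | i) (_ | j) hij
    · exact absurd rfl hij
    · change IsCoprime ((n : 𝓞 K) * 1) ((m j : 𝓞 K) * b j)
      rw [mul_one]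
      exact hnb j
    · change IsCoprime ((m i : 𝓞 K) * b i) ((n : 𝓞 K) * 1)
      rw [mul_one]
      exact (hnb i).symm
    · exact hcop i j (fun h => hij (by rw [h]))) (by
    rintro (_ | i) z hz hzi
    · refine hcyc z ?_ hzi
      exact (IntermediateField.adjoin_simple_le_iff.2 hξcyc) hz
    · have h1 := mem_adjoin_of_good (b i) (m i) (hm i) (hgood i) (x i) (hx i) z hz hzi
      induction h1 using Algebra.adjoin_induction with
      | mem w hw =>
        rw [Set.mem_singleton_iff] at hw
        rw [hw]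
        exact hxR i
      | algebraMap s => exact hK s
      | add u v hu hv h2 h3 =>
        exact R.add_mem (h2 (by
          have : Algebra.adjoin (𝓞 K) ({x i} : Set Ω) ≤
              (K⟮x i⟯.toSubalgebra.restrictScalars (𝓞 K)) := by
            rw [Algebra.adjoin_le_iff, Set.singleton_subset_iff]
            exact IntermediateField.mem_adjoin_simple_self K (x i)
          exact this hu) (by
          have h4 : IsIntegral (𝓞 K) (x i) := (hxint i).tower_top
          have h5 : IsIntegral (𝓞 K) u := adjoin_le_integralClosure h4 hu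
          exact isIntegral_trans (R := ℤ) (A := 𝓞 K) u h5)) (h3 (by
          have : Algebra.adjoin (𝓞 K) ({x i} : Set Ω) ≤
              (K⟮x i⟯.toSubalgebra.restrictScalars (𝓞 K)) := by
            rw [Algebra.adjoin_le_iff, Set.singleton_subset_iff]
            exact IntermediateField.mem_adjoin_simple_self K (x i)
          exact this hv) (by
          have h4 : IsIntegral (𝓞 K) (x i) := (hxint i).tower_top
          have h5 : IsIntegral (𝓞 K) v := adjoin_le_integralClosure h4 hv
          exact isIntegral_trans (R := ℤ) (A := 𝓞 K) v h5))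
      | mul u v hu hv h2 h3 =>
        exact R.mul_mem (h2 (by
          have : Algebra.adjoin (𝓞 K) ({x i} : Set Ω) ≤
              (K⟮x i⟯.toSubalgebra.restrictScalars (𝓞 K)) := by
            rw [Algebra.adjoin_le_iff, Set.singleton_subset_iff]
            exact IntermediateField.mem_adjoin_simple_self K (x i)
          exact this hu) (by
          have h4 : IsIntegral (𝓞 K) (x i) := (hxint i).tower_top
          have h5 : IsIntegral (𝓞 K) u := adjoin_le_integralClosure h4 hu
          exact isIntegral_trans (R := ℤ) (A := 𝓞 K) u h5)) (h3 (by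
          have : Algebra.adjoin (𝓞 K) ({x i} : Set Ω) ≤
              (K⟮x i⟯.toSubalgebra.restrictScalars (𝓞 K)) := by
            rw [Algebra.adjoin_le_iff, Set.singleton_subset_iff]
            exact IntermediateField.mem_adjoin_simple_self K (x i)
          exact this hv) (by
          have h4 : IsIntegral (𝓞 K) (x i) := (hxint i).tower_top
          have h5 : IsIntegral (𝓞 K) v := adjoin_le_integralClosure h4 hv
          exact isIntegral_trans (R := ℤ) (A := 𝓞 K) v h5)))
  set F : IntermediateField K Ω :=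
    IntermediateField.adjoin K {w | ∃ o ∈ (Finset.univ : Finset (Option (Fin r))), w = y o} with hF
  have hfin : ∀ w ∈ {w : Ω | ∃ o ∈ (Finset.univ : Finset (Option (Fin r))), w = y o},
      IsIntegral K w := by
    rintro w ⟨o, -, rfl⟩
    rcases o with _ | i
    · exact hξint.tower_top
    · exact (hxint i).tower_top
  haveI : Finite {w : Ω | ∃ o ∈ (Finset.univ : Finset (Option (Fin r))), w = y o} := by
    have h1 : {w : Ω | ∃ o ∈ (Finset.univ : Finset (Option (Fin r))), w = y o} = Set.range y := by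
      ext w
      constructor
      · rintro ⟨o, -, rfl⟩; exact ⟨o, rfl⟩
      · rintro ⟨o, rfl⟩; exact ⟨o, Finset.mem_univ _, rfl⟩
    rw [h1]
    infer_instance
  haveI : FiniteDimensional K F := IntermediateField.finiteDimensional_adjoin hfin
  refine regular R F (hall _ Finset.univ rfl) α ?_ hα0
  have h2 : ({ξ} ∪ Set.range x : Set Ω) ⊆
      {w | ∃ o ∈ (Finset.univ : Finset (Option (Fin r))), w = y o} := by
    rintro w (hw | ⟨i, rfl⟩)
    · rw [Set.mem_singleton_iff] at hw
      exact ⟨none, Finset.mem_univ _, hw⟩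
    · exact ⟨some i, Finset.mem_univ _, rfl⟩
  exact IntermediateField.adjoin.mono K _ _ h2 hα

end Pool.Agent.H11.FR
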