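import Pool.Agent.H11.FR.Loc

/-!
# Module Wl (MP_187c26_nt, whole fields): exponent `p` above a prime which divides the exponent

`A` a discrete valuation ring with prime element `p` (a prime number) and fraction field `K` of characteristic `0`,
`b ∈ A` a unit, `c ∈ A`, `p ∣ c ^ p - b`, `θ ^ p = b`, `[K(θ) : K] = p`, `z ∈ K(θ)` integral over `A`. Then
`z ∈ A[θ] + A ρ`, `ρ = π ^ (p - 1) / p`, `π = θ - c`. (No condition on `v_p(c ^ p - b)`: `p ^ 2` may divide it.)

Proof. `A[θ] = A[π]`, `θ = π + c`, and `1, π, …, π ^ (p - 1)` is a basis of `A[π]` over `A` (`π` is integral of degree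
`p`). From `0 = (π + c) ^ p - b` and `p ∣ (p choose i)`, `p ∣ c ^ p - b`:
(1) `π ^ p = p g` with `g ∈ A[π]`; hence `π ^ (p + j) / p ∈ A[π]` for all `j`.
(2) By `rad_mul_mem` / `rad_sub` (x = θ, m = p, a = b): `p b z ∈ A[θ]`, and `b` is a unit, so `p z ∈ A[π]`,
`p z = ∑_(i < p) c_i π ^ i`, `c_i ∈ A`. If `p ∣ c_i` for all `i ≤ p - 2`, then
`z = ∑_(i ≤ p - 2) (c_i / p) π ^ i + c_(p - 1) ρ` and we are done. Otherwise let `j ≤ p - 2` be minimal with `p ∤ c_j`
(`c_j` is then a unit of `A`).
(3) `z π ^ (p - 1 - j) = ∑_(i < j) (c_i / p) π ^ (i + p - 1 - j) + c_j ρ + ∑_(i > j) c_i π ^ (i + p - 1 - j) / p`, the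
exponents in the last sum are `≥ p`, so by (1) `c_j ρ` and `ρ` are integral over `A`.
(4) `z π ^ (p - 2 - j) = (integral) + c_j π ^ (p - 2) / p + c_(j + 1) ρ + (exponents ≥ p)`: hence
`η = π ^ (p - 2) / p` is integral over `A`. And `ρ = η π`.
(5) Let `R` be the integral closure of `A` in `E = K(θ)`: a free `A`-module of rank `p` (`A` is a PID,
`IsIntegralClosure.module_free`, finite). `ρ ^ p = η ^ p π ^ p = p (η ^ p g) ∈ p R`. So the matrix of the
multiplication by `ρ` in an `A`-basis of `R` is nilpotent modulo `p`, and its trace lies in `p A`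
(`Matrix.isNilpotent_trace_of_isNilpotent` over the field `A / p`): `Tr_(E/K)(ρ) ∈ p A`.
(6) But `Tr(θ ^ i) = 0` for `0 < i < p` (in the basis `θ ^ j`, `j < p`, multiplication by `θ ^ i` maps `θ ^ j` to
`θ ^ (i + j)` or `b θ ^ (i + j - p)`: zero diagonal), `Tr(1) = p`, so
`Tr(π ^ (p - 1)) = ∑ (p - 1 choose i) (-c) ^ (p - 1 - i) Tr(θ ^ i) = p (-c) ^ (p - 1)` and `Tr(ρ) = (-c) ^ (p - 1)`, a
unit of `A` (`c ^ p ≡ b` modulo `p`, `b` a unit). Contradiction.
-/

set_option autoImplicit false

open Polynomial Algebra IntermediateField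

namespace Pool.Agent.H11.FR

section

variable {A K L : Type} [CommRing A] [IsDomain A] [IsDiscreteValuationRing A] [Field K] [CharZero K]
  [Algebra A K] [IsFractionRing A K] [Field L] [Algebra K L] [Algebra A L] [IsScalarTower A K L]
  [FiniteDimensional K L]

private lemma trace_mem {p : ℕ} (hπ : Irreducible (p : A)) (y y' : L) (hy : IsIntegral A y)
    (hy' : IsIntegral A y') (n : ℕ) (h : y ^ n = (p : L) * y') :
    ∃ a : A, Algebra.trace K L y = algebraMap A K ((p : A) * a) := by
  have : CharZero L := charZero_of_injective_algebraMap (algebraMap K L).injective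
  have hinj : Function.Injective (algebraMap A L) := by
    rw [IsScalarTower.algebraMap_eq A K L]
    exact (algebraMap K L).injective.comp (IsFractionRing.injective A K)
  have : FaithfulSMul A L := (faithfulSMul_iff_algebraMap_injective A L).2 hinj
  have : Module.IsTorsionFree A L := inferInstance
  have f1 : Module.Finite A (integralClosure A L) :=
    IsIntegralClosure.finite A K L (integralClosure A L)
  have f2 : Module.Free A (integralClosure A L) :=
    IsIntegralClosure.module_free A K L (integralClosure A L)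
  have f3 : IsIntegrallyClosed (integralClosure A L) :=
    integralClosure.isIntegrallyClosedOfFiniteExtension K
  have h1 : algebraMap A K (Algebra.trace A (integralClosure A L) ⟨y, hy⟩) =
      Algebra.trace K L y := by
    rw [← Algebra.intTrace_eq_trace, Algebra.algebraMap_intTrace (L := L)]
    rfl
  have h3 : IsLocalRing.maximalIdeal A = Ideal.span {(p : A)} := hπ.maximalIdeal_eq
  have h2 : Ideal.Quotient.mk (IsLocalRing.maximalIdeal A)
      (Algebra.trace A (integralClosure A L) ⟨y, hy⟩) = 0 := by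
    rw [← Algebra.trace_quotient_mk]
    let _ := Ideal.Quotient.field (IsLocalRing.maximalIdeal A)
    refine (isNilpotent_trace_of_isNilpotent ⟨n, ?_⟩).eq_zero
    rw [← map_pow, Ideal.Quotient.eq_zero_iff_mem]
    have h4 : (⟨y, hy⟩ : integralClosure A L) ^ n =
        algebraMap A (integralClosure A L) (p : A) * ⟨y', hy'⟩ := by
      apply Subtype.ext
      rw [SubmonoidClass.coe_pow]
      change y ^ n = algebraMap A L (p : A) * y'
      rw [h, map_natCast]
    rw [h4]
    refine Ideal.mul_mem_right _ _ (Ideal.mem_map_of_mem _ ?_)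
    rw [h3]
    exact Ideal.mem_span_singleton_self _
  rw [Ideal.Quotient.eq_zero_iff_mem, h3, Ideal.mem_span_singleton] at h2
  obtain ⟨a, ha⟩ := h2
  exact ⟨a, by rw [← h1, ha]⟩

omit [IsDomain A] [IsDiscreteValuationRing A] [CharZero K] in
private lemma trace_pow {p : ℕ} (hp : p.Prime) (b : A) (hb : b ≠ 0) (θ : L)
    (htop : Algebra.adjoin K {θ} = ⊤) (hθ : θ ^ p = algebraMap A L b)
    (hdeg : Module.finrank K L = p) (i : ℕ) (hi : 0 < i) (hip : i < p) :
    Algebra.trace K L (θ ^ i) = 0 := by
  have hinj : Function.Injective (algebraMap A L) := by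
    rw [IsScalarTower.algebraMap_eq A K L]
    exact (algebraMap K L).injective.comp (IsFractionRing.injective A K)
  have hθ0 : θ ≠ 0 := by
    rintro rfl
    rw [zero_pow hp.ne_zero] at hθ
    exact hb (hinj (by rw [← hθ, map_zero]))
  set y : L := θ ^ i with hy
  set a : K := (algebraMap A K b) ^ i with ha
  have hya : y ^ p = algebraMap K L a := by
    rw [hy, ← pow_mul, mul_comm, pow_mul, hθ, ha, map_pow, ← IsScalarTower.algebraMap_apply]
  have hroot : aeval y (X ^ p - C a : K[X]) = 0 := by
    rw [map_sub, map_pow, aeval_X, aeval_C, hya, sub_self]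
  have hmon : (X ^ p - C a : K[X]).Monic := monic_X_pow_sub_C _ hp.ne_zero
  have hdvd : minpoly K y ∣ X ^ p - C a := minpoly.dvd K y hroot
  have hyint : IsIntegral K y := .of_finite K y
  have hfin : Module.finrank K K⟮y⟯ ∣ p := by
    rw [← hdeg]
    exact Dvd.intro _ (Module.finrank_mul_finrank K K⟮y⟯ L)
  have hdegy : (minpoly K y).natDegree = p := by
    rw [← IntermediateField.adjoin.finrank hyint]
    rcases (Nat.dvd_prime hp).1 hfin with h1 | h1
    · exfalso
      rw [IntermediateField.finrank_eq_one_iff] at h1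
      have hyb : y ∈ (⊥ : IntermediateField K L) := by
        rw [← h1]
        exact IntermediateField.mem_adjoin_simple_self K y
      have hpb : θ ^ p ∈ (⊥ : IntermediateField K L) := by
        rw [hθ, IsScalarTower.algebraMap_apply A K L]
        exact IntermediateField.algebraMap_mem _ _
      have hco : IsCoprime (i : ℤ) (p : ℤ) := by
        rw [Nat.isCoprime_iff_coprime]
        exact (Nat.coprime_of_lt_prime hi.ne' hip hp).symm
      obtain ⟨u, v, huv⟩ := hco
      have hθb : θ ∈ (⊥ : IntermediateField K L) := by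
        have h2 : θ = y ^ u * (θ ^ p) ^ v := by
          rw [hy, ← zpow_natCast, ← zpow_natCast, ← zpow_mul, ← zpow_mul, ← zpow_add₀ hθ0]
          rw [show (i : ℤ) * u + (p : ℤ) * v = 1 by linarith, zpow_one]
        rw [h2]
        exact mul_mem (zpow_mem hyb u) (zpow_mem hpb v)
      have h3 : (⊤ : Subalgebra K L) ≤ (⊥ : IntermediateField K L).toSubalgebra := by
        rw [← htop, Algebra.adjoin_le_iff, Set.singleton_subset_iff]
        exact hθb
      have h4 : (⊤ : IntermediateField K L) ≤ ⊥ := fun w _ => h3 Algebra.mem_top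
      have h5 : Module.finrank K L = 1 := by
        rw [← IntermediateField.finrank_top', IntermediateField.finrank_eq_one_iff]
        exact le_bot_iff.1 h4
      rw [hdeg] at h5
      exact hp.one_lt.ne' h5
    · exact h1
  have hmin : minpoly K y = X ^ p - C a := by
    refine (Polynomial.eq_of_monic_of_dvd_of_natDegree_le (minpoly.monic hyint) hmon hdvd ?_).symm
    rw [natDegree_X_pow_sub_C, hdegy]
  rw [trace_eq_finrank_mul_minpoly_nextCoeff, hmin]
  have hnext : (X ^ p - C a : K[X]).nextCoeff = 0 := by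
    rw [nextCoeff_of_natDegree_pos (by rw [natDegree_X_pow_sub_C]; exact hp.pos),
      natDegree_X_pow_sub_C, coeff_sub, coeff_X_pow, coeff_C]
    have h1 : p - 1 ≠ p := by have := hp.pos; omega
    have h2 : p - 1 ≠ 0 := by have := hp.two_le; omega
    simp [h1, h2]
  rw [hnext, neg_zero, mul_zero]

private lemma core {p : ℕ} (hp : p.Prime) (hπ : Irreducible (p : A)) (b c : A) (hb : IsUnit b)
    (hc : (p : A) ∣ c ^ p - b) (θ : L) (htop : Algebra.adjoin K {θ} = ⊤)
    (hθ : θ ^ p = algebraMap A L b) (hdeg : Module.finrank K L = p) (z : L)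
    (hzi : IsIntegral A z) :
    ∃ w ∈ Algebra.adjoin A ({θ} : Set L), ∃ a : A,
      z = w + algebraMap A L a * ((θ - algebraMap A L c) ^ (p - 1) / (p : L)) := by
  have : CharZero L := charZero_of_injective_algebraMap (algebraMap K L).injective
  have hinj : Function.Injective (algebraMap A L) := by
    rw [IsScalarTower.algebraMap_eq A K L]
    exact (algebraMap K L).injective.comp (IsFractionRing.injective A K)
  have hp0 : (p : L) ≠ 0 := Nat.cast_ne_zero.2 hp.ne_zero
  have hp1 : 1 ≤ p := hp.pos
  have hp2 : 2 ≤ p := hp.two_le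
  set π : L := θ - algebraMap A L c with hπdef
  have hθS : θ ∈ Algebra.adjoin A ({θ} : Set L) := Algebra.self_mem_adjoin_singleton A θ
  have hπS : π ∈ Algebra.adjoin A ({θ} : Set L) := sub_mem hθS (Subalgebra.algebraMap_mem _ c)
  have hθint : IsIntegral A θ := by
    refine ⟨X ^ p - C b, monic_X_pow_sub_C _ hp.ne_zero, ?_⟩
    rw [← aeval_def, map_sub, map_pow, aeval_X, aeval_C, hθ]
    exact sub_self _
  have hSint : ∀ w ∈ Algebra.adjoin A ({θ} : Set L), IsIntegral A w :=
    fun w hw => adjoin_le_integralClosure hθint hw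
  have hπint : IsIntegral A π := hSint _ hπS
  -- (1)
  obtain ⟨g, hgS, hg⟩ : ∃ g ∈ Algebra.adjoin A ({θ} : Set L), π ^ p = (p : L) * g := by
    obtain ⟨r, hr⟩ := exists_add_pow_prime_eq hp
      (⟨π, hπS⟩ : Algebra.adjoin A ({θ} : Set L))
      (algebraMap A (Algebra.adjoin A ({θ} : Set L)) c)
    obtain ⟨d, hd⟩ := hc
    have hr' : (π + algebraMap A L c) ^ p =
        π ^ p + (algebraMap A L c) ^ p + p * π * algebraMap A L c * (r : L) := by
      have h2 := congrArg (Subalgebra.val _) hr
      simpa using h2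
    refine ⟨-(algebraMap A L d + π * algebraMap A L c * r),
      neg_mem (add_mem (Subalgebra.algebraMap_mem _ d)
        (mul_mem (mul_mem hπS (Subalgebra.algebraMap_mem _ c)) r.2)), ?_⟩
    have h3 : π + algebraMap A L c = θ := by rw [hπdef]; ring
    rw [h3, hθ] at hr'
    have h4 : (algebraMap A L c) ^ p - algebraMap A L b = (p : L) * algebraMap A L d := by
      rw [← map_pow, ← map_sub, hd, map_mul, map_natCast]
    linear_combination -hr' - h4
  -- (2)
  obtain ⟨cc, hcc⟩ : ∃ cc : ℕ → A, (p : L) * z =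
      ∑ i ∈ Finset.range p, algebraMap A L (cc i) * π ^ i := by
    have h1 := rad_mul_mem (A := A) (K := K) (L := L) htop p hp1 b hθ z hzi
    obtain ⟨u, hu⟩ := hb
    have h2 : (p : L) * z = algebraMap A L ((u⁻¹ : Aˣ) : A) * ((p : L) * algebraMap A L b * z) := by
      have h3 : algebraMap A L ((u⁻¹ : Aˣ) : A) * algebraMap A L b = 1 := by
        rw [← hu, ← map_mul, Units.inv_mul, map_one]
      linear_combination (-(p : L) * z) * h3
    have h4 : (p : L) * z ∈ Algebra.adjoin A ({π} : Set L) := by
      have h5 : Algebra.adjoin A ({θ} : Set L) ≤ Algebra.adjoin A ({π} : Set L) := by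
        rw [Algebra.adjoin_le_iff, Set.singleton_subset_iff]
        have h6 : θ = π + algebraMap A L c := by rw [hπdef]; ring
        rw [h6]
        exact add_mem (Algebra.self_mem_adjoin_singleton A π) (Subalgebra.algebraMap_mem _ c)
      refine h5 ?_
      rw [h2]
      exact Subalgebra.mul_mem _ (Subalgebra.algebraMap_mem _ _) h1
    rw [Algebra.adjoin_singleton_eq_range_aeval] at h4
    obtain ⟨f, hf⟩ := h4
    set G : A[X] := (X + C c) ^ p - C b with hG
    have hGdeg : ((X + C c) ^ p : A[X]).natDegree = p := by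
      rw [(monic_X_add_C c).natDegree_pow, natDegree_X_add_C, mul_one]
    have hGmon : G.Monic := by
      refine ((monic_X_add_C c).pow p).sub_of_left ?_
      refine lt_of_le_of_lt degree_C_le ?_
      rw [degree_eq_natDegree ((monic_X_add_C c).pow p).ne_zero, hGdeg]
      exact_mod_cast hp.pos
    have hGnat : G.natDegree = p := by
      rw [hG, natDegree_sub_C, hGdeg]
    have hGroot : aeval π G = 0 := by
      rw [hG, map_sub, map_pow, map_add, aeval_X, aeval_C, aeval_C]
      have h6 : π + algebraMap A L c = θ := by rw [hπdef]; ring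
      rw [h6, hθ, sub_self]
    have h7 : aeval π (f %ₘ G) = (p : L) * z := by
      rw [aeval_modByMonic_eq_self_of_root hGroot]
      exact hf
    have h8 : (f %ₘ G).natDegree < p := by
      rw [← hGnat]
      refine natDegree_modByMonic_lt f hGmon ?_
      intro h
      rw [h, natDegree_one] at hGnat
      omega
    refine ⟨fun i => (f %ₘ G).coeff i, ?_⟩
    rw [← h7, aeval_eq_sum_range' h8]
    refine Finset.sum_congr rfl fun i _ => ?_
    rw [Algebra.smul_def]
  by_cases hall : ∀ i < p - 1, (p : A) ∣ cc i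
  · choose! d hd using hall
    refine ⟨∑ i ∈ Finset.range (p - 1), algebraMap A L (d i) * π ^ i, ?_, cc (p - 1), ?_⟩
    · refine sum_mem fun i _ => mul_mem (Subalgebra.algebraMap_mem _ _) (pow_mem hπS _)
    · have h1 : p = p - 1 + 1 := by omega
      have h2 : (p : L) * z = (p : L) * (∑ i ∈ Finset.range (p - 1), algebraMap A L (d i) * π ^ i) +
          algebraMap A L (cc (p - 1)) * π ^ (p - 1) := by
        rw [hcc]
        conv_lhs => rw [h1, Finset.sum_range_succ]
        rw [Finset.mul_sum]
        congr 1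
        refine Finset.sum_congr rfl fun i hi => ?_
        rw [hd i (Finset.mem_range.1 hi), map_mul, map_natCast]
        ring
      apply mul_left_cancel₀ hp0
      rw [h2, mul_add]
      congr 1
      field_simp
  · exfalso
    push Not at hall
    classical
    set j := Nat.find hall with hj
    obtain ⟨hjp, hjd⟩ := Nat.find_spec hall
    rw [← hj] at hjp hjd
    have hjmin : ∀ i < j, (p : A) ∣ cc i := by
      intro i hi
      have h1 := Nat.find_min hall hi
      push Not at h1
      exact h1 (by omega)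
    have hju : IsUnit (cc j) := by
      by_contra h1
      have h2 : cc j ∈ IsLocalRing.maximalIdeal A := h1
      rw [hπ.maximalIdeal_eq, Ideal.mem_span_singleton] at h2
      exact hjd h2
    -- the multiples of `p`
    let P : AddSubgroup L := (integralClosure A L).toSubring.toAddSubgroup.map
      (AddMonoidHom.mulLeft (p : L))
    have hPmem : ∀ x : L, x ∈ P ↔ ∃ t : L, IsIntegral A t ∧ x = (p : L) * t := by
      intro x
      constructor
      · rintro ⟨t, ht, rfl⟩
        exact ⟨t, ht, rfl⟩
      · rintro ⟨t, ht, rfl⟩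
        exact ⟨t, ht, rfl⟩
    have hbig : ∀ k, p ≤ k → ∀ a : A, algebraMap A L a * π ^ k ∈ P := by
      intro k hk a
      rw [hPmem]
      refine ⟨algebraMap A L a * (g * π ^ (k - p)), ?_, ?_⟩
      · exact isIntegral_algebraMap.mul ((hSint g hgS).mul (hπint.pow _))
      · have h1 : π ^ k = π ^ p * π ^ (k - p) := by rw [← pow_add]; congr 1; omega
        rw [h1, hg]
        ring
    have hstep : ∀ s, (∀ i < p, i ≠ j → algebraMap A L (cc i) * π ^ (i + s) ∈ P) →
        ∃ t : L, IsIntegral A t ∧ π ^ (j + s) = (p : L) * t := by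
      intro s hs
      have h1 : (p : L) * (z * π ^ s) =
          ∑ i ∈ Finset.range p, algebraMap A L (cc i) * π ^ (i + s) := by
        rw [← mul_assoc, hcc, Finset.sum_mul]
        refine Finset.sum_congr rfl fun i _ => ?_
        rw [pow_add]
        ring
      have h2 : algebraMap A L (cc j) * π ^ (j + s) ∈ P := by
        have h3 : algebraMap A L (cc j) * π ^ (j + s) = (p : L) * (z * π ^ s) -
            ∑ i ∈ (Finset.range p).erase j, algebraMap A L (cc i) * π ^ (i + s) := by
          rw [h1, ← Finset.add_sum_erase _ _ (Finset.mem_range.2 (show j < p by omega))]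
          ring
        rw [h3]
        refine P.sub_mem ?_ (sum_mem fun i hi => ?_)
        · rw [hPmem]
          exact ⟨_, hzi.mul (hπint.pow _), rfl⟩
        · rw [Finset.mem_erase, Finset.mem_range] at hi
          exact hs i hi.2 hi.1
      rw [hPmem] at h2
      obtain ⟨t, ht, ht'⟩ := h2
      obtain ⟨u, hu⟩ := hju
      refine ⟨algebraMap A L ((u⁻¹ : Aˣ) : A) * t, isIntegral_algebraMap.mul ht, ?_⟩
      have h3 : algebraMap A L ((u⁻¹ : Aˣ) : A) * algebraMap A L (cc j) = 1 := by
        rw [← hu, ← map_mul, Units.inv_mul, map_one]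
      linear_combination (-π ^ (j + s)) * h3 + algebraMap A L ((u⁻¹ : Aˣ) : A) * ht'
    have hsmall : ∀ i < j, ∀ s, algebraMap A L (cc i) * π ^ (i + s) ∈ P := by
      intro i hi s
      obtain ⟨d, hd⟩ := hjmin i hi
      rw [hPmem]
      refine ⟨algebraMap A L d * π ^ (i + s), isIntegral_algebraMap.mul (hπint.pow _), ?_⟩
      rw [hd, map_mul, map_natCast]
      ring
    obtain ⟨ρ, hρi, hρ⟩ : ∃ t : L, IsIntegral A t ∧ π ^ (p - 1) = (p : L) * t := by
      have h1 := hstep (p - 1 - j) (by
        intro i hi hij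
        rcases lt_or_gt_of_ne hij with h | h
        · exact hsmall i h _
        · exact hbig _ (by omega) _)
      rwa [show j + (p - 1 - j) = p - 1 by omega] at h1
    obtain ⟨η, hηi, hη⟩ : ∃ t : L, IsIntegral A t ∧ π ^ (p - 2) = (p : L) * t := by
      have h1 := hstep (p - 2 - j) (by
        intro i hi hij
        rcases lt_or_gt_of_ne hij with h | h
        · exact hsmall i h _
        · rcases Nat.lt_or_ge (j + 1) i with h2 | h2
          · exact hbig _ (by omega) _
          · have h3 : i = j + 1 := by omega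
            have h4 : i + (p - 2 - j) = p - 1 := by omega
            rw [h4, hρ, hPmem]
            exact ⟨algebraMap A L (cc i) * ρ, isIntegral_algebraMap.mul hρi, by ring⟩)
      rwa [show j + (p - 2 - j) = p - 2 by omega] at h1
    have hρη : ρ = η * π := by
      apply mul_left_cancel₀ hp0
      rw [← hρ, ← mul_assoc, ← hη, ← pow_succ]
      congr 1
      omega
    have hρp : ρ ^ p = (p : L) * (η ^ p * g) := by
      rw [hρη, mul_pow, hg]
      ring
    obtain ⟨a, ha⟩ := trace_mem (K := K) hπ ρ (η ^ p * g) hρi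
      ((hηi.pow _).mul (hSint g hgS)) p hρp
    have hb0 : b ≠ 0 := hb.ne_zero
    -- the trace of `ρ`
    have htr : Algebra.trace K L (π ^ (p - 1)) = (p : K) * algebraMap A K ((-c) ^ (p - 1)) := by
      have h1 : π ^ (p - 1) = ∑ i ∈ Finset.range (p - 1 + 1),
          (algebraMap A K ((-c) ^ (p - 1 - i) * ((p - 1).choose i : A))) • θ ^ i := by
        rw [hπdef, sub_eq_add_neg, add_pow]
        refine Finset.sum_congr rfl fun i _ => ?_
        rw [Algebra.smul_def, ← IsScalarTower.algebraMap_apply, map_mul, map_pow, map_neg,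
          map_natCast]
        ring
      rw [h1, map_sum, Finset.sum_eq_single 0]
      · have h0 : Algebra.trace K L (1 : L) = (p : K) := by
          have h5 := Algebra.trace_algebraMap (R := K) (S := L) (1 : K)
          rw [map_one, hdeg] at h5
          rw [h5, nsmul_eq_mul, mul_one]
        rw [map_smul, pow_zero, h0, smul_eq_mul, Nat.sub_zero, Nat.choose_zero_right, Nat.cast_one,
          mul_one, mul_comm]
      · intro i hi hi0
        rw [map_smul, trace_pow hp b hb0 θ htop hθ hdeg i (Nat.pos_of_ne_zero hi0) (by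
          rw [Finset.mem_range] at hi; omega), smul_zero]
      · intro h
        exact absurd (Finset.mem_range.2 (by omega)) h
    have h2 : (p : K) * algebraMap A K ((p : A) * a) = (p : K) * algebraMap A K ((-c) ^ (p - 1)) := by
      rw [← ha, ← htr, hρ]
      have h3 : (p : L) * ρ = (p : K) • ρ := by
        rw [Algebra.smul_def, map_natCast]
      rw [h3, map_smul, smul_eq_mul]
    have hpK : (p : K) ≠ 0 := Nat.cast_ne_zero.2 hp.ne_zero
    have h3 : (p : A) * a = (-c) ^ (p - 1) :=
      IsFractionRing.injective A K (mul_left_cancel₀ hpK h2)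
    have hprime : Prime (p : A) := hπ.prime
    have h4 : (p : A) ∣ c := by
      have h5 : (p : A) ∣ (-c) ^ (p - 1) := ⟨a, h3.symm⟩
      have h6 := hprime.dvd_of_dvd_pow h5
      rwa [dvd_neg] at h6
    have h5 : (p : A) ∣ b := by
      have h6 : (p : A) ∣ c ^ p := dvd_pow h4 hp.ne_zero
      have h7 : b = c ^ p - (c ^ p - b) := by ring
      rw [h7]
      exact dvd_sub h6 hc
    exact hπ.not_isUnit (isUnit_of_dvd_unit h5 hb)

end

theorem wild_local {A K Ω : Type} [CommRing A] [IsDomain A] [IsDiscreteValuationRing A] [Field K]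
    [CharZero K] [Algebra A K] [IsFractionRing A K] [Field Ω] [CharZero Ω] [Algebra K Ω]
    [Algebra A Ω] [IsScalarTower A K Ω] (p : ℕ) (hp : p.Prime) (hπ : Irreducible (p : A)) (b c : A)
    (hb : IsUnit b) (hc : (p : A) ∣ c ^ p - b) (θ : Ω) (hθ : θ ^ p = algebraMap A Ω b)
    (hdeg : Module.finrank K K⟮θ⟯ = p) (z : Ω) (hz : z ∈ K⟮θ⟯) (hzi : IsIntegral A z) :
    ∃ w ∈ Algebra.adjoin A ({θ} : Set Ω), ∃ a : A,
      z = w + algebraMap A Ω a * ((θ - algebraMap A Ω c) ^ (p - 1) / (p : Ω)) := by
  have hxint : IsIntegral K θ := by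
    refine ⟨X ^ p - C (algebraMap A K b), monic_X_pow_sub_C _ hp.ne_zero, ?_⟩
    rw [← aeval_def, map_sub, map_pow, aeval_X, aeval_C, hθ, ← IsScalarTower.algebraMap_apply]
    exact sub_self _
  have : FiniteDimensional K K⟮θ⟯ := IntermediateField.adjoin.finiteDimensional hxint
  have hxL : θ ∈ K⟮θ⟯ := IntermediateField.mem_adjoin_simple_self K θ
  set x' : K⟮θ⟯ := ⟨θ, hxL⟩ with hx'
  have htop : Algebra.adjoin K ({x'} : Set K⟮θ⟯) = ⊤ := by
    have h3 := IntermediateField.adjoin_simple_toSubalgebra_of_isAlgebraic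
      (hxint.isAlgebraic)
    rw [_root_.eq_top_iff]
    rintro ⟨w, hw⟩ -
    have hw' : w ∈ Algebra.adjoin K ({θ} : Set Ω) := by
      rw [← h3]
      exact hw
    have h4 : Algebra.adjoin K ({θ} : Set Ω) =
        (Algebra.adjoin K ({x'} : Set K⟮θ⟯)).map K⟮θ⟯.val := by
      rw [AlgHom.map_adjoin, Set.image_singleton]
      rfl
    rw [h4] at hw'
    obtain ⟨w', hw1, hw2⟩ := hw'
    have : w' = ⟨w, hw⟩ := Subtype.ext hw2
    rw [← this]
    exact hw1
  have tower3 : IsScalarTower A K⟮θ⟯ Ω := by
    refine IsScalarTower.of_algebraMap_eq fun r => ?_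
    rw [IsScalarTower.algebraMap_apply A K Ω, IsScalarTower.algebraMap_apply A K K⟮θ⟯]
    rfl
  have hinj : Function.Injective (IsScalarTower.toAlgHom A K⟮θ⟯ Ω) :=
    fun u v huv => Subtype.ext huv
  have hzL : IsIntegral A (⟨z, hz⟩ : K⟮θ⟯) :=
    (isIntegral_algHom_iff (IsScalarTower.toAlgHom A K⟮θ⟯ Ω) hinj).1 hzi
  have hθ' : x' ^ p = algebraMap A K⟮θ⟯ b := by
    apply Subtype.ext
    rw [SubmonoidClass.coe_pow, hx', hθ, IsScalarTower.algebraMap_apply A K Ω,
      IsScalarTower.algebraMap_apply A K K⟮θ⟯]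
    rfl
  obtain ⟨w, hw, a, hwa⟩ := core (K := K) hp hπ b c hb hc x' htop hθ' hdeg ⟨z, hz⟩ hzL
  refine ⟨(IsScalarTower.toAlgHom A K⟮θ⟯ Ω) w, ?_, a, ?_⟩
  · have h5 : (IsScalarTower.toAlgHom A K⟮θ⟯ Ω) w ∈
        (Algebra.adjoin A ({x'} : Set K⟮θ⟯)).map (IsScalarTower.toAlgHom A K⟮θ⟯ Ω) :=
      Subalgebra.mem_map.2 ⟨_, hw, rfl⟩
    rw [AlgHom.map_adjoin, Set.image_singleton] at h5
    exact h5
  · have h6 := congrArg (IsScalarTower.toAlgHom A K⟮θ⟯ Ω) hwa
    have h7 : (IsScalarTower.toAlgHom A K⟮θ⟯ Ω) (⟨z, hz⟩ : K⟮θ⟯) = z := rfl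
    have h8 : (IsScalarTower.toAlgHom A K⟮θ⟯ Ω) x' = θ := rfl
    rw [h7] at h6
    rw [h6]
    simp only [map_add, map_mul, map_div₀, map_pow, map_sub, map_natCast, AlgHom.commutes, h8]

end Pool.Agent.H11.FR
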