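import Mathlib

/-!
# Module Wt (MP_187c26_nt, whole fields): traces

(1) `trace_root`: `L = K(x)` of degree `p`, `x ^ p = b ∈ K`, `c ∈ K`: `Tr ((x - c) ^ (p - 1)) = p (-c) ^ (p - 1)`
(`p ≥ 1`). (2) `dvd_trace`: `A` integrally closed, `π ∈ A` prime, `ρ ∈ L` with `ρ ^ n = π w`, `ρ`, `w` integral over
`A`: then `Tr ρ ∈ π A`, because all conjugates of `ρ` lie in the radical of `π` in the ring of algebraic integers.
-/

set_option autoImplicit false

open Polynomial

namespace Pool.Agent.H11.FR

theorem trace_pow_eq_zero {K L : Type} [Field K] [Field L] [Algebra K L] [FiniteDimensional K L]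
    (B : PowerBasis K L) (b : K) (hb : B.gen ^ B.dim = algebraMap K L b) (i : ℕ) (hi : 0 < i)
    (hip : i < B.dim) : Algebra.trace K L (B.gen ^ i) = 0 := by
  classical
  rw [Algebra.trace_eq_matrix_trace B.basis]
  unfold Matrix.trace
  refine Finset.sum_eq_zero fun j _ => ?_
  rw [Matrix.diag_apply, Algebra.leftMulMatrix_eq_repr_mul, B.basis_eq_pow, ← pow_add]
  by_cases h : i + (j : ℕ) < B.dim
  · have h1 : B.gen ^ (i + (j : ℕ)) = B.basis ⟨i + j, h⟩ := by rw [B.basis_eq_pow]
    rw [h1, B.basis.repr_self, Finsupp.single_apply, if_neg]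
    intro h2
    have := congrArg Fin.val h2
    simp only at this
    omega
  · have hlt : i + (j : ℕ) - B.dim < B.dim := by have := j.2; omega
    have h1 : B.gen ^ (i + (j : ℕ)) = b • B.basis ⟨i + j - B.dim, hlt⟩ := by
      rw [B.basis_eq_pow, Algebra.smul_def, ← hb, ← pow_add]
      congr 1
      simp only
      omega
    rw [h1, map_smul, Finsupp.smul_apply, B.basis.repr_self, Finsupp.single_apply, if_neg,
      smul_zero]
    intro h2
    have := congrArg Fin.val h2
    simp only at this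
    omega

theorem trace_root {K L : Type} [Field K] [Field L] [Algebra K L] [FiniteDimensional K L]
    (B : PowerBasis K L) (b c : K) (hb : B.gen ^ B.dim = algebraMap K L b) :
    Algebra.trace K L ((B.gen - algebraMap K L c) ^ (B.dim - 1)) =
      (B.dim : K) * (-c) ^ (B.dim - 1) := by
  have hdim : 0 < B.dim := B.dim_pos
  rw [sub_eq_add_neg, ← map_neg, add_pow, map_sum, Finset.sum_eq_single 0]
  · rw [pow_zero, one_mul, Nat.sub_zero, Nat.choose_zero_right, Nat.cast_one, mul_one, ← map_pow,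
      Algebra.trace_algebraMap, B.finrank, nsmul_eq_mul]
  · intro i hi h0
    rw [Finset.mem_range] at hi
    have h1 : B.gen ^ i * algebraMap K L (-c) ^ (B.dim - 1 - i) * ((B.dim - 1).choose i : L) =
        ((-c) ^ (B.dim - 1 - i) * ((B.dim - 1).choose i : K)) • B.gen ^ i := by
      rw [Algebra.smul_def, map_mul, map_pow, map_natCast]
      ring
    rw [h1, map_smul, trace_pow_eq_zero B b hb i (by omega) (by omega), smul_zero]
  · intro h
    exact absurd (Finset.mem_range.2 (by omega)) h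

theorem dvd_trace {A K L : Type} [CommRing A] [IsDomain A] [IsIntegrallyClosed A] [Field K]
    [CharZero K] [Algebra A K] [IsFractionRing A K] [Field L] [Algebra K L] [Algebra A L]
    [IsScalarTower A K L] [FiniteDimensional K L] {π : A} (hπ : Prime π) (ρ w : L)
    (hρ : IsIntegral A ρ) (hw : IsIntegral A w) (n : ℕ) (h : ρ ^ n = algebraMap A L π * w) :
    ∃ a : A, Algebra.trace K L ρ = algebraMap A K (π * a) := by
  let Ω := AlgebraicClosure K
  let B' : Subalgebra A Ω := integralClosure A Ω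
  have hI : ∀ σ : L →ₐ[K] Ω, IsIntegral A (σ ρ) := fun σ => hρ.map (σ.restrictScalars A)
  have hI' : ∀ σ : L →ₐ[K] Ω, IsIntegral A (σ w) := fun σ => hw.map (σ.restrictScalars A)
  let r : (L →ₐ[K] Ω) → B' := fun σ => ⟨σ ρ, hI σ⟩
  let I : Ideal B' := Ideal.span {algebraMap A B' π}
  have hr : ∀ σ, r σ ∈ I.radical := by
    intro σ
    refine ⟨n, ?_⟩
    rw [Ideal.mem_span_singleton]
    refine ⟨⟨σ w, hI' σ⟩, ?_⟩
    apply Subtype.ext
    change (σ ρ) ^ n = algebraMap A Ω π * σ w
    rw [← map_pow, h, map_mul, IsScalarTower.algebraMap_apply A K L, σ.commutes,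
      ← IsScalarTower.algebraMap_apply A K Ω]
  have hsum : ∑ σ, r σ ∈ I.radical := Ideal.sum_mem _ fun σ _ => hr σ
  obtain ⟨N, hN⟩ := hsum
  rw [Ideal.mem_span_singleton] at hN
  obtain ⟨y, hy⟩ := hN
  have htr : algebraMap K Ω (Algebra.trace K L ρ) = ∑ σ : L →ₐ[K] Ω, σ ρ :=
    trace_eq_sum_embeddings Ω
  have hyΩ : (algebraMap K Ω (Algebra.trace K L ρ)) ^ N = algebraMap A Ω π * (y : Ω) := by
    have h1 := congrArg (fun z : B' => (z : Ω)) hy
    rw [htr]
    simpa [r] using h1
  have hint : IsIntegral A (Algebra.trace K L ρ) := Algebra.isIntegral_trace hρ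
  obtain ⟨t, ht⟩ := IsIntegrallyClosed.isIntegral_iff.1 hint
  have hπK : algebraMap A K π ≠ 0 := by
    intro h0
    exact hπ.ne_zero (IsFractionRing.injective A K (by rw [h0, map_zero]))
  -- `y` lies in `K`
  have hyK : (y : Ω) = algebraMap K Ω (algebraMap A K (t ^ N) / algebraMap A K π) := by
    have hπΩ : algebraMap A Ω π ≠ 0 := by
      rw [IsScalarTower.algebraMap_apply A K Ω]
      exact (_root_.map_ne_zero _).2 hπK
    rw [map_div₀, ← IsScalarTower.algebraMap_apply, ← IsScalarTower.algebraMap_apply,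
      eq_div_iff hπΩ, mul_comm, ← hyΩ, ← ht, ← IsScalarTower.algebraMap_apply, map_pow]
  have hyint : IsIntegral A (algebraMap A K (t ^ N) / algebraMap A K π) := by
    have h1 : IsIntegral A (y : Ω) := y.2
    rw [hyK] at h1
    exact (isIntegral_algHom_iff (IsScalarTower.toAlgHom A K Ω) (algebraMap K Ω).injective).1 h1
  obtain ⟨s, hs⟩ := IsIntegrallyClosed.isIntegral_iff.1 hyint
  have h2 : t ^ N = π * s := by
    apply IsFractionRing.injective A K
    rw [map_mul, hs]
    field_simp
  have h3 : π ∣ t := hπ.dvd_of_dvd_pow ⟨s, h2⟩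
  obtain ⟨a, ha⟩ := h3
  exact ⟨a, by rw [← ht, ha]⟩

end Pool.Agent.H11.FR
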